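import Mathlib

set_option autoImplicit false
set_option maxHeartbeats 1000000

namespace Pool.Agent.Q245.Vg

open Polynomial

/-- the minimal polynomial of the value of `g` at a root of `p` -/
lemma sharp (g p : ℚ[X]) (hp : Irreducible p) : ∃ P : ℚ[X], Irreducible P ∧ P.Monic ∧
    p ∣ P.comp g ∧ P.natDegree ≤ p.natDegree := by
  haveI := Fact.mk hp
  haveI hfin : Module.Finite ℚ (AdjoinRoot p) := (AdjoinRoot.powerBasis hp.ne_zero).finite
  set α : AdjoinRoot p := aeval (AdjoinRoot.root p) g with hα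
  have hint : IsIntegral ℚ α := IsIntegral.of_finite ℚ α
  refine ⟨minpoly ℚ α, minpoly.irreducible hint, minpoly.monic hint, ?_, ?_⟩
  · rw [← AdjoinRoot.mk_eq_zero, ← AdjoinRoot.aeval_eq, aeval_comp]
    exact minpoly.aeval ℚ α
  · refine (minpoly.natDegree_le α).trans (le_of_eq ?_)
    rw [PowerBasis.finrank (AdjoinRoot.powerBasis hp.ne_zero)]
    exact AdjoinRoot.powerBasis_dim hp.ne_zero

lemma mult_lt (h g' F₁ : ℚ[X]) (hh : h ≠ 0) (hder : derivative h = g' * F₁)
    (p : ℚ[X]) (hp : Prime p) (hph : p ∣ h) :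
    ∃ e : ℕ, 1 ≤ e ∧ p ^ e ∣ h ∧ ¬ p ^ e ∣ g' := by
  have hfin : FiniteMultiplicity p h :=
    FiniteMultiplicity.of_prime_left hp hh
  obtain ⟨w, hw, hpw⟩ := hfin.exists_eq_pow_mul_and_not_dvd
  set e := multiplicity p h with he
  have he1 : 1 ≤ e := Nat.one_le_iff_ne_zero.mpr (multiplicity_ne_zero.mpr hph)
  refine ⟨e, he1, ⟨w, hw⟩, ?_⟩
  intro hdvd
  have h1 : p ^ e ∣ derivative h := by rw [hder]; exact Dvd.dvd.mul_right hdvd _
  obtain ⟨e', he'⟩ : ∃ e', e = e' + 1 := ⟨e - 1, by omega⟩
  have h2 : derivative h = p ^ e' * (C ((e' : ℚ) + 1) * derivative p * w) + p ^ e * derivative w := by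
    rw [hw, he', derivative_mul, derivative_pow_succ]
    ring
  have h3 : p ^ e ∣ p ^ e' * (C ((e' : ℚ) + 1) * derivative p * w) := by
    have : p ^ e' * (C ((e' : ℚ) + 1) * derivative p * w) = derivative h - p ^ e * derivative w := by
      rw [h2]; ring
    rw [this]
    exact dvd_sub h1 (Dvd.intro _ rfl)
  rw [he', pow_succ] at h3
  have h4 : p ∣ C ((e' : ℚ) + 1) * derivative p * w :=
    (mul_dvd_mul_iff_left (pow_ne_zero _ hp.ne_zero)).mp h3
  rcases hp.dvd_or_dvd h4 with h5 | h5
  · rcases hp.dvd_or_dvd h5 with h6 | h6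
    · have h7 : IsUnit (C ((e' : ℚ) + 1)) := by
        rw [isUnit_C]
        exact isUnit_iff_ne_zero.mpr (by positivity)
      exact hp.not_unit (isUnit_of_dvd_unit h6 h7)
    · have hpd : 0 < p.natDegree := hp.irreducible.natDegree_pos
      have hd0 : derivative p ≠ 0 := by
        intro h0
        have := natDegree_eq_zero_of_derivative_eq_zero h0
        omega
      have h7 := natDegree_le_of_dvd h6 hd0
      have h8 := natDegree_derivative_lt hpd.ne'
      omega
  · exact hpw h5

lemma dvd_pow_of_primes (u : ℚ[X]) : ∀ h : ℚ[X], h ≠ 0 → (∀ p, Prime p → p ∣ h → p ∣ u) →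
    ∃ N : ℕ, h ∣ u ^ N := by
  intro h
  induction h using UniqueFactorizationMonoid.induction_on_prime with
  | h₁ => intro h; exact absurd rfl h
  | h₂ x hx => intro _ _; exact ⟨0, by rw [pow_zero]; exact hx.dvd⟩
  | h₃ a p ha hp ih =>
    intro _ h1
    obtain ⟨N, hN⟩ := ih ha fun q hq hqa => h1 q hq (Dvd.dvd.mul_left hqa _)
    refine ⟨N + 1, ?_⟩
    rw [pow_succ']
    exact mul_dvd_mul (h1 p hp (Dvd.intro _ rfl)) hN

/-- the core of the first step of Belyi's theorem -/
lemma comp_part (F g f : ℚ[X]) (hF : F.Separable) (hFd : 1 ≤ F.natDegree) (hg : 1 ≤ g.natDegree)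
    (hf : Squarefree f)
    (hcrit : ∀ p, Prime p → p ∣ derivative g → p ∣ F.comp g)
    (hfp : ∀ p, Prime p → p ∣ f → p ∣ F.comp g) :
    ∃ (R : ℚ[X]) (N : ℕ), R ≠ 0 ∧ F.comp g ∣ (R * f) ^ N ∧
      R.natDegree + f.natDegree ≤ g.natDegree * (F.natDegree - 1) + 1 := by
  set h : ℚ[X] := F.comp g with hh
  have hF0 : F ≠ 0 := by rintro rfl; simp at hFd
  have hh0 : h ≠ 0 := by
    intro h0
    rcases comp_eq_zero_iff.mp h0 with h1 | h1
    · exact hF0 h1
    · have h2 := congrArg natDegree h1.2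
      rw [natDegree_C] at h2
      omega
  have hg'0 : derivative g ≠ 0 := by
    intro h0
    have := natDegree_eq_zero_of_derivative_eq_zero h0
    omega
  have hder : derivative h = derivative g * (derivative F).comp g := by
    rw [hh, derivative_comp]
  have key : ∀ p, Prime p → p ∣ h → ∃ e : ℕ, 1 ≤ e ∧ p ^ e ∣ h ∧ ¬ p ^ e ∣ derivative g :=
    fun p hp hph => mult_lt h (derivative g) _ hh0 hder p hp hph
  -- `g'` divides `h`
  have hdvd : derivative g ∣ h := by
    rw [UniqueFactorizationMonoid.dvd_iff_emultiplicity_le hg'0]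
    intro p hp
    rw [emultiplicity_le_emultiplicity_iff]
    intro n hn
    rcases Nat.eq_zero_or_pos n with h0 | h0
    · rw [h0, pow_zero]; exact one_dvd _
    · have hpg : p ∣ derivative g := (dvd_pow_self p (by omega)).trans hn
      obtain ⟨e, he1, he2, he3⟩ := key p hp (hcrit p hp hpg)
      have : n < e := by
        by_contra hge
        push Not at hge
        exact he3 ((pow_dvd_pow p hge).trans hn)
      exact (pow_dvd_pow p this.le).trans he2
  obtain ⟨u, hu⟩ := hdvd
  have hu0 : u ≠ 0 := by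
    rintro rfl
    exact hh0 (by rw [hu, mul_zero])
  have hpu : ∀ p, Prime p → p ∣ h → p ∣ u := by
    intro p hp hph
    obtain ⟨e, he1, he2, he3⟩ := key p hp hph
    by_contra hnot
    apply he3
    rw [hu] at he2
    have hcop : IsCoprime (p ^ e) u := IsCoprime.pow_left ((hp.coprime_iff_not_dvd).mpr hnot)
    exact hcop.dvd_of_dvd_mul_right he2
  -- `f` divides `u`
  have hf0 : f ≠ 0 := hf.ne_zero
  have hfu : f ∣ u := by
    rw [UniqueFactorizationMonoid.dvd_iff_emultiplicity_le hf0]
    intro p hp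
    rw [emultiplicity_le_emultiplicity_iff]
    intro n hn
    rcases Nat.lt_or_ge n 2 with h2 | h2
    · rcases Nat.eq_zero_or_pos n with h0 | h0
      · rw [h0, pow_zero]; exact one_dvd _
      · have h1 : n = 1 := by omega
        rw [h1, pow_one] at hn ⊢
        exact hpu p hp (hfp p hp hn)
    · exfalso
      have h3 : p * p ∣ f := by
        rw [← sq]; exact (pow_dvd_pow p h2).trans hn
      exact hp.not_unit (hf p h3)
  obtain ⟨R, hR⟩ := hfu
  have hR0 : R ≠ 0 := by
    rintro rfl
    exact hu0 (by rw [hR, mul_zero])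
  obtain ⟨N, hN⟩ := dvd_pow_of_primes u h hh0 hpu
  refine ⟨R, N, hR0, ?_, ?_⟩
  · rw [mul_comm R f, ← hR]; exact hN
  · have h1 : h.natDegree = F.natDegree * g.natDegree := natDegree_comp
    have h2 : h.natDegree = (derivative g).natDegree + u.natDegree := by
      rw [hu, natDegree_mul hg'0 hu0]
    have h3 : u.natDegree = f.natDegree + R.natDegree := by
      rw [hR, natDegree_mul hf0 hR0]
    have h4 : (derivative g).natDegree = g.natDegree - 1 := by
      exact natDegree_eq_of_degree_eq_some (degree_derivative_eq g (by omega))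
    obtain ⟨k, hk⟩ : ∃ k, F.natDegree = k + 1 := ⟨F.natDegree - 1, by omega⟩
    rw [hk] at h1 ⊢
    rw [Nat.add_sub_cancel]
    have h5 : (k + 1) * g.natDegree = g.natDegree * k + g.natDegree := by ring
    omega

/-- the first step of Belyi's theorem: the number of irreducible factors of maximal degree
decreases -/
lemma step (S : Finset ℚ[X]) (hS : ∀ p ∈ S, Irreducible p ∧ p.Monic) (n : ℕ) (hn : 2 ≤ n)
    (hmax : ∀ p ∈ S, p.natDegree ≤ n) (g₀ : ℚ[X]) (hg₀ : g₀ ∈ S) (hg₀n : g₀.natDegree = n)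
    (g : ℚ[X]) (hgg : Associated g₀ g) :
    ∃ S' : Finset ℚ[X], (∀ p ∈ S', Irreducible p ∧ p.Monic) ∧ (∀ p ∈ S', p.natDegree ≤ n) ∧
      (S'.filter fun p => p.natDegree = n).card < (S.filter fun p => p.natDegree = n).card ∧
      2 ≤ (∏ p ∈ S', p).natDegree ∧
      ∃ (R : ℚ[X]) (N : ℕ), R ≠ 0 ∧ (∏ p ∈ S', p).comp g ∣ (R * ∏ p ∈ S, p) ^ N ∧
        R.natDegree + (∏ p ∈ S, p).natDegree ≤ n * ((∏ p ∈ S', p).natDegree - 1) + 1 := by
  classical
  have hgirr : Irreducible g := hgg.irreducible (hS g₀ hg₀).1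
  have hgn : g.natDegree = n := by
    rw [← hg₀n]
    exact (natDegree_eq_natDegree (degree_eq_degree_of_associated hgg)).symm
  have hg'0 : derivative g ≠ 0 := by
    intro h0
    have := natDegree_eq_zero_of_derivative_eq_zero h0
    omega
  have hg'n : (derivative g).natDegree = n - 1 := by
    rw [natDegree_eq_of_degree_eq_some (degree_derivative_eq g (by omega)), hgn]
  have hsh : ∀ p : ℚ[X], ∃ P : ℚ[X], Irreducible p → (Irreducible P ∧ P.Monic ∧
      p ∣ P.comp g ∧ P.natDegree ≤ p.natDegree) := by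
    intro p
    by_cases hp : Irreducible p
    · obtain ⟨P, hP⟩ := sharp g p hp
      exact ⟨P, fun _ => hP⟩
    · exact ⟨0, fun h => absurd h hp⟩
  choose sh hsh using hsh
  set Sg : Finset ℚ[X] := (UniqueFactorizationMonoid.normalizedFactors (derivative g)).toFinset
    with hSg
  have hSgI : ∀ p ∈ Sg, Irreducible p ∧ p.Monic ∧ p ∣ derivative g := by
    intro p hp
    rw [hSg, Multiset.mem_toFinset] at hp
    have h1 := UniqueFactorizationMonoid.irreducible_of_normalized_factor p hp
    have h2 := UniqueFactorizationMonoid.normalize_normalized_factor p hp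
    refine ⟨h1, ?_, UniqueFactorizationMonoid.dvd_of_mem_normalizedFactors hp⟩
    rw [← h2]
    exact monic_normalize h1.ne_zero
  have hSgd : ∀ p ∈ Sg, p.natDegree ≤ n - 1 := by
    intro p hp
    rw [← hg'n]
    exact natDegree_le_of_dvd (hSgI p hp).2.2 hg'0
  set S' : Finset ℚ[X] := insert X (((S.erase g₀) ∪ Sg).image sh) with hS'
  have hU : ∀ p ∈ (S.erase g₀) ∪ Sg, Irreducible p := by
    intro p hp
    rcases Finset.mem_union.mp hp with h | h
    · exact (hS p (Finset.mem_of_mem_erase h)).1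
    · exact (hSgI p h).1
  have hS'I : ∀ p ∈ S', Irreducible p ∧ p.Monic := by
    intro q hq
    rcases Finset.mem_insert.mp hq with h | h
    · rw [h]; exact ⟨irreducible_X, monic_X⟩
    · obtain ⟨p, hp, rfl⟩ := Finset.mem_image.mp h
      have := hsh p (hU p hp)
      exact ⟨this.1, this.2.1⟩
  have hXS' : (X : ℚ[X]) ∈ S' := Finset.mem_insert_self _ _
  have hshS' : ∀ p ∈ (S.erase g₀) ∪ Sg, sh p ∈ S' := fun p hp =>
    Finset.mem_insert_of_mem (Finset.mem_image_of_mem sh hp)
  set F : ℚ[X] := ∏ p ∈ S', p with hF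
  have hFm : F.Monic := monic_prod_of_monic _ _ fun p hp => (hS'I p hp).2
  have hFsep : F.Separable := by
    apply separable_prod' (f := fun p : ℚ[X] => p)
    · intro p hp q hq hpq
      rw [(hS'I p hp).1.coprime_iff_not_dvd]
      intro hdvd
      apply hpq
      exact eq_of_monic_of_associated (hS'I p hp).2 (hS'I q hq).2
        ((hS'I p hp).1.associated_of_dvd (hS'I q hq).1 hdvd)
    · intro p hp
      exact (hS'I p hp).1.separable
  have hfac : ∀ q ∈ S', q.comp g ∣ F.comp g := by
    intro q hq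
    rw [hF, prod_comp]
    exact Finset.dvd_prod_of_mem (fun q : ℚ[X] => q.comp g) hq
  have hcrit : ∀ p, Prime p → p ∣ derivative g → p ∣ F.comp g := by
    intro p hp hpg
    obtain ⟨p₀, hp₀, hass⟩ :=
      UniqueFactorizationMonoid.exists_mem_normalizedFactors_of_dvd hg'0 hp.irreducible hpg
    have hp₀' : p₀ ∈ Sg := by rw [hSg, Multiset.mem_toFinset]; exact hp₀
    have h1 := hsh p₀ (hSgI p₀ hp₀').1
    have h2 := hshS' p₀ (Finset.mem_union_right _ hp₀')
    exact hass.dvd.trans (h1.2.2.1.trans (hfac _ h2))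
  have hfp : ∀ p, Prime p → p ∣ ∏ p ∈ S, p → p ∣ F.comp g := by
    intro p hp hpS
    obtain ⟨q, hq, hpq⟩ := (hp.dvd_finset_prod_iff _).mp hpS
    refine hpq.trans ?_
    by_cases hqg : q = g₀
    · rw [hqg]
      have h1 := hfac X hXS'
      rw [X_comp] at h1
      exact hgg.dvd.trans h1
    · have h1 := hsh q (hS q hq).1
      have h2 := hshS' q (Finset.mem_union_left _ (Finset.mem_erase.mpr ⟨hqg, hq⟩))
      exact h1.2.2.1.trans (hfac _ h2)
  have hsq : Squarefree (∏ p ∈ S, p) := by
    apply Separable.squarefree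
    apply separable_prod' (f := fun p : ℚ[X] => p)
    · intro p hp q hq hpq
      rw [(hS p hp).1.coprime_iff_not_dvd]
      intro hdvd
      apply hpq
      exact eq_of_monic_of_associated (hS p hp).2 (hS q hq).2
        ((hS p hp).1.associated_of_dvd (hS q hq).1 hdvd)
    · intro p hp
      exact (hS p hp).1.separable
  have hFdeg : F.natDegree = ∑ p ∈ S', p.natDegree :=
    natDegree_prod_of_monic _ _ fun p hp => (hS'I p hp).2
  have hF2 : 2 ≤ F.natDegree := by
    -- a factor of `g'`
    have hnu : ¬ IsUnit (derivative g) := by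
      intro hu
      have := natDegree_eq_zero_of_isUnit hu
      omega
    obtain ⟨p, hp, hpg⟩ := WfDvdMonoid.exists_irreducible_factor hnu hg'0
    obtain ⟨p₀, hp₀, hass⟩ :=
      UniqueFactorizationMonoid.exists_mem_normalizedFactors_of_dvd hg'0 hp hpg
    have hp₀' : p₀ ∈ Sg := by rw [hSg, Multiset.mem_toFinset]; exact hp₀
    have h1 := hsh p₀ (hSgI p₀ hp₀').1
    have h2 := hshS' p₀ (Finset.mem_union_right _ hp₀')
    have hne : sh p₀ ≠ X := by
      intro h0
      have h3 := h1.2.2.1
      rw [h0, X_comp] at h3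
      have h4 := (hSgI p₀ hp₀').1.associated_of_dvd hgirr h3
      have h5 := natDegree_eq_natDegree (degree_eq_degree_of_associated h4)
      have h6 := hSgd p₀ hp₀'
      omega
    have hsub : ({X, sh p₀} : Finset ℚ[X]) ⊆ S' := by
      intro q hq
      rcases Finset.mem_insert.mp hq with h | h
      · rw [h]; exact hXS'
      · rw [Finset.mem_singleton.mp h]; exact h2
    have h3 : ∑ p ∈ ({X, sh p₀} : Finset ℚ[X]), p.natDegree ≤ ∑ p ∈ S', p.natDegree :=
      Finset.sum_le_sum_of_subset hsub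
    rw [Finset.sum_pair hne.symm, natDegree_X] at h3
    have h4 : 0 < (sh p₀).natDegree := h1.1.natDegree_pos
    omega
  refine ⟨S', hS'I, ?_, ?_, hF2, ?_⟩
  · intro q hq
    rcases Finset.mem_insert.mp hq with h | h
    · rw [h, natDegree_X]; omega
    · obtain ⟨p, hp, rfl⟩ := Finset.mem_image.mp h
      refine (hsh p (hU p hp)).2.2.2.trans ?_
      rcases Finset.mem_union.mp hp with h | h
      · exact hmax p (Finset.mem_of_mem_erase h)
      · have := hSgd p h; omega
  · have hsub : (S'.filter fun p => p.natDegree = n) ⊆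
        ((S.erase g₀).filter fun p => p.natDegree = n).image sh := by
      intro q hq
      obtain ⟨hq1, hq2⟩ := Finset.mem_filter.mp hq
      rcases Finset.mem_insert.mp hq1 with h | h
      · rw [h, natDegree_X] at hq2; omega
      · obtain ⟨p, hp, rfl⟩ := Finset.mem_image.mp h
        have h1 := (hsh p (hU p hp)).2.2.2
        rcases Finset.mem_union.mp hp with h | h
        · have h2 := hmax p (Finset.mem_of_mem_erase h)
          refine Finset.mem_image_of_mem sh (Finset.mem_filter.mpr ⟨h, ?_⟩)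
          omega
        · have := hSgd p h; omega
    refine (Finset.card_le_card hsub).trans_lt (Finset.card_image_le.trans_lt ?_)
    apply Finset.card_lt_card
    rw [Finset.ssubset_iff_of_subset]
    · refine ⟨g₀, Finset.mem_filter.mpr ⟨hg₀, hg₀n⟩, ?_⟩
      intro h
      exact (Finset.mem_erase.mp (Finset.mem_filter.mp h).1).1 rfl
    · intro p hp
      obtain ⟨h1, h2⟩ := Finset.mem_filter.mp hp
      exact Finset.mem_filter.mpr ⟨Finset.mem_of_mem_erase h1, h2⟩
  · obtain ⟨R, N, h1, h2, h3⟩ := comp_part F g (∏ p ∈ S, p) hFsep (by omega) (by omega) hsq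
      hcrit hfp
    rw [hgn] at h3
    exact ⟨R, N, h1, h2, h3⟩

end Pool.Agent.Q245.Vg
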