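import Pool.Agent.Q245.Vg.OneCoord
import Pool.Agent.Q245.Vg.Belyi

set_option autoImplicit false
set_option maxHeartbeats 1000000

namespace Pool.Agent.Q245.Vg

open Polynomial
open scoped Polynomial.Bivariate
open Pool.Agent.Q245.Vj

/-- multiplication of the form by constants -/
lemma ineq_const {q r : ℕ} {F F' G : ℤ → ℤ → ℤ} (K₁ K₂ : ℤ) (hK₁ : K₁ ≠ 0) (hK₂ : K₂ ≠ 0)
    (hK : ∀ x y : ℤ, y ≠ 0 → K₁ * F x y = K₂ * F' x y)
    (h : Ineq q r (fun x y z w => F' x y * G z w)) :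
    Ineq q r (fun x y z w => F x y * G z w) := by
  intro ε hε
  obtain ⟨E, hE, κ, hκ⟩ := h ε hε
  refine ⟨E, hE, |κ| * |(K₁ : ℝ)|, ?_⟩
  intro x y z w hxy hzw hy hw hΦ hEv
  simp only at hΦ ⊢
  have hF : F x y ≠ 0 := left_ne_zero_of_mul hΦ
  have hG : G z w ≠ 0 := right_ne_zero_of_mul hΦ
  have hF' : F' x y ≠ 0 := by
    intro h0
    have := hK x y hy
    rw [h0, mul_zero] at this
    exact (mul_ne_zero hK₁ hF) this
  have h1 := hκ x y z w hxy hzw hy hw (mul_ne_zero hF' hG) hEv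
  have h2 : rad (F' x y * G z w) ≤ rad (K₁ * (F x y * G z w)) := by
    apply rad_le_of_dvd (mul_ne_zero hK₁ hΦ)
    rw [← mul_assoc, hK x y hy]
    exact ⟨K₂, by ring⟩
  have h3 : (rad (F' x y * G z w) : ℝ) ≤ |(K₁ : ℝ)| * rad (F x y * G z w) := by
    have : (rad (F' x y * G z w) : ℝ) ≤ rad (K₁ * (F x y * G z w)) := by exact_mod_cast h2
    exact this.trans (rad_mul_le_abs hK₁)
  calc H x y ^ ((q : ℝ) - 2 - ε) * H z w ^ ((r : ℝ) - 2 - ε) ≤ κ * rad (F' x y * G z w) := h1
    _ ≤ |κ| * rad (F' x y * G z w) := mul_le_mul_of_nonneg_right (le_abs_self _) (by positivity)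
    _ ≤ |κ| * (|(K₁ : ℝ)| * rad (F x y * G z w)) := mul_le_mul_of_nonneg_left h3 (abs_nonneg _)
    _ = _ := by ring

/-- the point `∞` may be removed -/
lemma drop_y {q r : ℕ} {F G : ℤ → ℤ → ℤ} (h : Ineq (q + 1) r (fun x y z w => (y * F x y) * G z w)) :
    Ineq q r (fun x y z w => F x y * G z w) := by
  intro ε hε
  obtain ⟨E, hE, κ, hκ⟩ := h ε hε
  refine ⟨E, hE, |κ|, ?_⟩
  intro x y z w hxy hzw hy hw hΦ hEv
  simp only at hΦ ⊢
  have hF : F x y ≠ 0 := left_ne_zero_of_mul hΦ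
  have hG : G z w ≠ 0 := right_ne_zero_of_mul hΦ
  have h1 := hκ x y z w hxy hzw hy hw (mul_ne_zero (mul_ne_zero hy hF) hG) hEv
  simp only at h1
  have a1 : (0 : ℝ) < H x y := lt_of_lt_of_le one_pos (H_pos hxy)
  have h3 : (rad (y * F x y * G z w) : ℝ) ≤ H x y * rad (F x y * G z w) := by
    rw [mul_assoc]
    exact (rad_mul_le_abs hy).trans (mul_le_mul_of_nonneg_right (le_H_right x y) (by positivity))
  have e : H x y ^ (((q + 1 : ℕ) : ℝ) - 2 - ε) = H x y ^ ((q : ℝ) - 2 - ε) * H x y := by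
    conv_rhs => rw [← Real.rpow_one (H x y), ← Real.rpow_mul a1.le, ← Real.rpow_add a1]
    congr 1; push_cast; ring
  rw [e] at h1
  refine le_of_mul_le_mul_right ?_ a1
  calc H x y ^ ((q : ℝ) - 2 - ε) * H z w ^ ((r : ℝ) - 2 - ε) * H x y
      = H x y ^ ((q : ℝ) - 2 - ε) * H x y * H z w ^ ((r : ℝ) - 2 - ε) := by ring
    _ ≤ κ * rad (y * F x y * G z w) := h1
    _ ≤ |κ| * rad (y * F x y * G z w) := mul_le_mul_of_nonneg_right (le_abs_self _) (by positivity)
    _ ≤ |κ| * (H x y * rad (F x y * G z w)) := mul_le_mul_of_nonneg_left h3 (abs_nonneg _)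
    _ = |κ| * rad (F x y * G z w) * H x y := by ring

lemma natDegree_of_map {f : ℤ[X]} {P : ℚ[X]} {c : ℚ} (hc : c ≠ 0)
    (h : f.map (Int.castRingHom ℚ) = C c * P) : f.natDegree = P.natDegree := by
  have h1 : (f.map (Int.castRingHom ℚ)).natDegree = f.natDegree :=
    natDegree_map_eq_of_injective (Int.castRingHom ℚ).injective_int f
  rw [← h1, h, natDegree_C_mul hc]

lemma trG_of_trQ {k : ℕ} {F : ℤ → ℤ → ℤ} (h : TrQ k F) : TrG 3 F₀ (k + 1) F := by
  obtain ⟨M, p, q, d, c₀, C₀, hM, hpq, hq, hd, hc, hC, h⟩ := trQ_reduce h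
  refine ⟨M, p, q, d, c₀, C₀, hM, hpq, hq, hd, hc, hC, ?_⟩
  intro x y hxy hy hFx hdx
  obtain ⟨h1, T, W, R, h2, h3, h4, h5, h6, h7, h8, h9⟩ := h x y hxy hy hFx hdx
  refine ⟨h1, T, W, R, h2, h3, h4, h5, h6, h7, ?_, h9⟩
  have e1 : k + 1 - 2 = k - 1 := by omega
  have e2 : M * (3 - 2) = M := by omega
  rw [e1, e2]; exact h8

/-- the case of rational points -/
lemma base_case (r : ℕ) (G : ℤ → ℤ → ℤ) (h : Ineq 3 r (fun x y z w => F₀ x y * G z w))
    (S : Finset ℚ[X]) (hS : ∀ p ∈ S, Irreducible p ∧ p.Monic) (h1 : ∀ p ∈ S, p.natDegree ≤ 1)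
    (h2 : 2 ≤ (∏ p ∈ S, p).natDegree) (f : ℤ[X]) (c : ℚ) (hc : c ≠ 0)
    (hf : f.map (Int.castRingHom ℚ) = C c * ∏ p ∈ S, p) :
    Ineq (f.natDegree + 1) r (fun x y z w => Fy f x y * G z w) := by
  classical
  have hX : ∀ p ∈ S, p = X - C (-(p.coeff 0)) := by
    intro p hp
    have hd : p.natDegree = 1 := le_antisymm (h1 p hp) (hS p hp).1.natDegree_pos
    have := (hS p hp).2.eq_X_add_C hd
    rw [C_neg, sub_neg_eq_add]
    exact this
  set A : Finset ℚ := S.image (fun p => -(p.coeff 0)) with hA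
  have hinj : Set.InjOn (fun p : ℚ[X] => -(p.coeff 0)) S := by
    intro p hp q hq hpq
    simp only at hpq
    rw [hX p hp, hX q hq, hpq]
  have hprod : ∏ p ∈ S, p = ∏ a ∈ A, (X - C a) := by
    rw [hA, Finset.prod_image hinj]
    exact Finset.prod_congr rfl hX
  have hcard : f.natDegree = A.card := by
    rw [natDegree_of_map hc hf, hprod, natDegree_prod_of_monic _ _ (fun a _ => monic_X_sub_C a)]
    simp
  have hA2 : 2 ≤ A.card := by
    rw [← hcard, natDegree_of_map hc hf]; exact h2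
  have h3 : Ineq (A.card + 1) r (fun x y z w => FS A x y * G z w) :=
    applyG 3 (A.card + 1) r le_rfl (by omega) F₀ (FS A) G (trG_of_trQ (tr_rat A hA2)) h
  rw [← hcard] at h3
  have hden : (∏ a ∈ A, (a.den : ℤ)) ≠ 0 := by
    rw [Finset.prod_ne_zero_iff]
    intro a _
    exact_mod_cast a.den_ne_zero
  refine ineq_const (c.den * ∏ a ∈ A, (a.den : ℤ)) c.num
    (mul_ne_zero (by exact_mod_cast c.den_ne_zero) hden) (Rat.num_ne_zero.mpr hc) ?_ h3
  intro x y hy
  have hyQ : (y : ℚ) ≠ 0 := by exact_mod_cast hy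
  have e1 : (form f.natDegree f x y : ℚ) = (y : ℚ) ^ A.card *
      (c * ∏ a ∈ A, ((x : ℚ) / y - a)) := by
    rw [form_eq _ f le_rfl x y hy, hf, hprod, eval_mul, eval_C, eval_prod, hcard]
    simp only [eval_sub, eval_X, eval_C]
  have e2 : ((∏ a ∈ A, lin a x y : ℤ) : ℚ) = ((∏ a ∈ A, (a.den : ℤ) : ℤ) : ℚ) *
      ((y : ℚ) ^ A.card * ∏ a ∈ A, ((x : ℚ) / y - a)) := by
    push_cast
    rw [← Finset.prod_const, ← Finset.prod_mul_distrib, ← Finset.prod_mul_distrib]
    apply Finset.prod_congr rfl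
    intro a _
    rw [lin_eq a x y hy]; ring
  have hcn : (c.num : ℚ) = c * c.den := (Rat.mul_den_eq_num c).symm
  have e3 : (((c.den * ∏ a ∈ A, (a.den : ℤ)) * Fy f x y : ℤ) : ℚ)
      = ((c.num * FS A x y : ℤ) : ℚ) := by
    unfold Fy FS
    rw [Int.cast_mul, Int.cast_mul, Int.cast_mul, e1, Int.cast_mul c.num, Int.cast_mul y, e2, hcn]
    push_cast
    ring
  exact_mod_cast e3

/-- all squarefree polynomials, by induction on the degrees of the irreducible factors -/
theorem all_aux (r : ℕ) (G : ℤ → ℤ → ℤ) (h : Ineq 3 r (fun x y z w => F₀ x y * G z w)) :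
    ∀ n m : ℕ, ∀ S : Finset ℚ[X], (∀ p ∈ S, Irreducible p ∧ p.Monic) →
      (∀ p ∈ S, p.natDegree ≤ n + 1) → (S.filter fun p => p.natDegree = n + 1).card ≤ m →
      2 ≤ (∏ p ∈ S, p).natDegree → ∀ (f : ℤ[X]) (c : ℚ), c ≠ 0 →
      f.map (Int.castRingHom ℚ) = C c * ∏ p ∈ S, p →
      Ineq (f.natDegree + 1) r (fun x y z w => Fy f x y * G z w) := by
  intro n
  induction n with
  | zero =>
    intro m S hS h1 _ h2 f c hc hf
    exact base_case r G h S hS h1 h2 f c hc hf
  | succ n ihn =>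
    intro m
    induction m with
    | zero =>
      intro S hS h1 hcard h2 f c hc hf
      refine ihn S.card S hS ?_ (Finset.card_filter_le _ _) h2 f c hc hf
      intro p hp
      have h3 := h1 p hp
      have h4 : p.natDegree ≠ n + 1 + 1 := by
        intro h5
        have h6 : p ∈ S.filter fun p => p.natDegree = n + 1 + 1 := Finset.mem_filter.mpr ⟨hp, h5⟩
        have h7 := Finset.card_pos.mpr ⟨p, h6⟩
        omega
      omega
    | succ m ihm =>
      intro S hS h1 hcard h2 f c hc hf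
      by_cases h0 : (S.filter fun p => p.natDegree = n + 1 + 1).card = 0
      · exact ihm S hS h1 (by omega) h2 f c hc hf
      · obtain ⟨g₀, hg₀⟩ := Finset.card_pos.mp (Nat.pos_of_ne_zero h0)
        obtain ⟨hg₀S, hg₀n⟩ := Finset.mem_filter.mp hg₀
        obtain ⟨eg, g, heg, hg⟩ := clear g₀
        have hegQ : (eg : ℚ) ≠ 0 := by exact_mod_cast heg
        have hass : Associated g₀ (g.map (Int.castRingHom ℚ)) := by
          rw [hg, mul_comm]
          exact (associated_mul_unit_right g₀ _ (isUnit_C.mpr (isUnit_iff_ne_zero.mpr hegQ)))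
        obtain ⟨S', hS', hmax', hlt, h2', R, N, hR0, hdvd, hdeg⟩ :=
          step S hS (n + 1 + 1) (by omega) h1 g₀ hg₀S hg₀n _ hass
        obtain ⟨e', f', he', hf'⟩ := clear (∏ p ∈ S', p)
        have he'Q : (e' : ℚ) ≠ 0 := by exact_mod_cast he'
        have hgood := ihm S' hS' hmax' (by omega) h2' f' e' he'Q hf'
        obtain ⟨eR, Ri, heR, hRi⟩ := clear R
        have heRQ : (eR : ℚ) ≠ 0 := by exact_mod_cast heR
        obtain ⟨w, hw⟩ := hdvd
        obtain ⟨ev, v, hev, hv⟩ := clear (C (((eR : ℚ) * c) ^ N / e') * w)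
        have hid : C ev * (Ri * f) ^ N = (f'.comp g) * v := by
          apply Polynomial.map_injective _ (Int.castRingHom ℚ).injective_int
          rw [Polynomial.map_mul, Polynomial.map_pow, Polynomial.map_mul, Polynomial.map_mul,
            Polynomial.map_comp, hRi, hf, hf', hv, mul_comp, C_comp, map_C]
          have e1 : C (eR : ℚ) * R * (C c * ∏ p ∈ S, p)
              = C ((eR : ℚ) * c) * (R * ∏ p ∈ S, p) := by
            rw [C_mul]; ring
          rw [e1, mul_pow, hw, ← C_pow]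
          have e2 : (C (e' : ℚ)) * C (((eR : ℚ) * c) ^ N / e') = C (((eR : ℚ) * c) ^ N) := by
            rw [← C_mul]; congr 1; field_simp
          simp only [eq_intCast]
          linear_combination (-(C (ev : ℚ) * (∏ p ∈ S', p).comp
            (g.map (Int.castRingHom ℚ)) * w)) * e2
        have hgn : g.natDegree = n + 1 + 1 := by rw [natDegree_of_map hegQ hg, hg₀n]
        have hfd := natDegree_of_map hc hf
        have hf'd := natDegree_of_map he'Q hf'
        have hRd := natDegree_of_map heRQ hRi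
        have hRi0 : Ri ≠ 0 := by
          rintro rfl
          rw [Polynomial.map_zero] at hRi
          exact (mul_ne_zero (by simpa using heRQ) hR0) hRi.symm
        have htr := tr_poly f f' g Ri v ev N hev (by omega) (by omega) (by omega) hRi0 hid
          (by rw [hRd, hfd, hgn, hf'd]; exact hdeg)
        exact applyG (f'.natDegree + 1) (f.natDegree + 1) r (by omega) (by omega) _ _ _ htr hgood

/-- all squarefree polynomials -/
theorem all_squarefree (r : ℕ) (G : ℤ → ℤ → ℤ) (h : Ineq 3 r (fun x y z w => F₀ x y * G z w))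
    (f : ℤ[X]) (hf : Squarefree (f.map (Int.castRingHom ℚ))) (hd : 2 ≤ f.natDegree) :
    Ineq (f.natDegree + 1) r (fun x y z w => Fy f x y * G z w) := by
  classical
  set fQ : ℚ[X] := f.map (Int.castRingHom ℚ) with hfQ
  have hfQ0 : fQ ≠ 0 := hf.ne_zero
  set S : Finset ℚ[X] := (UniqueFactorizationMonoid.normalizedFactors fQ).toFinset with hS
  have hSI : ∀ p ∈ S, Irreducible p ∧ p.Monic := by
    intro p hp
    rw [hS, Multiset.mem_toFinset] at hp
    have h1 := UniqueFactorizationMonoid.irreducible_of_normalized_factor p hp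
    refine ⟨h1, ?_⟩
    rw [← UniqueFactorizationMonoid.normalize_normalized_factor p hp]
    exact monic_normalize h1.ne_zero
  have hnd := (UniqueFactorizationMonoid.squarefree_iff_nodup_normalizedFactors hfQ0).mp hf
  have hprod : ∏ p ∈ S, p = (UniqueFactorizationMonoid.normalizedFactors fQ).prod := by
    rw [hS, Finset.prod_multiset_count]
    apply Finset.prod_congr rfl
    intro p hp
    rw [Multiset.count_eq_one_of_mem hnd (Multiset.mem_toFinset.mp hp), pow_one]
  have hass : Associated (∏ p ∈ S, p) fQ := by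
    rw [hprod]; exact UniqueFactorizationMonoid.prod_normalizedFactors hfQ0
  obtain ⟨u, hu⟩ := hass
  obtain ⟨c, hc, hcu⟩ := Polynomial.isUnit_iff.mp u.isUnit
  have hc0 : c ≠ 0 := hc.ne_zero
  have hf1 : f.map (Int.castRingHom ℚ) = C c * ∏ p ∈ S, p := by
    rw [← hfQ, ← hu, ← hcu, mul_comm]
  have hdd := natDegree_of_map hc0 hf1
  refine all_aux r G h f.natDegree S.card S hSI ?_ (Finset.card_filter_le _ _) (by omega) f c
    hc0 hf1
  intro p hp
  have h1 : p ∣ ∏ p ∈ S, p := Finset.dvd_prod_of_mem (fun p => p) hp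
  have h2 : (∏ p ∈ S, p) ≠ 0 := by
    rw [Finset.prod_ne_zero_iff]
    intro q hq
    exact (hSI q hq).1.ne_zero
  have h3 := natDegree_le_of_dvd h1 h2
  omega

end Pool.Agent.Q245.Vg
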