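import Pool.Agent.Q245.Vg.Pull
import Pool.Agent.Q245.Vj.S

set_option autoImplicit false
set_option maxHeartbeats 1000000

namespace Pool.Agent.Q245.Vg

open Polynomial
open scoped Polynomial.Bivariate
open Pool.Agent.Q245.Vj

/-- the height of a point of the projective line -/
noncomputable def H (x y : ℤ) : ℝ := max |(x : ℝ)| |(y : ℝ)|

/-- the inequality with a constant -/
def Ineq (q r : ℕ) (Φ : ℤ → ℤ → ℤ → ℤ → ℤ) : Prop :=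
  ∀ ε : ℝ, 0 < ε → ∃ E : ℚ[X][Y], E ≠ 0 ∧ ∃ κ : ℝ, ∀ x y z w : ℤ, IsCoprime x y → IsCoprime z w →
    y ≠ 0 → w ≠ 0 → Φ x y z w ≠ 0 → E.evalEval ((x : ℚ) / y) ((z : ℚ) / w) ≠ 0 →
    H x y ^ ((q : ℝ) - 2 - ε) * H z w ^ ((r : ℝ) - 2 - ε) ≤ κ * rad (Φ x y z w)

/-- transfer from the cubic divisor `F' = 0` to the cubic divisor `F = 0` -/
def Tr (F' F : ℤ → ℤ → ℤ) : Prop :=
  ∃ (M : ℕ) (p q d : ℚ[X]) (D : ℤ) (c₀ C₀ : ℝ), 1 ≤ M ∧ (∀ c : ℚ, p ≠ C c * q) ∧ q ≠ 0 ∧ d ≠ 0 ∧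
    D ≠ 0 ∧ 0 < c₀ ∧ 0 < C₀ ∧ ∀ x y : ℤ, IsCoprime x y → y ≠ 0 → F x y ≠ 0 →
      d.eval ((x : ℚ) / y) ≠ 0 → q.eval ((x : ℚ) / y) ≠ 0 ∧ ∃ T W R : ℤ, W ≠ 0 ∧
        (T : ℚ) / W = p.eval ((x : ℚ) / y) / q.eval ((x : ℚ) / y) ∧
        (∀ g : ℤ, g ∣ T → g ∣ W → g ∣ D) ∧ F' T W ≠ 0 ∧ c₀ * H x y ^ M ≤ H T W ∧ R ≠ 0 ∧
        |(R : ℝ)| ≤ C₀ * H x y ^ (M - 1) ∧
        ∀ ℓ : ℕ, ℓ.Prime → (ℓ : ℤ) ∣ F' T W → (ℓ : ℤ) ∣ R * F x y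

lemma tr_reduce {F' F : ℤ → ℤ → ℤ} (hF : ∀ g t w, F' (g * t) (g * w) = g ^ 3 * F' t w)
    (h : Tr F' F) :
    ∃ (M : ℕ) (p q d : ℚ[X]) (c₀ C₀ : ℝ), 1 ≤ M ∧ (∀ c : ℚ, p ≠ C c * q) ∧ q ≠ 0 ∧ d ≠ 0 ∧
    0 < c₀ ∧ 0 < C₀ ∧ ∀ x y : ℤ, IsCoprime x y → y ≠ 0 → F x y ≠ 0 →
      d.eval ((x : ℚ) / y) ≠ 0 → q.eval ((x : ℚ) / y) ≠ 0 ∧ ∃ T W R : ℤ, IsCoprime T W ∧ W ≠ 0 ∧
        (T : ℚ) / W = p.eval ((x : ℚ) / y) / q.eval ((x : ℚ) / y) ∧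
        F' T W ≠ 0 ∧ c₀ * H x y ^ M ≤ H T W ∧ R ≠ 0 ∧
        |(R : ℝ)| ≤ C₀ * H x y ^ (M - 1) ∧
        ∀ ℓ : ℕ, ℓ.Prime → (ℓ : ℤ) ∣ F' T W → (ℓ : ℤ) ∣ R * F x y := by
  obtain ⟨M, p, q, d, D, c₀, C₀, hM, hpq, hq, hd, hD, hc, hC, h⟩ := h
  have hDR : (0 : ℝ) < |(D : ℝ)| := abs_pos.mpr (by exact_mod_cast hD)
  refine ⟨M, p, q, d, c₀ / |(D : ℝ)|, C₀, hM, hpq, hq, hd, by positivity, hC, ?_⟩
  intro x y hxy hy hFx hdx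
  obtain ⟨h1, T, W, R, hW, hTW, hg, hF', hsz, hR, hRle, hpr⟩ := h x y hxy hy hFx hdx
  refine ⟨h1, ?_⟩
  obtain ⟨g, t, w, hg0, hT, hW', hcop⟩ := exists_reduce T W (fun h => hW h.2)
  have hgR : (0 : ℝ) < g := by exact_mod_cast hg0
  have hgD : (g : ℝ) ≤ |(D : ℝ)| := by
    have hdv : g ∣ D := hg g (hT ▸ Dvd.intro _ rfl) (hW' ▸ Dvd.intro _ rfl)
    have := Int.le_of_dvd (abs_pos.mpr hD) ((dvd_abs _ _).mpr hdv)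
    exact_mod_cast this
  have hw0 : w ≠ 0 := by
    rintro rfl
    exact hW (by rw [hW', mul_zero])
  have hFe : F' T W = g ^ 3 * F' t w := by rw [hT, hW', hF]
  refine ⟨t, w, R, hcop, hw0, ?_, ?_, ?_, hR, hRle, ?_⟩
  · rw [← hTW, hT, hW']
    have h2 : (g : ℚ) ≠ 0 := by exact_mod_cast hg0.ne'
    have h3 : (w : ℚ) ≠ 0 := by exact_mod_cast hw0
    push_cast
    field_simp
  · intro h0
    apply hF'
    rw [hFe, h0, mul_zero]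
  · have e : H T W = g * H t w := by
      unfold H
      rw [hT, hW']
      push_cast
      rw [abs_mul, abs_mul, abs_of_pos hgR, mul_max_of_nonneg _ _ hgR.le]
    have h0 : 0 ≤ H t w := (abs_nonneg _).trans (le_max_left _ _)
    rw [e] at hsz
    rw [div_mul_eq_mul_div, div_le_iff₀ hDR]
    calc c₀ * H x y ^ M ≤ g * H t w := hsz
      _ ≤ |(D : ℝ)| * H t w := mul_le_mul_of_nonneg_right hgD h0
      _ = H t w * |(D : ℝ)| := mul_comm _ _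
  · intro ℓ hℓ hdv
    apply hpr ℓ hℓ
    rw [hFe]
    exact Dvd.dvd.mul_left hdv _

/-- a transfer in each of the two coordinates -/
theorem apply (F₁' F₁ F₂' F₂ : ℤ → ℤ → ℤ)
    (hF₁ : ∀ g t w, F₁' (g * t) (g * w) = g ^ 3 * F₁' t w)
    (hF₂ : ∀ g t w, F₂' (g * t) (g * w) = g ^ 3 * F₂' t w)
    (T₁ : Tr F₁' F₁) (T₂ : Tr F₂' F₂)
    (h : Ineq 3 3 (fun x y z w => F₁' x y * F₂' z w)) :
    Ineq 3 3 (fun x y z w => F₁ x y * F₂ z w) := by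
  obtain ⟨M₁, p₁, q₁, d₁, c₁, C₁, hM₁, hpq₁, hq₁, hd₁, hc₁, hC₁, h₁⟩ := tr_reduce hF₁ T₁
  obtain ⟨M₂, p₂, q₂, d₂, c₂, C₂, hM₂, hpq₂, hq₂, hd₂, hc₂, hC₂, h₂⟩ := tr_reduce hF₂ T₂
  intro ε hε
  rcases le_or_gt 1 ε with hε1 | hε1
  · -- trivial case
    refine ⟨1, one_ne_zero, 1, ?_⟩
    intro x y z w hxy hzw _ _ _ _
    have a1 : (1 : ℝ) ≤ H x y := one_le_H hxy
    have a2 : (1 : ℝ) ≤ H z w := one_le_H hzw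
    have e1 : H x y ^ (((3 : ℕ) : ℝ) - 2 - ε) ≤ 1 :=
      Real.rpow_le_one_of_one_le_of_nonpos a1 (by push_cast; linarith)
    have e2 : H z w ^ (((3 : ℕ) : ℝ) - 2 - ε) ≤ 1 :=
      Real.rpow_le_one_of_one_le_of_nonpos a2 (by push_cast; linarith)
    have e3 : (0 : ℝ) ≤ H z w ^ (((3 : ℕ) : ℝ) - 2 - ε) := Real.rpow_nonneg (by linarith) _
    calc H x y ^ (((3 : ℕ) : ℝ) - 2 - ε) * H z w ^ (((3 : ℕ) : ℝ) - 2 - ε) ≤ 1 * 1 :=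
          mul_le_mul e1 e2 e3 (by norm_num)
      _ = 1 := by norm_num
      _ ≤ 1 * rad (F₁ x y * F₂ z w) := by rw [one_mul]; exact one_le_rad _
  have hMR₁ : (1 : ℝ) ≤ M₁ := by exact_mod_cast hM₁
  have hMR₂ : (1 : ℝ) ≤ M₂ := by exact_mod_cast hM₂
  set ε' : ℝ := ε / (M₁ + M₂) with hε'
  have hMM : (0 : ℝ) < (M₁ : ℝ) + M₂ := by linarith
  have hε'0 : 0 < ε' := by positivity
  have hε'1 : ε' < 1 := by rw [hε', div_lt_one hMM]; linarith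
  have hb₁ : (M₁ : ℝ) * ε' ≤ ε := by
    rw [hε', mul_div_assoc', div_le_iff₀ hMM]; nlinarith
  have hb₂ : (M₂ : ℝ) * ε' ≤ ε := by
    rw [hε', mul_div_assoc', div_le_iff₀ hMM]; nlinarith
  obtain ⟨E, hE, κ, hκ⟩ := h ε' hε'0
  obtain ⟨E₁, hE₁, g₁⟩ := pull_inner E hE p₁ q₁ hq₁ hpq₁
  obtain ⟨E₂, hE₂, g₂⟩ := pull_outer E₁ hE₁ p₂ q₂ hq₂ hpq₂
  refine ⟨E₂ * (C d₁ * d₂.map C), ?_, |κ| * C₁ * C₂ / (c₁ ^ (1 - ε') * c₂ ^ (1 - ε')), ?_⟩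
  · refine mul_ne_zero hE₂ (mul_ne_zero (by simpa using hd₁) ?_)
    exact (Polynomial.map_ne_zero_iff (C_injective)).mpr hd₂
  intro x y z w hxy hzw hy hw hΦ hEv
  rw [evalEval_mul, evalEval_mul, evalEval_C, evalEval_map_C] at hEv
  have hv1 := left_ne_zero_of_mul hEv
  have hv2 := left_ne_zero_of_mul (right_ne_zero_of_mul hEv)
  have hv3 := right_ne_zero_of_mul (right_ne_zero_of_mul hEv)
  have hf1 : F₁ x y ≠ 0 := left_ne_zero_of_mul hΦ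
  have hf2 : F₂ z w ≠ 0 := right_ne_zero_of_mul hΦ
  obtain ⟨hq1x, t₁, w₁, R₁, hcop₁, hw₁, hr₁, hF'₁, hs₁, hR₁, hRl₁, hp₁⟩ := h₁ x y hxy hy hf1 hv2
  obtain ⟨hq2z, t₂, w₂, R₂, hcop₂, hw₂, hr₂, hF'₂, hs₂, hR₂, hRl₂, hp₂⟩ := h₂ z w hzw hw hf2 hv3
  have hE' : E.evalEval ((t₁ : ℚ) / w₁) ((t₂ : ℚ) / w₂) ≠ 0 := by
    rw [hr₁, hr₂]
    exact g₁ _ _ hq1x (g₂ _ _ hq2z hv1)
  have hmain := hκ t₁ w₁ t₂ w₂ hcop₁ hcop₂ hw₁ hw₂ (mul_ne_zero hF'₁ hF'₂) hE'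
  have a1 : (1 : ℝ) ≤ H x y := one_le_H hxy
  have a2 : (1 : ℝ) ≤ H z w := one_le_H hzw
  -- the radical
  have hrad : (rad (F₁' t₁ w₁ * F₂' t₂ w₂) : ℝ)
      ≤ (C₁ * H x y ^ (M₁ - 1)) * (C₂ * H z w ^ (M₂ - 1)) * rad (F₁ x y * F₂ z w) := by
    have e1 : rad (F₁' t₁ w₁ * F₂' t₂ w₂) ≤ rad ((R₁ * R₂) * (F₁ x y * F₂ z w)) := by
      apply rad_le_of_primes (mul_ne_zero (mul_ne_zero hR₁ hR₂) hΦ)
      intro ℓ hℓ hdv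
      rcases (Nat.prime_iff_prime_int.mp hℓ).dvd_or_dvd hdv with h | h
      · have := hp₁ ℓ hℓ h
        have e : R₁ * R₂ * (F₁ x y * F₂ z w) = (R₁ * F₁ x y) * (R₂ * F₂ z w) := by ring
        rw [e]; exact Dvd.dvd.mul_right this _
      · have := hp₂ ℓ hℓ h
        have e : R₁ * R₂ * (F₁ x y * F₂ z w) = (R₁ * F₁ x y) * (R₂ * F₂ z w) := by ring
        rw [e]; exact Dvd.dvd.mul_left this _
    have e2 : (rad (F₁' t₁ w₁ * F₂' t₂ w₂) : ℝ) ≤ rad ((R₁ * R₂) * (F₁ x y * F₂ z w)) := by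
      exact_mod_cast e1
    refine e2.trans ((rad_mul_le_abs (mul_ne_zero hR₁ hR₂)).trans ?_)
    apply mul_le_mul_of_nonneg_right _ (by positivity)
    push_cast
    rw [abs_mul]
    exact mul_le_mul hRl₁ hRl₂ (abs_nonneg _) (by positivity)
  have low : ∀ (c : ℝ) (M : ℕ) (h a : ℝ), 0 < c → 1 ≤ M → 1 ≤ h → c * h ^ M ≤ a →
      (M : ℝ) * ε' ≤ ε →
      c ^ (1 - ε') * (h ^ (((3 : ℕ) : ℝ) - 2 - ε) * h ^ (M - 1)) ≤ a ^ (((3 : ℕ) : ℝ) - 2 - ε') := by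
    intro c M h a hc hM hh ha hb
    have h0 : 0 < h := by linarith
    have e1 : (c * h ^ M) ^ (1 - ε') ≤ a ^ (1 - ε') :=
      Real.rpow_le_rpow (by positivity) ha (by linarith)
    have e0 : ((3 : ℕ) : ℝ) - 2 - ε' = 1 - ε' := by push_cast; ring
    rw [e0]
    refine le_trans ?_ e1
    rw [Real.mul_rpow hc.le (by positivity)]
    apply mul_le_mul_of_nonneg_left _ (by positivity)
    rw [← Real.rpow_natCast h (M - 1), ← Real.rpow_add h0, ← Real.rpow_natCast h M,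
      ← Real.rpow_mul h0.le]
    apply Real.rpow_le_rpow_of_exponent_le hh
    have : ((M - 1 : ℕ) : ℝ) = M - 1 := by
      rw [Nat.cast_sub hM]; simp
    rw [this]
    push_cast
    nlinarith
  have l1 := low c₁ M₁ (H x y) _ hc₁ hM₁ a1 hs₁ hb₁
  have l2 := low c₂ M₂ (H z w) _ hc₂ hM₂ a2 hs₂ hb₂
  have hy1 : 0 < H x y ^ (M₁ - 1) := by positivity
  have hz1 : 0 < H z w ^ (M₂ - 1) := by positivity
  have hcc : 0 < c₁ ^ (1 - ε') * c₂ ^ (1 - ε') := by positivity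
  rw [div_mul_eq_mul_div, le_div_iff₀ hcc]
  refine le_of_mul_le_mul_right ?_ (mul_pos hy1 hz1)
  have hx0 : 0 ≤ H x y ^ (((3 : ℕ) : ℝ) - 2 - ε) := by positivity
  have hz0 : 0 ≤ H z w ^ (((3 : ℕ) : ℝ) - 2 - ε) := by positivity
  calc H x y ^ (((3 : ℕ) : ℝ) - 2 - ε) * H z w ^ (((3 : ℕ) : ℝ) - 2 - ε) *
        (c₁ ^ (1 - ε') * c₂ ^ (1 - ε')) * (H x y ^ (M₁ - 1) * H z w ^ (M₂ - 1))
      = (c₁ ^ (1 - ε') * (H x y ^ (((3 : ℕ) : ℝ) - 2 - ε) * H x y ^ (M₁ - 1))) *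
        (c₂ ^ (1 - ε') * (H z w ^ (((3 : ℕ) : ℝ) - 2 - ε) * H z w ^ (M₂ - 1))) := by ring
    _ ≤ H t₁ w₁ ^ (((3 : ℕ) : ℝ) - 2 - ε') * H t₂ w₂ ^ (((3 : ℕ) : ℝ) - 2 - ε') :=
        mul_le_mul l1 l2 (by positivity)
          (Real.rpow_nonneg ((abs_nonneg _).trans (le_max_left _ _)) _)
    _ ≤ κ * rad (F₁' t₁ w₁ * F₂' t₂ w₂) := hmain
    _ ≤ |κ| * rad (F₁' t₁ w₁ * F₂' t₂ w₂) :=
        mul_le_mul_of_nonneg_right (le_abs_self _) (by positivity)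
    _ ≤ |κ| * ((C₁ * H x y ^ (M₁ - 1)) * (C₂ * H z w ^ (M₂ - 1)) * rad (F₁ x y * F₂ z w)) :=
        mul_le_mul_of_nonneg_left hrad (abs_nonneg _)
    _ = |κ| * C₁ * C₂ * rad (F₁ x y * F₂ z w) * (H x y ^ (M₁ - 1) * H z w ^ (M₂ - 1)) := by ring

end Pool.Agent.Q245.Vg
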