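import Pool.Agent.Q245.Vg.RatGrid

set_option autoImplicit false
set_option maxHeartbeats 1000000

namespace Pool.Agent.Q245.Vg

open Polynomial
open scoped Polynomial.Bivariate
open Pool.Agent.Q245.Vj

lemma FS_zero_one (x y : ℤ) : FS {0, 1} x y = F₀ x y := by
  unfold FS F₀ lin
  rw [Finset.prod_insert (by norm_num), Finset.prod_singleton]
  simp
  ring

/-- the main theorem -/
theorem main2 (a b c : ℤ) (j : ℕ) (m : ℤ) (a' b' c' : ℤ) (j' : ℕ) (m' : ℤ) (ha : a ≠ 0)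
    (ha' : a' ≠ 0) (hm : Odd m) (hm' : Odd m') (hd : b ^ 2 - 4 * a * c = 4 ^ j * m)
    (hd' : b' ^ 2 - 4 * a' * c' = 4 ^ j' * m') :
    (Vojta 3 3 (fun x y z w => Cj a b c x y * Cj a' b' c' z w) ↔
      ∀ S T : Finset ℚ, 2 ≤ S.card → 2 ≤ T.card →
        Vojta (S.card + 1) (T.card + 1) (fun x y z w => FS S x y * FS T z w)) ∧
    ∀ (q r : ℕ) (φ : ℤ[X][Y]), φ ≠ 0 → φ.natDegree ≤ r → (∀ j, (φ.coeff j).natDegree ≤ q) →
      Vojta (q + 3) (r + 3) (fun x y z w => Cj a b c x y * Cj a' b' c' z w *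
        biform q r φ x y z w) → Vojta 3 3 (fun x y z w => Cj a b c x y * Cj a' b' c' z w) := by
  have h0 := main a b c j m a' b' c' j' m' ha ha' hm hm' hd hd'
  refine ⟨?_, fun q r φ hφ hr hq h => h0.1.mpr (h0.2 q r φ hφ hr hq h)⟩
  rw [h0.1]
  constructor
  · intro h S T hS hT
    rw [vojta_iff] at h ⊢
    exact applyQ _ _ (by omega) (by omega) _ _ (tr_rat S hS) (tr_rat T hT) h
  · intro h
    have hc : ({0, 1} : Finset ℚ).card = 2 := by
      rw [Finset.card_pair]; norm_num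
    have h1 := h {0, 1} {0, 1} hc.ge hc.ge
    rw [hc] at h1
    have e : (fun x y z w => FS {0, 1} x y * FS {0, 1} z w)
        = (fun x y z w => F₀ x y * F₀ z w) := by
      funext x y z w
      rw [FS_zero_one, FS_zero_one]
    rw [e] at h1
    exact h1

end Pool.Agent.Q245.Vg
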