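import Pool.Agent.Q245.Vg.All

set_option autoImplicit false
set_option maxHeartbeats 1000000

namespace Pool.Agent.Q245.Vg

open Polynomial
open scoped Polynomial.Bivariate
open Pool.Agent.Q245.Vj

/-- a reduced divisor of degree `q ≥ 3` on the line: `f` is squarefree of degree `q` or `q - 1` -/
def Red (q : ℕ) (f : ℤ[X]) : Prop :=
  3 ≤ q ∧ Squarefree (f.map (Int.castRingHom ℚ)) ∧ f.natDegree ≤ q ∧ q ≤ f.natDegree + 1

lemma first_coord (r : ℕ) (G : ℤ → ℤ → ℤ) (h : Ineq 3 r (fun x y z w => F₀ x y * G z w))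
    (q : ℕ) (f : ℤ[X]) (hf : Red q f) :
    Ineq q r (fun x y z w => form q f x y * G z w) := by
  obtain ⟨hq, hsq, h1, h2⟩ := hf
  have h3 := all_squarefree r G h f hsq (by omega)
  rcases Nat.eq_or_lt_of_le h1 with h4 | h4
  · have h5 : Ineq (q + 1) r (fun x y z w => (y * form q f x y) * G z w) := by
      unfold Fy at h3
      rw [h4] at h3
      exact h3
    exact drop_y h5
  · have h5 : q = f.natDegree + 1 := by omega
    have e : (fun x y z w => form q f x y * G z w) = (fun x y z w => Fy f x y * G z w) := by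
      funext x y z w
      unfold Fy
      rw [h5, form_succ, coeff_eq_zero_of_natDegree_lt (Nat.lt_succ_self _)]
      ring
    rw [e, h5]
    exact h3

theorem all_grids (h : Ineq 3 3 (fun x y z w => F₀ x y * F₀ z w)) (q r : ℕ) (f g : ℤ[X])
    (hf : Red q f) (hg : Red r g) :
    Ineq q r (fun x y z w => form q f x y * form r g z w) := by
  have h1 := first_coord 3 F₀ h q f hf
  have h2 := ineq_swap h1
  have h3 := first_coord q (form q f) h2 r g hg
  exact ineq_swap h3

lemma red_example : Red 3 (X ^ 2 - X) := by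
  have hd : (X ^ 2 - X : ℤ[X]).natDegree = 2 := by compute_degree!
  refine ⟨le_rfl, ?_, by omega, by omega⟩
  apply Separable.squarefree
  rw [Polynomial.map_sub, Polynomial.map_pow, map_X]
  refine ⟨-4, 2 * X - 1, ?_⟩
  have h2 : (C (2 : ℚ)) = (2 : ℚ[X]) := map_ofNat C 2
  simp only [derivative_sub, derivative_pow, derivative_X]
  norm_num
  simp only [h2]
  ring

lemma form_example (x y : ℤ) : form 3 (X ^ 2 - X) x y = F₀ x y := by
  unfold form F₀
  simp only [Finset.sum_range_succ, Finset.sum_range_zero, coeff_sub, coeff_X_pow, coeff_X]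
  norm_num
  ring

/-- the main theorem -/
theorem main3 (a b c : ℤ) (j : ℕ) (m : ℤ) (a' b' c' : ℤ) (j' : ℕ) (m' : ℤ) (ha : a ≠ 0)
    (ha' : a' ≠ 0) (hm : Odd m) (hm' : Odd m') (hd : b ^ 2 - 4 * a * c = 4 ^ j * m)
    (hd' : b' ^ 2 - 4 * a' * c' = 4 ^ j' * m') :
    (Vojta 3 3 (fun x y z w => Cj a b c x y * Cj a' b' c' z w) ↔
      ∀ (q r : ℕ) (f g : ℤ[X]), Red q f → Red r g →
        Vojta q r (fun x y z w => form q f x y * form r g z w)) ∧
    ∀ (q r : ℕ) (φ : ℤ[X][Y]), φ ≠ 0 → φ.natDegree ≤ r → (∀ j, (φ.coeff j).natDegree ≤ q) →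
      Vojta (q + 3) (r + 3) (fun x y z w => Cj a b c x y * Cj a' b' c' z w *
        biform q r φ x y z w) → Vojta 3 3 (fun x y z w => Cj a b c x y * Cj a' b' c' z w) := by
  have h0 := main a b c j m a' b' c' j' m' ha ha' hm hm' hd hd'
  refine ⟨?_, fun q r φ hφ hr hq h => h0.1.mpr (h0.2 q r φ hφ hr hq h)⟩
  rw [h0.1]
  constructor
  · intro h q r f g hf hg
    rw [vojta_iff] at h ⊢
    exact all_grids h q r f g hf hg
  · intro h
    have h1 := h 3 3 (X ^ 2 - X) (X ^ 2 - X) red_example red_example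
    have e : (fun x y z w => form 3 (X ^ 2 - X) x y * form 3 (X ^ 2 - X) z w)
        = (fun x y z w => F₀ x y * F₀ z w) := by
      funext x y z w
      rw [form_example, form_example]
    rw [e] at h1
    exact h1

end Pool.Agent.Q245.Vg
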