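import Pool.Agent.Q245.Vg.Tr

set_option autoImplicit false
set_option maxHeartbeats 1000000

namespace Pool.Agent.Q245.Vg

open Polynomial
open scoped Polynomial.Bivariate
open Pool.Agent.Q245.Vj

lemma one_sub_ne : (1 - X ^ 2 : ℚ[X]) ≠ 0 := by
  intro h0
  have := congrArg (fun p : ℚ[X] => p.eval 0) h0
  simp at this

/-- case `δ (P + 1) = μ²` -/
theorem tr_pos (a b c : ℤ) (ha : a ≠ 0) (δ : ℤ) (hδdef : δ = b ^ 2 - 4 * a * c) (hδ : δ ≠ 0)
    (Q A : ℕ) (hQ : A * 2 = Q + 1) (μ : ℤ) (hμ : μ ^ 2 = δ * (Q + 2)) : Tr (Cj a b c) F₀ := by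
  have hδQ : (δ : ℚ) ≠ 0 := by exact_mod_cast hδ
  have hμ0 : μ ≠ 0 := by
    rintro rfl
    have : δ * ((Q : ℤ) + 2) ≠ 0 := mul_ne_zero hδ (by positivity)
    exact this (by simpa using hμ.symm)
  set P : ℤ := Q + 1 with hP
  have hPpos : 0 < P := by positivity
  have hμ' : μ ^ 2 = δ * (P + 1) := by rw [hμ, hP]; ring
  have hPR : (0 : ℝ) < P := by exact_mod_cast hPpos
  set m : ℤ := μ * (P + 1) ^ A with hm
  set n : ℤ := P ^ A with hn
  have hm0 : m ≠ 0 := mul_ne_zero hμ0 (by positivity)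
  have hn0 : n ≠ 0 := by positivity
  have hmQ : (m : ℚ) ≠ 0 := by exact_mod_cast hm0
  have hnQ : (n : ℚ) ≠ 0 := by exact_mod_cast hn0
  have hA : 1 ≤ A := by omega
  have hKc : (0 : ℝ) < Kc Q := by exact_mod_cast Kc_pos Q
  have hCpos : 0 < |((m * n * δ : ℤ) : ℝ)| := by
    apply abs_pos.mpr
    exact_mod_cast mul_ne_zero (mul_ne_zero hm0 hn0) hδ
  apply tr_of_first a b c ha δ hδdef hδ (Q + 2) (by omega) (C (m : ℚ) * (X * (1 - X ^ 2) ^ A))
    (C (n : ℚ)) m n hm0 hn0 ((1 / 2) ^ (Q + 2))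
    (|((m * n * δ : ℤ) : ℝ)| * 2 * (2 * ((P : ℝ) + 1)) * (Kc Q * ((P : ℝ) + 1) ^ Q))
    (by positivity) (by positivity)
  · simp
  · simpa using hnQ
  · refine mul_ne_zero (mul_ne_zero (mul_ne_zero ?_ (mul_ne_zero X_ne_zero
      (pow_ne_zero _ one_sub_ne))) ?_) ?_
    · simpa using hmQ
    · simpa using hnQ
    · intro h0
      have h1 := congrArg (fun p : ℚ[X] => p.eval 0) h0
      simp only [eval_sub, eval_mul, eval_pow, eval_C, eval_X, eval_zero, zero_mul, mul_zero] at h1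
      have : (δ : ℚ) * (n : ℚ) ^ 2 ≠ 0 := mul_ne_zero hδQ (pow_ne_zero 2 hnQ)
      apply this
      have e : (0 : ℚ) ^ 2 = 0 := by norm_num
      rw [e] at h1
      linarith
  intro x y hxy hy
  have hyQ : (y : ℚ) ≠ 0 := by exact_mod_cast hy
  set B : ℤ := y ^ 2 - x ^ 2 with hB
  refine ⟨x * B ^ A, y ^ (Q + 2), ?_, ?_, ?_, ?_, ?_⟩
  · apply IsCoprime.pow_right
    exact IsCoprime.mul_left hxy (IsCoprime.pow_left (cop_By 1 hxy))
  · simp only [eval_mul, eval_pow, eval_sub, eval_C, eval_X, eval_one]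
    have e1 : (1 - ((x : ℚ) / y) ^ 2) = (B : ℚ) / (y : ℚ) ^ 2 := by
      rw [hB]; push_cast; field_simp
    rw [e1, div_pow, ← pow_mul, mul_comm 2 A, hQ]
    push_cast
    field_simp
    ring
  · simp only [eval_C]
    push_cast
    ring
  · -- size
    have hH0 : 0 ≤ H x y := (abs_nonneg _).trans (le_H_left x y)
    rcases le_or_gt |(x : ℝ)| (2 * |(y : ℝ)|) with hc | hc
    · refine le_trans ?_ (le_H_right _ _)
      have h1 : H x y ≤ 2 * |(y : ℝ)| := max_le hc (by linarith [abs_nonneg (y : ℝ)])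
      push_cast
      rw [abs_mul, abs_pow]
      have hn1 : (1 : ℝ) ≤ |(n : ℝ)| := by exact_mod_cast Int.one_le_abs hn0
      calc (1 / 2) ^ (Q + 2) * H x y ^ (Q + 2) = (H x y / 2) ^ (Q + 2) := by
            rw [← mul_pow]; congr 1; ring
        _ ≤ |(y : ℝ)| ^ (Q + 2) := by
            apply pow_le_pow_left₀ (by positivity)
            linarith
        _ ≤ |(n : ℝ)| * |(y : ℝ)| ^ (Q + 2) := le_mul_of_one_le_left (by positivity) hn1
    · refine le_trans ?_ (le_H_left _ _)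
      have hH : H x y = |(x : ℝ)| := by
        unfold H
        apply max_eq_left
        linarith [abs_nonneg (y : ℝ)]
      have hBl : H x y ^ 2 / 2 ≤ |(B : ℝ)| := by
        have e : |(B : ℝ)| = |(y : ℝ) ^ 2 - (x : ℝ) ^ 2| := by rw [hB]; push_cast; rfl
        rw [e, hH, sq_abs, abs_sub_comm]
        refine le_trans ?_ (le_abs_self _)
        have h1 : (2 * |(y : ℝ)|) ^ 2 ≤ |(x : ℝ)| ^ 2 :=
          pow_le_pow_left₀ (by positivity) hc.le 2
        rw [mul_pow, sq_abs, sq_abs] at h1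
        nlinarith [sq_nonneg (y : ℝ)]
      have hm1 : (1 : ℝ) ≤ |(m : ℝ)| := by exact_mod_cast Int.one_le_abs hm0
      push_cast
      rw [abs_mul, abs_mul, abs_pow, ← hH]
      calc (1 / 2) ^ (Q + 2) * H x y ^ (Q + 2) ≤ (1 / 2) ^ A * H x y ^ (Q + 2) := by
            apply mul_le_mul_of_nonneg_right _ (by positivity)
            exact pow_le_pow_of_le_one (by norm_num) (by norm_num) (by omega)
        _ = H x y * (H x y ^ 2 / 2) ^ A := by
            have e3 : (H x y ^ 2 / 2) ^ A = (1 / 2) ^ A * H x y ^ (A * 2) := by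
              rw [div_eq_mul_one_div, mul_pow, ← pow_mul, mul_comm 2 A]; ring
            rw [e3, hQ]; ring
        _ ≤ H x y * |(B : ℝ)| ^ A := by
            apply mul_le_mul_of_nonneg_left _ hH0
            exact pow_le_pow_left₀ (by positivity) hBl A
        _ ≤ |(m : ℝ)| * (H x y * |(B : ℝ)| ^ A) := le_mul_of_one_le_left (by positivity) hm1
  · intro hs0 ht0 hne
    have hBA : B ^ A ≠ 0 := right_ne_zero_of_mul hs0
    have hB0 : B ≠ 0 := by
      intro h0
      exact hBA (by rw [h0]; exact zero_pow (by omega))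
    have hid := id_pos 2 A Q hQ P x y B δ μ hμ' hB
    have hS := S_id (P * y ^ 2) ((P + 1) * B) Q
    have hcast : (Q : ℤ) + 2 = P + 1 := by rw [hP]; ring
    rw [hcast, ← hP] at hS
    rw [← hS] at hid
    have hBR := abs_B_le x y
    rw [← hB] at hBR
    have hyR : (y : ℝ) ^ 2 ≤ H x y ^ 2 := by
      rw [← sq_abs (y : ℝ)]; exact pow_le_pow_left₀ (abs_nonneg _) (le_H_right x y) 2
    have e2 : (2 * (Q + 2) - 1) = 2 * (Q + 2) - 1 := rfl
    apply primes_part δ P m n x y (m * (x * B ^ A)) (n * y ^ (Q + 2)) (P * y ^ 2) ((P + 1) * B) Q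
      ((P : ℝ) + 1) (by positivity) hid hm0 hn0 hδ hPpos.ne' hB0 hne
    · push_cast
      rw [abs_of_nonneg (by positivity)]
      have : 0 ≤ (y : ℝ) ^ 2 := by positivity
      nlinarith
    · push_cast
      rw [abs_mul, abs_of_pos (by positivity : (0 : ℝ) < (P : ℝ) + 1)]
      exact mul_le_mul_of_nonneg_left hBR (by positivity)
    · intro ℓ hℓ hdv
      have hp := Nat.prime_iff_prime_int.mp hℓ
      apply hp.dvd_of_dvd_pow (n := Q + 2 + A)
      have e : (m * n * (x * y * (y ^ 2 - x ^ 2))) ^ (Q + 2 + A)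
          = (m * (x * B ^ A) * (n * y ^ (Q + 2))) *
            (m ^ (Q + 1 + A) * n ^ (Q + 1 + A) * x ^ (Q + 1 + A) * y ^ A * B ^ (Q + 2)) := by
        rw [← hB]; ring
      rw [e]; exact Dvd.dvd.mul_right hdv _

/-- case `- δ P = μ²` -/
theorem tr_neg (a b c : ℤ) (ha : a ≠ 0) (δ : ℤ) (hδdef : δ = b ^ 2 - 4 * a * c) (hδ : δ ≠ 0)
    (Q A : ℕ) (hQ : A * 2 = Q + 2) (μ : ℤ) (hμ : μ ^ 2 = -δ * (Q + 1)) : Tr (Cj a b c) F₀ := by
  have hδQ : (δ : ℚ) ≠ 0 := by exact_mod_cast hδ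
  have hμ0 : μ ≠ 0 := by
    rintro rfl
    have : -δ * ((Q : ℤ) + 1) ≠ 0 := mul_ne_zero (neg_ne_zero.mpr hδ) (by positivity)
    exact this (by simpa using hμ.symm)
  set P : ℤ := Q + 1 with hP
  have hPpos : 0 < P := by positivity
  have hPR : (0 : ℝ) < P := by exact_mod_cast hPpos
  set m : ℤ := μ * (P + 1) ^ A with hm
  set n : ℤ := P ^ A with hn
  have hm0 : m ≠ 0 := mul_ne_zero hμ0 (by positivity)
  have hn0 : n ≠ 0 := by positivity
  have hmQ : (m : ℚ) ≠ 0 := by exact_mod_cast hm0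
  have hnQ : (n : ℚ) ≠ 0 := by exact_mod_cast hn0
  have hA : 1 ≤ A := by omega
  have hKc : (0 : ℝ) < Kc Q := by exact_mod_cast Kc_pos Q
  have hCpos : 0 < |((m * n * δ : ℤ) : ℝ)| := by
    apply abs_pos.mpr
    exact_mod_cast mul_ne_zero (mul_ne_zero hm0 hn0) hδ
  apply tr_of_first a b c ha δ hδdef hδ (Q + 2) (by omega) (C (m : ℚ) * X)
    (C (n : ℚ) * (1 - X ^ 2) ^ A) m n hm0 hn0 ((1 / 2) ^ (Q + 2))
    (|((m * n * δ : ℤ) : ℝ)| * 2 * (2 * ((P : ℝ) + 1)) * (Kc Q * ((P : ℝ) + 1) ^ Q))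
    (by positivity) (by positivity)
  · simp
  · simpa using hnQ
  · refine mul_ne_zero (mul_ne_zero (mul_ne_zero ?_ X_ne_zero) (mul_ne_zero ?_
      (pow_ne_zero _ one_sub_ne))) ?_
    · simpa using hmQ
    · simpa using hnQ
    · intro h0
      have h1 := congrArg (fun p : ℚ[X] => p.eval 0) h0
      simp only [eval_sub, eval_mul, eval_pow, eval_C, eval_X, eval_zero, mul_zero, eval_one] at h1
      have : (δ : ℚ) * (n : ℚ) ^ 2 ≠ 0 := mul_ne_zero hδQ (pow_ne_zero 2 hnQ)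
      apply this
      have e : (0 : ℚ) ^ 2 = 0 := by norm_num
      rw [e, sub_zero, one_pow, mul_one] at h1
      linarith
  intro x y hxy hy
  have hyQ : (y : ℚ) ≠ 0 := by exact_mod_cast hy
  set B : ℤ := y ^ 2 - x ^ 2 with hB
  refine ⟨x * y ^ (Q + 1), B ^ A, ?_, ?_, ?_, ?_, ?_⟩
  · apply IsCoprime.pow_right
    exact IsCoprime.mul_left (cop_xB 1 hxy) (IsCoprime.pow_left (cop_By 1 hxy).symm)
  · simp only [eval_mul, eval_C, eval_X]
    push_cast
    field_simp
    ring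
  · simp only [eval_mul, eval_pow, eval_sub, eval_C, eval_X, eval_one]
    have e1 : (1 - ((x : ℚ) / y) ^ 2) = (B : ℚ) / (y : ℚ) ^ 2 := by
      rw [hB]; push_cast; field_simp
    rw [e1, div_pow, ← pow_mul, mul_comm 2 A, hQ]
    push_cast
    field_simp
  · -- size
    have hH0 : 0 ≤ H x y := (abs_nonneg _).trans (le_H_left x y)
    have hn1 : (1 : ℝ) ≤ |(n : ℝ)| := by exact_mod_cast Int.one_le_abs hn0
    have hm1 : (1 : ℝ) ≤ |(m : ℝ)| := by exact_mod_cast Int.one_le_abs hm0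
    have eB : |(B : ℝ)| = |(y : ℝ) ^ 2 - (x : ℝ) ^ 2| := by rw [hB]; push_cast; rfl
    have big : H x y ^ 2 / 2 ≤ |(B : ℝ)| →
        (1 / 2) ^ (Q + 2) * H x y ^ (Q + 2) ≤ H (m * (x * y ^ (Q + 1))) (n * B ^ A) := by
      intro hBl
      refine le_trans ?_ (le_H_right _ _)
      push_cast
      rw [abs_mul, abs_pow]
      calc (1 / 2) ^ (Q + 2) * H x y ^ (Q + 2) ≤ (1 / 2) ^ A * H x y ^ (Q + 2) := by
            apply mul_le_mul_of_nonneg_right _ (by positivity)
            exact pow_le_pow_of_le_one (by norm_num) (by norm_num) (by omega)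
        _ = (H x y ^ 2 / 2) ^ A := by
            have e3 : (H x y ^ 2 / 2) ^ A = (1 / 2) ^ A * H x y ^ (A * 2) := by
              rw [div_eq_mul_one_div, mul_pow, ← pow_mul, mul_comm 2 A]; ring
            rw [e3, hQ]
        _ ≤ |(B : ℝ)| ^ A := pow_le_pow_left₀ (by positivity) hBl A
        _ ≤ |(n : ℝ)| * |(B : ℝ)| ^ A := le_mul_of_one_le_left (by positivity) hn1
    rcases le_or_gt (2 * |(x : ℝ)|) |(y : ℝ)| with hc | hc
    · apply big
      have hH : H x y = |(y : ℝ)| := by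
        unfold H
        apply max_eq_right
        linarith [abs_nonneg (x : ℝ)]
      rw [eB, hH, sq_abs]
      refine le_trans ?_ (le_abs_self _)
      have h1 : (2 * |(x : ℝ)|) ^ 2 ≤ |(y : ℝ)| ^ 2 :=
        pow_le_pow_left₀ (by positivity) hc 2
      rw [mul_pow, sq_abs, sq_abs] at h1
      nlinarith [sq_nonneg (x : ℝ)]
    · rcases le_or_gt (2 * |(y : ℝ)|) |(x : ℝ)| with hc2 | hc2
      · apply big
        have hH : H x y = |(x : ℝ)| := by
          unfold H
          apply max_eq_left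
          linarith [abs_nonneg (y : ℝ)]
        rw [eB, hH, sq_abs, abs_sub_comm]
        refine le_trans ?_ (le_abs_self _)
        have h1 : (2 * |(y : ℝ)|) ^ 2 ≤ |(x : ℝ)| ^ 2 :=
          pow_le_pow_left₀ (by positivity) hc2 2
        rw [mul_pow, sq_abs, sq_abs] at h1
        nlinarith [sq_nonneg (y : ℝ)]
      · refine le_trans ?_ (le_H_left _ _)
        have hx2 : H x y / 2 ≤ |(x : ℝ)| := by
          have : H x y ≤ 2 * |(x : ℝ)| := max_le (by linarith [abs_nonneg (x : ℝ)]) hc.le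
          linarith
        have hy2 : H x y / 2 ≤ |(y : ℝ)| := by
          have : H x y ≤ 2 * |(y : ℝ)| := max_le hc2.le (by linarith [abs_nonneg (y : ℝ)])
          linarith
        push_cast
        rw [abs_mul, abs_mul, abs_pow]
        calc (1 / 2) ^ (Q + 2) * H x y ^ (Q + 2) = (H x y / 2) * (H x y / 2) ^ (Q + 1) := by
              rw [← pow_succ', ← mul_pow]; congr 1; ring
          _ ≤ |(x : ℝ)| * |(y : ℝ)| ^ (Q + 1) := by
              apply mul_le_mul hx2 _ (by positivity) (abs_nonneg _)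
              exact pow_le_pow_left₀ (by positivity) hy2 _
          _ ≤ |(m : ℝ)| * (|(x : ℝ)| * |(y : ℝ)| ^ (Q + 1)) :=
              le_mul_of_one_le_left (by positivity) hm1
  · intro hs0 ht0 hne
    have hB0 : B ≠ 0 := by
      intro h0
      exact ht0 (by rw [h0]; exact zero_pow (by omega))
    have hid := id_neg 2 A Q hQ P x y B δ μ hμ hB
    have hS := S_id (P * B) ((P + 1) * y ^ 2) Q
    have hcast : (Q : ℤ) + 2 = P + 1 := by rw [hP]; ring
    rw [hcast, ← hP] at hS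
    rw [← hS] at hid
    have hBR := abs_B_le x y
    rw [← hB] at hBR
    have hyR : (y : ℝ) ^ 2 ≤ H x y ^ 2 := by
      rw [← sq_abs (y : ℝ)]; exact pow_le_pow_left₀ (abs_nonneg _) (le_H_right x y) 2
    apply primes_part δ 1 m n x y (m * (x * y ^ (Q + 1))) (n * B ^ A) (P * B) ((P + 1) * y ^ 2) Q
      ((P : ℝ) + 1) (by positivity) hid hm0 hn0 hδ one_ne_zero hB0 hne
    · push_cast
      rw [abs_mul, abs_of_pos hPR]
      have h0 : 0 ≤ |(B : ℝ)| := abs_nonneg _
      nlinarith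
    · push_cast
      rw [abs_of_nonneg (by positivity)]
      exact mul_le_mul_of_nonneg_left hyR (by positivity)
    · intro ℓ hℓ hdv
      have hp := Nat.prime_iff_prime_int.mp hℓ
      apply hp.dvd_of_dvd_pow (n := Q + 1 + A)
      have e : (m * n * (x * y * (y ^ 2 - x ^ 2))) ^ (Q + 1 + A)
          = (m * (x * y ^ (Q + 1)) * (n * B ^ A)) *
            (m ^ (Q + A) * n ^ (Q + A) * x ^ (Q + A) * y ^ A * B ^ (Q + 1)) := by
        rw [← hB]; ring
      rw [e]; exact Dvd.dvd.mul_right hdv _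

/-- the transfer for every discriminant with even `2`-adic valuation -/
theorem tr_cj (a b c : ℤ) (ha : a ≠ 0) (j : ℕ) (m : ℤ) (hm : Odd m)
    (hd : b ^ 2 - 4 * a * c = 4 ^ j * m) : Tr (Cj a b c) F₀ := by
  have hm0 : m ≠ 0 := by
    rintro rfl
    simp at hm
  have hδ : b ^ 2 - 4 * a * c ≠ 0 := by
    rw [hd]; positivity
  have h4 : (4 : ℤ) ^ j = 2 ^ j * 2 ^ j := by rw [← mul_pow]; norm_num
  rcases lt_or_gt_of_ne hm0 with hneg | hpos
  · obtain ⟨i, hi⟩ := hm
    -- `-m = 2 A - 1`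
    obtain ⟨A, hA⟩ : ∃ A : ℕ, -i = A := ⟨(-i).toNat, by
      rw [Int.toNat_of_nonneg (by omega)]⟩
    have hA1 : 1 ≤ A := by omega
    apply tr_neg a b c ha _ rfl hδ (A * 2 - 2) A (by omega) (2 ^ j * m)
    have e : (((A * 2 - 2 : ℕ) : ℤ) + 1) = -m := by
      rw [Nat.cast_sub (by omega)]
      push_cast
      rw [hi]
      omega
    rw [e, hd, h4]; ring
  · -- replace `m` by `9 m`
    have h9 : Odd (9 * m) := by
      apply Odd.mul _ hm
      decide
    obtain ⟨i, hi⟩ := h9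
    obtain ⟨A, hA⟩ : ∃ A : ℕ, i = A := ⟨i.toNat, by
      rw [Int.toNat_of_nonneg (by omega)]⟩
    have hA1 : 1 ≤ A := by omega
    apply tr_pos a b c ha _ rfl hδ (A * 2 - 1) A (by omega) (2 ^ j * (3 * m))
    have e : (((A * 2 - 1 : ℕ) : ℤ) + 2) = 9 * m := by
      rw [Nat.cast_sub (by omega)]
      push_cast
      rw [hi]
      omega
    rw [e, hd, h4]; ring

end Pool.Agent.Q245.Vg
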