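import Pool.Agent.Q245.Vg.First

set_option autoImplicit false
set_option maxHeartbeats 1000000

namespace Pool.Agent.Q245.Vg

open Polynomial
open scoped Polynomial.Bivariate
open Pool.Agent.Q245.Vj

/-- the exceptions -/
noncomputable def Exc (q r : ℕ) (Φ : ℤ → ℤ → ℤ → ℤ → ℤ) (E : ℚ[X][Y]) (ε C : ℝ) :
    Set (ℤ × ℤ × ℤ × ℤ) :=
  {P | IsCoprime P.1 P.2.1 ∧ IsCoprime P.2.2.1 P.2.2.2 ∧ P.2.1 ≠ 0 ∧ P.2.2.2 ≠ 0 ∧
    Φ P.1 P.2.1 P.2.2.1 P.2.2.2 ≠ 0 ∧
    E.evalEval ((P.1 : ℚ) / P.2.1) ((P.2.2.1 : ℚ) / P.2.2.2) ≠ 0 ∧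
    Real.log (rad (Φ P.1 P.2.1 P.2.2.1 P.2.2.2)) <
      ((q : ℝ) - 2) * Real.log (H P.1 P.2.1) + ((r : ℝ) - 2) * Real.log (H P.2.2.1 P.2.2.2)
        - ε * (Real.log (H P.1 P.2.1) + Real.log (H P.2.2.1 P.2.2.2)) - C}

/-- the statement of Q1 -/
def Vojta (q r : ℕ) (Φ : ℤ → ℤ → ℤ → ℤ → ℤ) : Prop :=
  ∀ ε : ℝ, 0 < ε → ∃ E : ℚ[X][Y], E ≠ 0 ∧ ∀ C : ℝ, (Exc q r Φ E ε C).Finite

lemma vojta_iff (q r : ℕ) (Φ : ℤ → ℤ → ℤ → ℤ → ℤ) : Vojta q r Φ ↔ Ineq q r Φ := by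
  constructor
  · intro h ε hε
    obtain ⟨E, hE, hfin⟩ := h ε hε
    refine ⟨E, hE, ?_⟩
    have hf := hfin 0
    set f : ℤ × ℤ × ℤ × ℤ → ℝ := fun P =>
      H P.1 P.2.1 ^ ((q : ℝ) - 2 - ε) * H P.2.2.1 P.2.2.2 ^ ((r : ℝ) - 2 - ε) with hfdef
    have hH : ∀ x y : ℤ, 0 ≤ H x y := fun x y => (abs_nonneg _).trans (le_H_left x y)
    have hfn : ∀ P, 0 ≤ f P := fun P => mul_nonneg (Real.rpow_nonneg (hH _ _) _)
      (Real.rpow_nonneg (hH _ _) _)
    refine ⟨1 + ∑ P ∈ hf.toFinset, f P, ?_⟩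
    intro x y z w hxy hzw hy hw hΦ hEv
    have hsum : 0 ≤ ∑ P ∈ hf.toFinset, f P := Finset.sum_nonneg fun P _ => hfn P
    have hrad := one_le_rad (Φ x y z w)
    by_cases hmem : ((x, y, z, w) : ℤ × ℤ × ℤ × ℤ) ∈ Exc q r Φ E ε 0
    · have h1 : f (x, y, z, w) ≤ ∑ P ∈ hf.toFinset, f P :=
        Finset.single_le_sum (f := f) (fun P _ => hfn P) (hf.mem_toFinset.mpr hmem)
      calc H x y ^ ((q : ℝ) - 2 - ε) * H z w ^ ((r : ℝ) - 2 - ε) ≤ ∑ P ∈ hf.toFinset, f P := h1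
        _ ≤ 1 + ∑ P ∈ hf.toFinset, f P := by linarith
        _ ≤ _ := le_mul_of_one_le_right (by linarith) hrad
    · have h1 : ((q : ℝ) - 2) * Real.log (H x y) + ((r : ℝ) - 2) * Real.log (H z w)
          - ε * (Real.log (H x y) + Real.log (H z w)) - 0 ≤ Real.log (rad (Φ x y z w)) := by
        by_contra hlt
        push Not at hlt
        exact hmem ⟨hxy, hzw, hy, hw, hΦ, hEv, hlt⟩
      have a1 : (0 : ℝ) < H x y := lt_of_lt_of_le one_pos (H_pos hxy)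
      have a2 : (0 : ℝ) < H z w := lt_of_lt_of_le one_pos (H_pos hzw)
      have hr0 : (0 : ℝ) < rad (Φ x y z w) := by linarith
      have h2 : H x y ^ ((q : ℝ) - 2 - ε) * H z w ^ ((r : ℝ) - 2 - ε) ≤ rad (Φ x y z w) := by
        rw [← Real.exp_log hr0, Real.rpow_def_of_pos a1, Real.rpow_def_of_pos a2, ← Real.exp_add]
        apply Real.exp_le_exp.mpr
        linarith
      calc H x y ^ ((q : ℝ) - 2 - ε) * H z w ^ ((r : ℝ) - 2 - ε) ≤ rad (Φ x y z w) := h2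
        _ ≤ (1 + ∑ P ∈ hf.toFinset, f P) * rad (Φ x y z w) :=
            le_mul_of_one_le_left hr0.le (by linarith)
  · intro h ε hε
    obtain ⟨E, hE, κ, hκ⟩ := h (ε / 2) (by positivity)
    refine ⟨E, hE, ?_⟩
    intro C
    set κ' : ℝ := max κ 1 with hκ'
    have hκ'1 : 1 ≤ κ' := le_max_right _ _
    set B : ℝ := Real.exp (2 * (Real.log κ' - C) / ε) with hB
    set N : ℤ := ⌈B⌉ with hN
    have hBN : B ≤ N := Int.le_ceil _
    apply Set.Finite.subset ((Set.finite_Icc (-N) N).prod ((Set.finite_Icc (-N) N).prod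
      ((Set.finite_Icc (-N) N).prod (Set.finite_Icc (-N) N))))
    rintro ⟨x, y, z, w⟩ ⟨hxy, hzw, hy, hw, hΦ, hEv, hlt⟩
    simp only at hxy hzw hy hw hΦ hEv hlt
    have h1 := hκ x y z w hxy hzw hy hw hΦ hEv
    have b1 := H_pos hxy
    have b2 := H_pos hzw
    have a1 : (0 : ℝ) < H x y := by linarith
    have a2 : (0 : ℝ) < H z w := by linarith
    have hr1 := one_le_rad (Φ x y z w)
    have hr0 : (0 : ℝ) < rad (Φ x y z w) := by linarith
    have l1 : 0 ≤ Real.log (H x y) := Real.log_nonneg b1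
    have l2 : 0 ≤ Real.log (H z w) := Real.log_nonneg b2
    have h2 : H x y ^ ((q : ℝ) - 2 - ε / 2) * H z w ^ ((r : ℝ) - 2 - ε / 2)
        ≤ κ' * rad (Φ x y z w) :=
      h1.trans (mul_le_mul_of_nonneg_right (le_max_left _ _) hr0.le)
    have h3 := Real.log_le_log (by positivity) h2
    rw [Real.log_mul (by positivity) (by positivity), Real.log_mul (by positivity) (by positivity),
      Real.log_rpow a1, Real.log_rpow a2] at h3
    have h4 : ε / 2 * (Real.log (H x y) + Real.log (H z w)) < Real.log κ' - C := by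
      nlinarith
    have h5 : Real.log (H x y) + Real.log (H z w) < 2 * (Real.log κ' - C) / ε := by
      rw [lt_div_iff₀ hε]; linarith
    have c1 : H x y ≤ B := by
      rw [← Real.exp_log a1, hB]
      apply Real.exp_le_exp.mpr; linarith
    have c2 : H z w ≤ B := by
      rw [← Real.exp_log a2, hB]
      apply Real.exp_le_exp.mpr; linarith
    have key : ∀ n : ℤ, |(n : ℝ)| ≤ B → n ∈ Set.Icc (-N) N := by
      intro n hn
      have h6 : |(n : ℝ)| ≤ N := hn.trans hBN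
      have h7 : |n| ≤ N := by exact_mod_cast h6
      exact ⟨(abs_le.mp h7).1, (abs_le.mp h7).2⟩
    exact ⟨key x ((le_H_left x y).trans c1), key y ((le_H_right x y).trans c1),
      key z ((le_H_left z w).trans c2), key w ((le_H_right z w).trans c2)⟩

/-- the bihomogeneous form `∑ φ_{ij} x^i y^(q-i) z^j w^(r-j)` -/
noncomputable def biform (q r : ℕ) (φ : ℤ[X][Y]) (x y z w : ℤ) : ℤ :=
  ∑ j ∈ Finset.range (r + 1), ∑ i ∈ Finset.range (q + 1),
    (φ.coeff j).coeff i * x ^ i * y ^ (q - i) * z ^ j * w ^ (r - j)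

lemma biform_eq (q r : ℕ) (φ : ℤ[X][Y]) (hr : φ.natDegree ≤ r)
    (hq : ∀ j, (φ.coeff j).natDegree ≤ q) (x y z w : ℤ) (hy : y ≠ 0) (hw : w ≠ 0) :
    (biform q r φ x y z w : ℚ) = (y : ℚ) ^ q * (w : ℚ) ^ r *
      (φ.map (mapRingHom (Int.castRingHom ℚ))).evalEval ((x : ℚ) / y) ((z : ℚ) / w) := by
  have hyQ : (y : ℚ) ≠ 0 := by exact_mod_cast hy
  have hwQ : (w : ℚ) ≠ 0 := by exact_mod_cast hw
  have hdeg : (φ.map (mapRingHom (Int.castRingHom ℚ))).natDegree < r + 1 := by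
    have := natDegree_map_le (f := mapRingHom (Int.castRingHom ℚ)) (p := φ)
    omega
  rw [evalEval_eq_sum _ _ _ (r + 1) hdeg, Finset.mul_sum]
  unfold biform
  push_cast
  apply Finset.sum_congr rfl
  intro j hj
  have hj' : j ≤ r := by have := Finset.mem_range.mp hj; omega
  rw [coeff_map, coe_mapRingHom]
  have hdq : ((φ.coeff j).map (Int.castRingHom ℚ)).natDegree < q + 1 := by
    have := natDegree_map_le (f := Int.castRingHom ℚ) (p := φ.coeff j)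
    have := hq j
    omega
  rw [Polynomial.eval_eq_sum_range' hdq, Finset.sum_mul, Finset.mul_sum]
  apply Finset.sum_congr rfl
  intro i hi
  have hi' : i ≤ q := by have := Finset.mem_range.mp hi; omega
  rw [coeff_map]
  simp only [eq_intCast]
  have e1 : (y : ℚ) ^ q = y ^ i * y ^ (q - i) := by
    rw [← pow_add]; congr 1; omega
  have e2 : (w : ℚ) ^ r = w ^ j * w ^ (r - j) := by
    rw [← pow_add]; congr 1; omega
  rw [e1, e2, div_pow, div_pow]
  field_simp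

lemma biform_le (q r : ℕ) (φ : ℤ[X][Y]) : ∃ K : ℝ, 0 < K ∧ ∀ x y z w : ℤ,
    |(biform q r φ x y z w : ℝ)| ≤ K * (H x y ^ q * H z w ^ r) := by
  refine ⟨1 + ∑ j ∈ Finset.range (r + 1), ∑ i ∈ Finset.range (q + 1),
    |((φ.coeff j).coeff i : ℝ)|, by positivity, ?_⟩
  intro x y z w
  have hH : ∀ x y : ℤ, 0 ≤ H x y := fun x y => (abs_nonneg _).trans (le_H_left x y)
  have a1 := hH x y
  have a2 := hH z w
  have h1 : |(biform q r φ x y z w : ℝ)| ≤ ∑ j ∈ Finset.range (r + 1), ∑ i ∈ Finset.range (q + 1),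
      |((φ.coeff j).coeff i : ℝ)| * (H x y ^ q * H z w ^ r) := by
    unfold biform
    push_cast
    refine (Finset.abs_sum_le_sum_abs _ _).trans (Finset.sum_le_sum ?_)
    intro j hj
    refine (Finset.abs_sum_le_sum_abs _ _).trans (Finset.sum_le_sum ?_)
    intro i hi
    have hj' : j ≤ r := by have := Finset.mem_range.mp hj; omega
    have hi' : i ≤ q := by have := Finset.mem_range.mp hi; omega
    rw [abs_mul, abs_mul, abs_mul, abs_mul, abs_pow, abs_pow, abs_pow, abs_pow]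
    calc |((φ.coeff j).coeff i : ℝ)| * |(x : ℝ)| ^ i * |(y : ℝ)| ^ (q - i) * |(z : ℝ)| ^ j *
          |(w : ℝ)| ^ (r - j)
        ≤ |((φ.coeff j).coeff i : ℝ)| * H x y ^ i * H x y ^ (q - i) * H z w ^ j *
          H z w ^ (r - j) := by
          gcongr
          · exact le_H_left x y
          · exact le_H_right x y
          · exact le_H_left z w
          · exact le_H_right z w
      _ = |((φ.coeff j).coeff i : ℝ)| * ((H x y ^ i * H x y ^ (q - i)) *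
          (H z w ^ j * H z w ^ (r - j))) := by ring
      _ = _ := by
          rw [← pow_add, ← pow_add]
          congr 3
          · congr 1; omega
          · congr 1; omega
  refine h1.trans ?_
  simp_rw [← Finset.sum_mul]
  apply mul_le_mul_of_nonneg_right _ (by positivity)
  linarith

/-- a larger divisor -/
theorem larger (F₁ F₂ : ℤ → ℤ → ℤ) (q r : ℕ) (φ : ℤ[X][Y]) (hφ : φ ≠ 0) (hr : φ.natDegree ≤ r)
    (hq : ∀ j, (φ.coeff j).natDegree ≤ q)
    (h : Ineq (q + 3) (r + 3) (fun x y z w => F₁ x y * F₂ z w * biform q r φ x y z w)) :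
    Ineq 3 3 (fun x y z w => F₁ x y * F₂ z w) := by
  intro ε hε
  obtain ⟨E, hE, κ, hκ⟩ := h ε hε
  obtain ⟨K, hK, hKb⟩ := biform_le q r φ
  set φ' : ℚ[X][Y] := φ.map (mapRingHom (Int.castRingHom ℚ)) with hφ'
  have hφ'0 : φ' ≠ 0 := by
    rw [hφ']
    refine (Polynomial.map_ne_zero_iff ?_).mpr hφ
    exact Polynomial.map_injective _ (Int.castRingHom ℚ).injective_int
  refine ⟨E * φ', mul_ne_zero hE hφ'0, |κ| * K, ?_⟩
  intro x y z w hxy hzw hy hw hΦ hEv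
  rw [evalEval_mul] at hEv
  have hv1 := left_ne_zero_of_mul hEv
  have hv2 := right_ne_zero_of_mul hEv
  have hyQ : (y : ℚ) ≠ 0 := by exact_mod_cast hy
  have hwQ : (w : ℚ) ≠ 0 := by exact_mod_cast hw
  have hb : biform q r φ x y z w ≠ 0 := by
    have h1 := biform_eq q r φ hr hq x y z w hy hw
    intro h0
    rw [h0] at h1
    exact (mul_ne_zero (mul_ne_zero (pow_ne_zero _ hyQ) (pow_ne_zero _ hwQ)) hv2) (by
      rw [← h1]; simp)
  have h1 := hκ x y z w hxy hzw hy hw (mul_ne_zero hΦ hb) hv1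
  have a1 : (0 : ℝ) < H x y := lt_of_lt_of_le one_pos (H_pos hxy)
  have a2 : (0 : ℝ) < H z w := lt_of_lt_of_le one_pos (H_pos hzw)
  have h2 : (rad (F₁ x y * F₂ z w * biform q r φ x y z w) : ℝ)
      ≤ rad (F₁ x y * F₂ z w) * (K * (H x y ^ q * H z w ^ r)) := by
    refine (rad_mul_le' _ _).trans ?_
    apply mul_le_mul_of_nonneg_left _ (by positivity)
    exact (rad_le_abs hb).trans (hKb x y z w)
  have e1 : H x y ^ (((q + 3 : ℕ) : ℝ) - 2 - ε) = H x y ^ (((3 : ℕ) : ℝ) - 2 - ε) * H x y ^ q := by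
    rw [← Real.rpow_natCast (H x y) q, ← Real.rpow_add a1]
    congr 1; push_cast; ring
  have e2 : H z w ^ (((r + 3 : ℕ) : ℝ) - 2 - ε) = H z w ^ (((3 : ℕ) : ℝ) - 2 - ε) * H z w ^ r := by
    rw [← Real.rpow_natCast (H z w) r, ← Real.rpow_add a2]
    congr 1; push_cast; ring
  refine le_of_mul_le_mul_right ?_ (by positivity : 0 < H x y ^ q * H z w ^ r)
  calc H x y ^ (((3 : ℕ) : ℝ) - 2 - ε) * H z w ^ (((3 : ℕ) : ℝ) - 2 - ε) *
        (H x y ^ q * H z w ^ r)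
      = H x y ^ (((q + 3 : ℕ) : ℝ) - 2 - ε) * H z w ^ (((r + 3 : ℕ) : ℝ) - 2 - ε) := by
        rw [e1, e2]; ring
    _ ≤ κ * rad (F₁ x y * F₂ z w * biform q r φ x y z w) := h1
    _ ≤ |κ| * rad (F₁ x y * F₂ z w * biform q r φ x y z w) :=
        mul_le_mul_of_nonneg_right (le_abs_self _) (by positivity)
    _ ≤ |κ| * (rad (F₁ x y * F₂ z w) * (K * (H x y ^ q * H z w ^ r))) :=
        mul_le_mul_of_nonneg_left h2 (abs_nonneg _)
    _ = |κ| * K * rad (F₁ x y * F₂ z w) * (H x y ^ q * H z w ^ r) := by ring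

/-- the main theorem -/
theorem main (a b c : ℤ) (j : ℕ) (m : ℤ) (a' b' c' : ℤ) (j' : ℕ) (m' : ℤ) (ha : a ≠ 0)
    (ha' : a' ≠ 0) (hm : Odd m) (hm' : Odd m') (hd : b ^ 2 - 4 * a * c = 4 ^ j * m)
    (hd' : b' ^ 2 - 4 * a' * c' = 4 ^ j' * m') :
    (Vojta 3 3 (fun x y z w => Cj a b c x y * Cj a' b' c' z w) ↔
      Vojta 3 3 (fun x y z w => F₀ x y * F₀ z w)) ∧
    ∀ (q r : ℕ) (φ : ℤ[X][Y]), φ ≠ 0 → φ.natDegree ≤ r → (∀ j, (φ.coeff j).natDegree ≤ q) →
      Vojta (q + 3) (r + 3) (fun x y z w => Cj a b c x y * Cj a' b' c' z w *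
        biform q r φ x y z w) → Vojta 3 3 (fun x y z w => F₀ x y * F₀ z w) := by
  have hm0 : m ≠ 0 := by
    rintro rfl
    simp at hm
  have hm0' : m' ≠ 0 := by
    rintro rfl
    simp at hm'
  have hδ : b ^ 2 - 4 * a * c ≠ 0 := by rw [hd]; positivity
  have hδ' : b' ^ 2 - 4 * a' * c' ≠ 0 := by rw [hd']; positivity
  have key : Ineq 3 3 (fun x y z w => Cj a b c x y * Cj a' b' c' z w) →
      Ineq 3 3 (fun x y z w => F₀ x y * F₀ z w) :=
    apply _ _ _ _ (Cj_hom a b c) (Cj_hom a' b' c') (tr_cj a b c ha j m hm hd)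
      (tr_cj a' b' c' ha' j' m' hm' hd')
  refine ⟨?_, ?_⟩
  · rw [vojta_iff, vojta_iff]
    exact ⟨key, apply _ _ _ _ F₀_hom F₀_hom (tr_conj a b c ha hδ) (tr_conj a' b' c' ha' hδ')⟩
  · intro q r φ hφ hr hq h
    rw [vojta_iff] at h ⊢
    exact key (larger _ _ q r φ hφ hr hq h)

end Pool.Agent.Q245.Vg
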