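import Pool.Agent.Q245.Vg.Final

set_option autoImplicit false
set_option maxHeartbeats 1000000

namespace Pool.Agent.Q245.Vg

open Polynomial
open scoped Polynomial.Bivariate
open Pool.Agent.Q245.Vj

/-- transfer from the divisor `F' = 0` of degree `q'` to the divisor `F = 0` of degree `q` -/
def TrG (q' : ℕ) (F' : ℤ → ℤ → ℤ) (q : ℕ) (F : ℤ → ℤ → ℤ) : Prop :=
  ∃ (M : ℕ) (p s d : ℚ[X]) (c₀ C₀ : ℝ), 1 ≤ M ∧ (∀ c : ℚ, p ≠ C c * s) ∧ s ≠ 0 ∧ d ≠ 0 ∧
    0 < c₀ ∧ 0 < C₀ ∧ ∀ x y : ℤ, IsCoprime x y → y ≠ 0 → F x y ≠ 0 →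
      d.eval ((x : ℚ) / y) ≠ 0 → s.eval ((x : ℚ) / y) ≠ 0 ∧ ∃ T W R : ℤ, IsCoprime T W ∧ W ≠ 0 ∧
        (T : ℚ) / W = p.eval ((x : ℚ) / y) / s.eval ((x : ℚ) / y) ∧
        F' T W ≠ 0 ∧ c₀ * H x y ^ M ≤ H T W ∧ R ≠ 0 ∧
        |(R : ℝ)| * H x y ^ (q - 2) ≤ C₀ * H x y ^ (M * (q' - 2)) ∧
        ∀ ℓ : ℕ, ℓ.Prime → (ℓ : ℤ) ∣ F' T W → (ℓ : ℤ) ∣ R * F x y

/-- a transfer in the first coordinate -/
theorem applyG (q' q r : ℕ) (hq' : 3 ≤ q') (hq : 2 ≤ q) (F' F G : ℤ → ℤ → ℤ)
    (T : TrG q' F' q F) (h : Ineq q' r (fun x y z w => F' x y * G z w)) :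
    Ineq q r (fun x y z w => F x y * G z w) := by
  obtain ⟨M, p, s, d, c₀, C₀, hM, hps, hs, hd, hc₀, hC₀, hT⟩ := T
  apply ineq_of_small
  intro ε hε hε1
  have hMR : (1 : ℝ) ≤ M := by exact_mod_cast hM
  set ε' : ℝ := ε / M with hε'
  have hε'0 : 0 < ε' := by positivity
  have hMε : (M : ℝ) * ε' = ε := by rw [hε']; field_simp
  have hε'ε : ε' ≤ ε := by rw [hε']; exact div_le_self hε.le hMR
  obtain ⟨E, hE, κ, hκ⟩ := h ε' hε'0
  obtain ⟨E₁, hE₁, g₁⟩ := pull_inner E hE p s hs hps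
  have hqR : (3 : ℝ) ≤ q' := by exact_mod_cast hq'
  have he₁ : 0 < (q' : ℝ) - 2 - ε' := by linarith
  refine ⟨E₁ * C d, mul_ne_zero hE₁ (by simpa using hd),
    |κ| * C₀ / c₀ ^ ((q' : ℝ) - 2 - ε'), ?_⟩
  intro x y z w hxy hzw hy hw hΦ hEv
  rw [evalEval_mul, evalEval_C] at hEv
  have hv1 := left_ne_zero_of_mul hEv
  have hv2 := right_ne_zero_of_mul hEv
  have hf1 : F x y ≠ 0 := left_ne_zero_of_mul hΦ
  have hf2 : G z w ≠ 0 := right_ne_zero_of_mul hΦ
  obtain ⟨hsx, t, v, R, hcop, hv0, hr, hF', hsz, hR, hRl, hpr⟩ := hT x y hxy hy hf1 hv2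
  have hE' : E.evalEval ((t : ℚ) / v) ((z : ℚ) / w) ≠ 0 := by
    rw [hr]
    exact g₁ _ _ hsx hv1
  have hmain := hκ t v z w hcop hzw hv0 hw (mul_ne_zero hF' hf2) hE'
  have a1 : (1 : ℝ) ≤ H x y := one_le_H hxy
  have a2 : (1 : ℝ) ≤ H z w := one_le_H hzw
  have a0 : 0 < H x y := by linarith
  have hrad : (rad (F' t v * G z w) : ℝ) ≤ |(R : ℝ)| * rad (F x y * G z w) := by
    have e1 : rad (F' t v * G z w) ≤ rad (R * (F x y * G z w)) := by
      apply rad_le_of_primes (mul_ne_zero hR hΦ)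
      intro ℓ hℓ hdv
      rcases (Nat.prime_iff_prime_int.mp hℓ).dvd_or_dvd hdv with h | h
      · have := hpr ℓ hℓ h
        rw [← mul_assoc]; exact Dvd.dvd.mul_right this _
      · rw [← mul_assoc]; exact Dvd.dvd.mul_left h _
    have e2 : (rad (F' t v * G z w) : ℝ) ≤ rad (R * (F x y * G z w)) := by
      exact_mod_cast e1
    exact e2.trans (rad_mul_le_abs hR)
  have low : c₀ ^ ((q' : ℝ) - 2 - ε') * (H x y ^ ((q : ℝ) - 2 - ε) * H x y ^ (M * (q' - 2)))
      ≤ H t v ^ ((q' : ℝ) - 2 - ε') * H x y ^ (q - 2) := by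
    have e1 : (c₀ * H x y ^ M) ^ ((q' : ℝ) - 2 - ε') ≤ H t v ^ ((q' : ℝ) - 2 - ε') :=
      Real.rpow_le_rpow (by positivity) hsz he₁.le
    refine le_trans (le_of_eq ?_) (mul_le_mul_of_nonneg_right e1 (by positivity))
    rw [Real.mul_rpow hc₀.le (by positivity), mul_assoc]
    congr 1
    rw [← Real.rpow_natCast (H x y) (q - 2), ← Real.rpow_natCast (H x y) M,
      ← Real.rpow_natCast (H x y) (M * (q' - 2)),
      ← Real.rpow_add a0, ← Real.rpow_mul a0.le, ← Real.rpow_add a0]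
    congr 1
    have h1 : ((q - 2 : ℕ) : ℝ) = q - 2 := by
      rw [Nat.cast_sub hq]; norm_num
    have h2 : ((M * (q' - 2) : ℕ) : ℝ) = M * (q' - 2) := by
      rw [Nat.cast_mul, Nat.cast_sub (by omega)]; norm_num
    rw [h1, h2, ← hMε]
    ring
  have hz : H z w ^ ((r : ℝ) - 2 - ε) ≤ H z w ^ ((r : ℝ) - 2 - ε') :=
    Real.rpow_le_rpow_of_exponent_le a2 (by linarith)
  have hz0 : 0 ≤ H z w ^ ((r : ℝ) - 2 - ε) := by positivity
  have hT0 : 0 ≤ H t v := (abs_nonneg _).trans (le_max_left _ _)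
  have hcc : 0 < c₀ ^ ((q' : ℝ) - 2 - ε') := by positivity
  have hy1 : 0 < H x y ^ (M * (q' - 2)) := by positivity
  rw [div_mul_eq_mul_div, le_div_iff₀ hcc]
  refine le_of_mul_le_mul_right ?_ hy1
  calc H x y ^ ((q : ℝ) - 2 - ε) * H z w ^ ((r : ℝ) - 2 - ε) * c₀ ^ ((q' : ℝ) - 2 - ε') *
        H x y ^ (M * (q' - 2))
      = (c₀ ^ ((q' : ℝ) - 2 - ε') * (H x y ^ ((q : ℝ) - 2 - ε) * H x y ^ (M * (q' - 2)))) *
        H z w ^ ((r : ℝ) - 2 - ε) := by ring
    _ ≤ (H t v ^ ((q' : ℝ) - 2 - ε') * H x y ^ (q - 2)) * H z w ^ ((r : ℝ) - 2 - ε') :=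
        mul_le_mul low hz hz0 (mul_nonneg (Real.rpow_nonneg hT0 _) (by positivity))
    _ = (H t v ^ ((q' : ℝ) - 2 - ε') * H z w ^ ((r : ℝ) - 2 - ε')) * H x y ^ (q - 2) := by ring
    _ ≤ (κ * rad (F' t v * G z w)) * H x y ^ (q - 2) :=
        mul_le_mul_of_nonneg_right hmain (by positivity)
    _ ≤ (|κ| * (|(R : ℝ)| * rad (F x y * G z w))) * H x y ^ (q - 2) := by
        apply mul_le_mul_of_nonneg_right _ (by positivity)
        calc κ * rad (F' t v * G z w) ≤ |κ| * rad (F' t v * G z w) :=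
              mul_le_mul_of_nonneg_right (le_abs_self _) (by positivity)
          _ ≤ _ := mul_le_mul_of_nonneg_left hrad (abs_nonneg _)
    _ = |κ| * rad (F x y * G z w) * (|(R : ℝ)| * H x y ^ (q - 2)) := by ring
    _ ≤ |κ| * rad (F x y * G z w) * (C₀ * H x y ^ (M * (q' - 2))) :=
        mul_le_mul_of_nonneg_left hRl (by positivity)
    _ = |κ| * C₀ * rad (F x y * G z w) * H x y ^ (M * (q' - 2)) := by ring

/-- the two coordinates may be interchanged -/
lemma ineq_swap {q r : ℕ} {F G : ℤ → ℤ → ℤ} (h : Ineq q r (fun x y z w => F x y * G z w)) :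
    Ineq r q (fun x y z w => G x y * F z w) := by
  intro ε hε
  obtain ⟨E, hE, κ, hκ⟩ := h ε hε
  refine ⟨Bivariate.swap E, by simpa using hE, κ, ?_⟩
  intro x y z w hxy hzw hy hw hΦ hEv
  rw [evalEval_swap] at hEv
  simp only at hΦ ⊢
  have h1 := hκ z w x y hzw hxy hw hy (by simp only; rw [mul_comm]; exact hΦ) hEv
  simp only at h1
  rw [mul_comm (H x y ^ _), mul_comm (G x y)]
  exact h1

/-- the form with the zeros `∞` and the zeros of `f` -/
noncomputable def Fy (f : ℤ[X]) (x y : ℤ) : ℤ := y * form f.natDegree f x y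

lemma form_hom (r : ℕ) (f : ℤ[X]) (h x y : ℤ) : form r f (h * x) (h * y) = h ^ r * form r f x y := by
  unfold form
  rw [Finset.mul_sum]
  apply Finset.sum_congr rfl
  intro i hi
  have hi' : i ≤ r := by
    have := Finset.mem_range.mp hi; omega
  have e : h ^ r = h ^ i * h ^ (r - i) := by
    rw [← pow_add]; congr 1; omega
  rw [mul_pow, mul_pow, e]
  ring

lemma form_succ (r : ℕ) (f : ℤ[X]) (x y : ℤ) :
    form (r + 1) f x y = f.coeff (r + 1) * x ^ (r + 1) + y * form r f x y := by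
  unfold form
  rw [Finset.sum_range_succ, Nat.sub_self, pow_zero, mul_one, Finset.mul_sum, add_comm]
  congr 1
  apply Finset.sum_congr rfl
  intro i hi
  have := Finset.mem_range.mp hi
  have e : r + 1 - i = (r - i) + 1 := by omega
  rw [e, pow_succ]
  ring

/-- the transfer defined by a polynomial `g` -/
theorem tr_poly (f f' g R v : ℤ[X]) (e : ℤ) (N : ℕ) (he : e ≠ 0) (hf : 1 ≤ f.natDegree)
    (hf' : 1 ≤ f'.natDegree) (hg : 1 ≤ g.natDegree) (hR : R ≠ 0)
    (hid : C e * (R * f) ^ N = (f'.comp g) * v)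
    (hdeg : R.natDegree + f.natDegree ≤ g.natDegree * (f'.natDegree - 1) + 1) :
    TrG (f'.natDegree + 1) (Fy f') (f.natDegree + 1) (Fy f) := by
  set n := g.natDegree with hn
  set k := f.natDegree with hk
  set k' := f'.natDegree with hk'
  set ρ := R.natDegree with hρ
  set gQ : ℚ[X] := g.map (Int.castRingHom ℚ) with hgQ
  set RQ : ℚ[X] := R.map (Int.castRingHom ℚ) with hRQ
  set fQ : ℚ[X] := f'.map (Int.castRingHom ℚ) with hfQ
  have hinj := (Int.castRingHom ℚ).injective_int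
  have hgQn : gQ.natDegree = n := natDegree_map_eq_of_injective hinj g
  have hRQ0 : RQ ≠ 0 := (Polynomial.map_ne_zero_iff hinj).mpr hR
  have hf'0 : f' ≠ 0 := by
    rintro rfl
    simp at hk'
    omega
  have hfQ0 : fQ ≠ 0 := (Polynomial.map_ne_zero_iff hinj).mpr hf'0
  have hcomp0 : fQ.comp gQ ≠ 0 := by
    intro h0
    rcases comp_eq_zero_iff.mp h0 with h | h
    · exact hfQ0 h
    · have h2 := congrArg natDegree h.2
      rw [natDegree_C, hgQn] at h2
      omega
  set lc : ℤ := g.leadingCoeff with hlc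
  have hlc0 : lc ≠ 0 := by
    rw [hlc]; apply leadingCoeff_ne_zero.mpr
    rintro rfl
    simp at hn
    omega
  have hlcR : (1 : ℝ) ≤ |(lc : ℝ)| := by exact_mod_cast Int.one_le_abs hlc0
  have heR : (1 : ℝ) ≤ |(e : ℝ)| := by exact_mod_cast Int.one_le_abs he
  obtain ⟨K, hK, hKb⟩ := form_le ρ R
  obtain ⟨K₂, hK₂, hKb₂⟩ := form_le (n - 1) g
  -- size constant
  refine ⟨n, gQ, 1, RQ * (fQ.comp gQ), (1 / (2 * (1 + K₂))) ^ n / |(lc : ℝ)| ^ n,
    |(e : ℝ)| * K, hg, ?_, one_ne_zero, mul_ne_zero hRQ0 hcomp0, by positivity, by positivity, ?_⟩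
  · intro c hc
    rw [mul_one] at hc
    have h2 := congrArg natDegree hc
    rw [natDegree_C, hgQn] at h2
    omega
  intro x y hxy hy hF hd
  have hyQ : (y : ℚ) ≠ 0 := by exact_mod_cast hy
  have hH1 : 1 ≤ H x y := H_pos hxy
  have hH0 : 0 < H x y := by linarith
  rw [eval_mul, eval_comp] at hd
  have hRx := left_ne_zero_of_mul hd
  have hfx := right_ne_zero_of_mul hd
  set T₀ : ℤ := form n g x y with hT₀
  have hT₀Q : (T₀ : ℚ) = (y : ℚ) ^ n * gQ.eval ((x : ℚ) / y) := form_eq n g le_rfl x y hy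
  have hRform : (form ρ R x y : ℚ) = (y : ℚ) ^ ρ * RQ.eval ((x : ℚ) / y) :=
    form_eq ρ R le_rfl x y hy
  have hR0 : form ρ R x y ≠ 0 := by
    intro h0
    rw [h0] at hRform
    exact (mul_ne_zero (pow_ne_zero _ hyQ) hRx) (by rw [← hRform]; simp)
  have hyn : y ^ n ≠ 0 := pow_ne_zero _ hy
  have hf'T : (form k' f' T₀ (y ^ n) : ℚ) = ((y : ℚ) ^ n) ^ k' *
      fQ.eval (gQ.eval ((x : ℚ) / y)) := by
    rw [form_eq k' f' le_rfl T₀ (y ^ n) hyn, hT₀Q]
    push_cast
    rw [mul_div_cancel_left₀ _ (pow_ne_zero n hyQ)]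
  have hf'T0 : form k' f' T₀ (y ^ n) ≠ 0 := by
    intro h0
    rw [h0] at hf'T
    exact (mul_ne_zero (pow_ne_zero _ (pow_ne_zero _ hyQ)) hfx) (by rw [← hf'T]; simp)
  have hT₀e : T₀ = lc * x ^ n + y * form (n - 1) g x y := by
    obtain ⟨n', hn'⟩ : ∃ n', n = n' + 1 := ⟨n - 1, by omega⟩
    have hco : g.coeff n = lc := by rw [hlc, hn]; rfl
    have hn1 : n - 1 = n' := by omega
    rw [hn1, hT₀]
    conv_lhs => rw [hn', form_succ, ← hn', hco]
  -- the greatest common divisor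
  have hgcd : ∀ h : ℤ, h ∣ T₀ → h ∣ y ^ n → h ∣ lc ^ n := by
    intro h h1 h2
    set t : ℤ := form (n - 1) g x y with ht
    have h3 : h ∣ (lc * x ^ n) ^ n - (-(y * t)) ^ n := by
      have h4 := sub_dvd_pow_sub_pow (lc * x ^ n) (-(y * t)) n
      have e1 : lc * x ^ n - -(y * t) = T₀ := by rw [hT₀e]; ring
      rw [e1] at h4
      exact h1.trans h4
    have h5 : h ∣ (-(y * t)) ^ n := by
      have e1 : (-(y * t)) ^ n = y ^ n * (-t) ^ n := by rw [← mul_pow]; congr 1; ring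
      rw [e1]; exact Dvd.dvd.mul_right h2 _
    have h6 : h ∣ (lc * x ^ n) ^ n := by
      have := dvd_add h3 h5
      rwa [sub_add_cancel] at this
    have h7 : h ∣ lc ^ n * x ^ (n * n) := by
      have e1 : lc ^ n * x ^ (n * n) = (lc * x ^ n) ^ n := by rw [mul_pow, ← pow_mul]
      rw [e1]; exact h6
    obtain ⟨α, β, hαβ⟩ := IsCoprime.pow (m := n * n) (n := n) hxy
    have e2 : lc ^ n = α * (lc ^ n * x ^ (n * n)) + (β * lc ^ n) * y ^ n := by
      linear_combination (-(lc ^ n)) * hαβ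
    rw [e2]
    exact dvd_add (Dvd.dvd.mul_left h7 _) (Dvd.dvd.mul_left h2 _)
  obtain ⟨h, t, v', hh, hTt, hyv, hcop⟩ := exists_reduce T₀ (y ^ n) (fun h => hyn h.2)
  have hhR : (0 : ℝ) < h := by exact_mod_cast hh
  have hhle : (h : ℝ) ≤ |(lc : ℝ)| ^ n := by
    have hdv : h ∣ lc ^ n := hgcd h (hTt ▸ Dvd.intro _ rfl) (hyv ▸ Dvd.intro _ rfl)
    have := Int.le_of_dvd (abs_pos.mpr (pow_ne_zero n hlc0)) ((dvd_abs _ _).mpr hdv)
    rw [abs_pow] at this
    exact_mod_cast this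
  have hv0 : v' ≠ 0 := by
    rintro rfl
    exact hyn (by rw [hyv, mul_zero])
  have hform : form k' f' T₀ (y ^ n) = h ^ k' * form k' f' t v' := by
    rw [hTt, hyv, form_hom]
  have hft0 : form k' f' t v' ≠ 0 := by
    intro h0
    apply hf'T0
    rw [hform, h0, mul_zero]
  refine ⟨by simp, t, v', e * form ρ R x y, hcop, hv0, ?_, ?_, ?_, mul_ne_zero he hR0, ?_, ?_⟩
  · have h1 : (t : ℚ) / v' = (T₀ : ℚ) / ((y ^ n : ℤ) : ℚ) := by
      rw [hTt, hyv]
      have h2 : (h : ℚ) ≠ 0 := by exact_mod_cast hh.ne'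
      have h3 : (v' : ℚ) ≠ 0 := by exact_mod_cast hv0
      push_cast
      field_simp
    rw [h1, hT₀Q, eval_one, div_one]
    push_cast
    rw [mul_div_cancel_left₀ _ (pow_ne_zero n hyQ)]
  · unfold Fy
    rw [← hk']
    exact mul_ne_zero hv0 hft0
  · -- size
    have hbig : (1 / (2 * (1 + K₂))) ^ n * H x y ^ n ≤ H T₀ (y ^ n) := by
      rcases le_or_gt (H x y) (2 * (1 + K₂) * |(y : ℝ)|) with hc | hc
      · refine le_trans ?_ (le_H_right _ _)
        push_cast
        rw [← mul_pow, abs_pow]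
        apply pow_le_pow_left₀ (by positivity)
        rw [div_mul_eq_mul_div, one_mul, div_le_iff₀ (by positivity)]
        linarith
      · refine le_trans ?_ (le_H_left _ _)
        have hyx : |(y : ℝ)| < H x y := by
          have : |(y : ℝ)| ≤ 2 * (1 + K₂) * |(y : ℝ)| := by
            apply le_mul_of_one_le_left (abs_nonneg _); linarith
          linarith
        have hHx : H x y = |(x : ℝ)| := by
          unfold H
          rcases max_choice |(x : ℝ)| |(y : ℝ)| with h | h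
          · exact h
          · exfalso
            unfold H at hyx
            rw [h] at hyx
            exact lt_irrefl _ hyx
        have h1 := hKb₂ x y
        have h2 : H x y ^ n ≤ |(lc : ℝ) * (x : ℝ) ^ n| := by
          rw [abs_mul, abs_pow, ← hHx]
          exact le_mul_of_one_le_left (by positivity) hlcR
        have hHn : H x y ^ n = H x y * H x y ^ (n - 1) := by
          rw [← pow_succ']; congr 1; omega
        have h3 : |(y : ℝ) * (form (n - 1) g x y : ℝ)| ≤ H x y ^ n / 2 := by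
          rw [abs_mul]
          have h4 : |(y : ℝ)| ≤ H x y / (2 * (1 + K₂)) := by
            rw [le_div_iff₀ (by positivity)]; linarith
          calc |(y : ℝ)| * |(form (n - 1) g x y : ℝ)|
              ≤ (H x y / (2 * (1 + K₂))) * (K₂ * H x y ^ (n - 1)) :=
                mul_le_mul h4 h1 (abs_nonneg _) (by positivity)
            _ = (K₂ / (1 + K₂)) * ((H x y * H x y ^ (n - 1)) / 2) := by
                field_simp
            _ ≤ 1 * ((H x y * H x y ^ (n - 1)) / 2) := by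
                apply mul_le_mul_of_nonneg_right _ (by positivity)
                rw [div_le_one (by positivity)]; linarith
            _ = H x y ^ n / 2 := by rw [hHn, one_mul]
        have h5 : (T₀ : ℝ) = (lc : ℝ) * (x : ℝ) ^ n + (y : ℝ) * (form (n - 1) g x y : ℝ) := by
          rw [hT₀e]; push_cast; ring
        have h6 : H x y ^ n / 2 ≤ |(T₀ : ℝ)| := by
          rw [h5]
          have h7 : |(lc : ℝ) * (x : ℝ) ^ n| ≤ |(lc : ℝ) * (x : ℝ) ^ n +
              (y : ℝ) * (form (n - 1) g x y : ℝ)| + |(y : ℝ) * (form (n - 1) g x y : ℝ)| := by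
            have := abs_sub ((lc : ℝ) * (x : ℝ) ^ n + (y : ℝ) * (form (n - 1) g x y : ℝ))
              ((y : ℝ) * (form (n - 1) g x y : ℝ))
            rwa [add_sub_cancel_right] at this
          linarith
        refine le_trans ?_ h6
        have h8 : (1 / (2 * (1 + K₂))) ^ n ≤ 1 / 2 := by
          calc (1 / (2 * (1 + K₂))) ^ n ≤ (1 / (2 * (1 + K₂))) ^ 1 := by
                apply pow_le_pow_of_le_one (by positivity) _ hg
                rw [div_le_one (by positivity)]; linarith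
            _ ≤ 1 / 2 := by
                rw [pow_one]
                apply one_div_le_one_div_of_le (by norm_num); linarith
        calc (1 / (2 * (1 + K₂))) ^ n * H x y ^ n ≤ 1 / 2 * H x y ^ n :=
              mul_le_mul_of_nonneg_right h8 (by positivity)
          _ = H x y ^ n / 2 := by ring
    have e1 : H T₀ (y ^ n) = h * H t v' := by
      unfold H
      rw [hTt, hyv]
      push_cast
      rw [abs_mul, abs_mul, abs_of_pos hhR, mul_max_of_nonneg _ _ hhR.le]
    have h0 : 0 ≤ H t v' := (abs_nonneg _).trans (le_max_left _ _)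
    rw [e1] at hbig
    rw [div_mul_eq_mul_div, div_le_iff₀ (by positivity)]
    calc (1 / (2 * (1 + K₂))) ^ n * H x y ^ n ≤ h * H t v' := hbig
      _ ≤ |(lc : ℝ)| ^ n * H t v' := mul_le_mul_of_nonneg_right hhle h0
      _ = H t v' * |(lc : ℝ)| ^ n := mul_comm _ _
  · push_cast
    rw [abs_mul]
    have h1 := hKb x y
    calc |(e : ℝ)| * |(form ρ R x y : ℝ)| * H x y ^ (k + 1 - 2)
        ≤ |(e : ℝ)| * (K * H x y ^ ρ) * H x y ^ (k + 1 - 2) := by gcongr
      _ = |(e : ℝ)| * K * H x y ^ (ρ + (k + 1 - 2)) := by rw [pow_add]; ring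
      _ ≤ |(e : ℝ)| * K * H x y ^ (n * (k' + 1 - 2)) := by
          apply mul_le_mul_of_nonneg_left _ (by positivity)
          apply pow_le_pow_right₀ hH1
          have e2 : k' + 1 - 2 = k' - 1 := by omega
          rw [e2]; omega
  · intro ℓ hℓ hdv
    have hp := Nat.prime_iff_prime_int.mp hℓ
    have hyF : (ℓ : ℤ) ∣ y → (ℓ : ℤ) ∣ e * form ρ R x y * Fy f x y := by
      intro h1
      unfold Fy
      exact Dvd.dvd.mul_left (Dvd.dvd.mul_right h1 _) _
    unfold Fy at hdv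
    rw [← hk'] at hdv
    rcases hp.dvd_or_dvd hdv with h1 | h1
    · apply hyF
      apply hp.dvd_of_dvd_pow (n := n)
      rw [hyv]; exact Dvd.dvd.mul_left h1 _
    · have h2 : (ℓ : ℤ) ∣ form k' f' T₀ (y ^ n) := by
        rw [hform]; exact Dvd.dvd.mul_left h1 _
      set ν := v.natDegree with hν
      have hvQ := form_eq ν v le_rfl x y hy
      have hfQ' := form_eq k f le_rfl x y hy
      have hidQ : (e : ℚ) * (RQ.eval ((x : ℚ) / y) *
          (f.map (Int.castRingHom ℚ)).eval ((x : ℚ) / y)) ^ N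
          = fQ.eval (gQ.eval ((x : ℚ) / y)) * (v.map (Int.castRingHom ℚ)).eval ((x : ℚ) / y) := by
        have h3 := congrArg (fun p : ℤ[X] => (p.map (Int.castRingHom ℚ)).eval ((x : ℚ) / y)) hid
        simp only [Polynomial.map_mul, Polynomial.map_pow, Polynomial.map_comp, eval_mul, eval_pow,
          eval_comp, map_C, eval_C, eq_intCast, Polynomial.map_intCast, eval_intCast] at h3
        exact h3
      have key : e * (form ρ R x y * form k f x y) ^ N * y ^ (ν + n * k')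
          = y ^ ((ρ + k) * N) * form k' f' T₀ (y ^ n) * form ν v x y := by
        have h4 : ((e * (form ρ R x y * form k f x y) ^ N * y ^ (ν + n * k') : ℤ) : ℚ)
            = ((y ^ ((ρ + k) * N) * form k' f' T₀ (y ^ n) * form ν v x y : ℤ) : ℚ) := by
          push_cast
          rw [hRform, hfQ', hf'T, hvQ]
          calc (e : ℚ) * ((y : ℚ) ^ ρ * eval ((x : ℚ) / y) RQ * ((y : ℚ) ^ k *
                eval ((x : ℚ) / y) (f.map (Int.castRingHom ℚ)))) ^ N * (y : ℚ) ^ (ν + n * k')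
              = ((e : ℚ) * (eval ((x : ℚ) / y) RQ *
                eval ((x : ℚ) / y) (f.map (Int.castRingHom ℚ))) ^ N) *
                ((y : ℚ) ^ ((ρ + k) * N) * (y : ℚ) ^ (ν + n * k')) := by
                rw [show (y : ℚ) ^ ρ * eval ((x : ℚ) / y) RQ * ((y : ℚ) ^ k *
                  eval ((x : ℚ) / y) (f.map (Int.castRingHom ℚ)))
                  = (y : ℚ) ^ (ρ + k) * (eval ((x : ℚ) / y) RQ *
                  eval ((x : ℚ) / y) (f.map (Int.castRingHom ℚ))) by rw [pow_add]; ring,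
                  mul_pow ((y : ℚ) ^ (ρ + k)), ← pow_mul]
                ring
            _ = _ := by
                rw [hidQ, pow_add (y : ℚ) ν, pow_mul (y : ℚ) n k']
                ring
        exact_mod_cast h4
      have h5 : (ℓ : ℤ) ∣ e * (form ρ R x y * form k f x y) ^ N * y ^ (ν + n * k') := by
        rw [key]
        exact Dvd.dvd.mul_right (Dvd.dvd.mul_left h2 _) _
      rcases hp.dvd_or_dvd h5 with h6 | h6
      · rcases hp.dvd_or_dvd h6 with h7 | h7
        · exact Dvd.dvd.mul_right (Dvd.dvd.mul_right h7 _) _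
        · have h8 := hp.dvd_of_dvd_pow h7
          unfold Fy
          rw [← hk]
          have e3 : e * form ρ R x y * (y * form k f x y)
              = (form ρ R x y * form k f x y) * (e * y) := by ring
          rw [e3]; exact Dvd.dvd.mul_right h8 _
      · exact hyF (hp.dvd_of_dvd_pow h6)

end Pool.Agent.Q245.Vg
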