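import Mathlib

set_option autoImplicit false
set_option maxHeartbeats 1000000

namespace Pool.Agent.Q245.Vg

open Polynomial

lemma weights (S : Finset ℚ) (hS : 2 ≤ S.card) : ∃ (n : ℚ → ℤ) (N : ℤ), N ≠ 0 ∧
    (∀ a ∈ S, n a ≠ 0) ∧
    ∑ a ∈ S, C (n a : ℚ) * ∏ b ∈ S.erase a, (X - C b) = C (N : ℚ) ∧ ∑ a ∈ S, n a = 0 := by
  classical
  set w : ℚ → ℚ := fun a => Lagrange.nodalWeight S id a with hw
  have hinj : Set.InjOn (id : ℚ → ℚ) S := Function.injective_id.injOn
  have hne : S.Nonempty := Finset.card_pos.mp (by omega)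
  set n : ℚ → ℤ := fun a => (w a).num * ∏ b ∈ S.erase a, ((w b).den : ℤ) with hn
  set N : ℤ := ∏ b ∈ S, ((w b).den : ℤ) with hN
  have hnw : ∀ a ∈ S, (n a : ℚ) = N * w a := by
    intro a ha
    rw [hn, hN]
    simp only
    rw [← Finset.mul_prod_erase S _ ha]
    push_cast
    have h1 : (w a) * (w a).den = (w a).num := Rat.mul_den_eq_num _
    rw [← h1]; ring
  have hsum : ∑ a ∈ S, C (n a : ℚ) * ∏ b ∈ S.erase a, (X - C b) = C (N : ℚ) := by
    have h1 := Lagrange.sum_basis (F := ℚ) hinj hne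
    have h2 : ∑ a ∈ S, C (n a : ℚ) * ∏ b ∈ S.erase a, (X - C b)
        = C (N : ℚ) * ∑ a ∈ S, Lagrange.basis S id a := by
      rw [Finset.mul_sum]
      apply Finset.sum_congr rfl
      intro a ha
      rw [Lagrange.basis_eq_prod_sub_inv_mul_nodal_div ha, ← Lagrange.nodal_erase_eq_nodal_div ha,
        Lagrange.nodal_eq, hnw a ha, C_mul]
      simp only [id]
      ring
    rw [h2, h1, mul_one]
  refine ⟨n, N, ?_, ?_, hsum, ?_⟩
  · rw [hN, Finset.prod_ne_zero_iff]
    intro b _
    exact_mod_cast (w b).den_ne_zero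
  · intro a ha
    have h1 : w a ≠ 0 := Lagrange.nodalWeight_ne_zero hinj ha
    refine mul_ne_zero (Rat.num_ne_zero.mpr h1) ?_
    rw [Finset.prod_ne_zero_iff]
    intro b _
    exact_mod_cast (w b).den_ne_zero
  · have h1 := congrArg (fun p : ℚ[X] => p.coeff (S.card - 1)) hsum
    simp only [finsetSum_coeff, coeff_C_mul] at h1
    have h2 : ∀ a ∈ S, (n a : ℚ) * (∏ b ∈ S.erase a, (X - C b) : ℚ[X]).coeff (S.card - 1)
        = n a := by
      intro a ha
      have h3 : (∏ b ∈ S.erase a, (X - C b) : ℚ[X]).Monic :=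
        monic_prod_of_monic _ _ (fun b _ => monic_X_sub_C b)
      have h4 : (∏ b ∈ S.erase a, (X - C b) : ℚ[X]).natDegree = S.card - 1 := by
        rw [natDegree_prod_of_monic _ _ (fun b _ => monic_X_sub_C b)]
        simp [Finset.card_erase_of_mem ha]
      rw [← h4, h3.coeff_natDegree, mul_one]
    rw [Finset.sum_congr rfl h2] at h1
    have h5 : (C (N : ℚ)).coeff (S.card - 1) = 0 := by
      rw [coeff_C, if_neg (by omega)]
    rw [h5] at h1
    exact_mod_cast h1

lemma logder (S : Finset ℚ) (m : ℚ → ℕ) :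
    (∏ a ∈ S, (X - C a)) * derivative (∏ a ∈ S, (X - C a) ^ m a)
      = (∏ a ∈ S, (X - C a) ^ m a) * ∑ a ∈ S, C (m a : ℚ) * ∏ b ∈ S.erase a, (X - C b) := by
  classical
  rw [derivative_prod_finset, Finset.mul_sum, Finset.mul_sum]
  apply Finset.sum_congr rfl
  intro a ha
  rw [derivative_X_sub_C_pow, ← Finset.mul_prod_erase S (fun a => (X - C a : ℚ[X])) ha,
    ← Finset.mul_prod_erase S (fun a => (X - C a : ℚ[X]) ^ m a) ha]
  rcases Nat.eq_zero_or_pos (m a) with h0 | h0
  · simp [h0]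
  · have e : (X - C a : ℚ[X]) ^ m a = (X - C a) * (X - C a) ^ (m a - 1) := by
      rw [← pow_succ']; congr 1; omega
    rw [e]; ring

lemma coeff_X_der (p : ℚ[X]) (i : ℕ) : (X * derivative p).coeff i = i * p.coeff i := by
  rcases i with _ | i
  · simp
  · rw [coeff_X_mul, coeff_derivative]; push_cast; ring

lemma natDegree_X_der (p : ℚ[X]) : (X * derivative p).natDegree ≤ p.natDegree := by
  rw [natDegree_le_iff_coeff_eq_zero]
  intro i hi
  rw [coeff_X_der, coeff_eq_zero_of_natDegree_lt hi, mul_zero]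

lemma poly_part (S : Finset ℚ) (hS : 2 ≤ S.card) : ∃ (m m' : ℚ → ℕ) (M : ℕ), 1 ≤ M ∧
    (∀ a ∈ S, m a = 0 ∨ m' a = 0) ∧ ∑ a ∈ S, m a = M ∧ ∑ a ∈ S, m' a = M ∧
    (∀ c : ℚ, (∏ a ∈ S, (X - C a) ^ m a) ≠ C c * ∏ a ∈ S, (X - C a) ^ m' a) ∧
    ((∏ a ∈ S, (X - C a) ^ m a) - ∏ a ∈ S, (X - C a) ^ m' a).natDegree + S.card ≤ M + 1 := by
  obtain ⟨n, N, hN, hn, hsum, hn0⟩ := weights S hS
  set m : ℚ → ℕ := fun a => (n a).toNat with hm
  set m' : ℚ → ℕ := fun a => (-n a).toNat with hm'
  have hnm : ∀ a, (n a) = (m a : ℤ) - m' a := by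
    intro a
    rw [hm, hm']
    simp only
    omega
  set M : ℕ := ∑ a ∈ S, m a with hM
  have hM' : ∑ a ∈ S, m' a = M := by
    have h1 : ∑ a ∈ S, ((m a : ℤ) - m' a) = 0 := by
      rw [← hn0]; exact Finset.sum_congr rfl fun a _ => (hnm a).symm
    rw [Finset.sum_sub_distrib] at h1
    have h2 : ((∑ a ∈ S, m' a : ℕ) : ℤ) = (M : ℤ) := by
      rw [hM]; push_cast; linarith
    exact_mod_cast h2
  have hM1 : 1 ≤ M := by
    obtain ⟨a, ha⟩ := Finset.card_pos.mp (by omega : 0 < S.card)
    rcases lt_or_gt_of_ne (hn a ha) with h | h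
    · have h1 : 1 ≤ m' a := by rw [hm']; simp only; omega
      have h2 := Finset.single_le_sum (f := m') (fun _ _ => Nat.zero_le _) ha
      omega
    · have h1 : 1 ≤ m a := by rw [hm]; simp only; omega
      have h2 := Finset.single_le_sum (f := m) (fun _ _ => Nat.zero_le _) ha
      omega
  set A : ℚ[X] := ∏ a ∈ S, (X - C a) ^ m a with hA
  set B : ℚ[X] := ∏ a ∈ S, (X - C a) ^ m' a with hB
  set P : ℚ[X] := ∏ a ∈ S, (X - C a) with hP
  have hAm : A.Monic := monic_prod_of_monic _ _ (fun a _ => (monic_X_sub_C a).pow _)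
  have hBm : B.Monic := monic_prod_of_monic _ _ (fun a _ => (monic_X_sub_C a).pow _)
  have hPm : P.Monic := monic_prod_of_monic _ _ (fun a _ => monic_X_sub_C a)
  have hAd : A.natDegree = M := by
    rw [hA, natDegree_prod_of_monic _ _ (fun a _ => (monic_X_sub_C a).pow _)]
    simp [hM]
  have hBd : B.natDegree = M := by
    rw [hB, natDegree_prod_of_monic _ _ (fun a _ => (monic_X_sub_C a).pow _), ← hM']
    simp
  have hPd : P.natDegree = S.card := by
    rw [hP, natDegree_prod_of_monic _ _ (fun a _ => monic_X_sub_C a)]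
    simp
  set Q : ℚ[X] := derivative A * B - A * derivative B with hQ
  have hPQ : P * Q = C (N : ℚ) * (A * B) := by
    have h1 := logder S m
    have h2 := logder S m'
    rw [← hA, ← hP] at h1
    rw [← hB, ← hP] at h2
    have h3 : ∑ a ∈ S, C (m a : ℚ) * ∏ b ∈ S.erase a, (X - C b)
        - ∑ a ∈ S, C (m' a : ℚ) * ∏ b ∈ S.erase a, (X - C b) = C (N : ℚ) := by
      rw [← hsum, ← Finset.sum_sub_distrib]
      apply Finset.sum_congr rfl
      intro a _
      rw [hnm a]; push_cast
      rw [C_sub]; ring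
    rw [← h3, hQ]
    linear_combination B * h1 - A * h2
  have hNQ : (N : ℚ) ≠ 0 := by exact_mod_cast hN
  have hAB : C (N : ℚ) * (A * B) ≠ 0 :=
    mul_ne_zero (by simpa using hN) (mul_ne_zero hAm.ne_zero hBm.ne_zero)
  have hQ0 : Q ≠ 0 := by
    intro h0
    rw [h0, mul_zero] at hPQ
    exact hAB hPQ.symm
  have hdegQ : S.card + Q.natDegree = 2 * M := by
    have h1 := congrArg natDegree hPQ
    rw [natDegree_mul hPm.ne_zero hQ0, natDegree_C_mul hNQ, natDegree_mul hAm.ne_zero hBm.ne_zero,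
      hPd, hAd, hBd] at h1
    omega
  have hAcB : ∀ c : ℚ, A ≠ C c * B := by
    intro c hc
    apply hQ0
    rw [hQ, hc, derivative_mul, derivative_C]
    ring
  refine ⟨m, m', M, hM1, ?_, rfl, hM', hAcB, ?_⟩
  · intro a _
    rw [hm, hm']
    simp only
    omega
  · set D : ℚ[X] := A - B with hD
    have hD0 : D ≠ 0 := by
      intro h0
      apply hAcB 1
      rw [C_1, one_mul]
      exact sub_eq_zero.mp h0
    set d := D.natDegree with hd
    have hlead : D.coeff d ≠ 0 := by
      rw [hd, coeff_natDegree]; exact leadingCoeff_ne_zero.mpr hD0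
    have hdM : d < M := by
      by_contra hge
      push Not at hge
      apply hlead
      rw [hD, coeff_sub]
      rcases Nat.eq_or_lt_of_le hge with h | h
      · rw [← h]
        have h1 := hAm.coeff_natDegree
        have h2 := hBm.coeff_natDegree
        rw [hAd] at h1
        rw [hBd] at h2
        rw [h1, h2, sub_self]
      · rw [coeff_eq_zero_of_natDegree_lt (by omega), coeff_eq_zero_of_natDegree_lt (by omega),
          sub_self]
    have hXQ : X * Q = (X * derivative D) * B - D * (X * derivative B) := by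
      rw [hQ, hD, derivative_sub]; ring
    have hco : (X * Q).coeff (d + M) ≠ 0 := by
      rw [hXQ, coeff_sub, coeff_mul_add_eq_of_natDegree_le (natDegree_X_der D) hBd.le,
        coeff_mul_add_eq_of_natDegree_le (le_refl D.natDegree) ((natDegree_X_der B).trans hBd.le),
        coeff_X_der, coeff_X_der]
      have h2 := hBm.coeff_natDegree
      rw [hBd] at h2
      rw [h2]
      have h3 : (D.natDegree : ℚ) < M := by exact_mod_cast hdM
      have h4 : (D.natDegree : ℚ) * D.coeff D.natDegree * 1 - D.coeff D.natDegree * (M * 1)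
          = (D.natDegree - M) * D.coeff D.natDegree := by ring
      rw [h4]
      exact mul_ne_zero (by linarith) hlead
    have h5 := le_natDegree_of_ne_zero hco
    rw [natDegree_mul X_ne_zero hQ0, natDegree_X] at h5
    omega

end Pool.Agent.Q245.Vg
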