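import Mathlib

set_option autoImplicit false
set_option maxHeartbeats 1000000

namespace Pool.Agent.Q245.Vg

open Polynomial
open scoped Polynomial.Bivariate

/-- homogenisation of `e` at `(p, q)` -/
noncomputable def hom (N : ℕ) (e p q : ℚ[X]) : ℚ[X] :=
  ∑ i ∈ Finset.range (N + 1), C (e.coeff i) * p ^ i * q ^ (N - i)

lemma hom_eval (N : ℕ) (e p q : ℚ[X]) (s : ℚ) (hN : e.natDegree ≤ N) (hq : q.eval s ≠ 0) :
    (hom N e p q).eval s = q.eval s ^ N * e.eval (p.eval s / q.eval s) := by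
  have hdeg : e.natDegree < N + 1 := by omega
  rw [Polynomial.eval_eq_sum_range' hdeg, Finset.mul_sum]
  unfold hom
  rw [eval_finset_sum]
  apply Finset.sum_congr rfl
  intro i hi
  have hi' : i ≤ N := by
    have := Finset.mem_range.mp hi; omega
  simp only [eval_mul, eval_pow, eval_C]
  have e1 : q.eval s ^ N = q.eval s ^ i * q.eval s ^ (N - i) := by
    rw [← pow_add]; congr 1; omega
  rw [e1, div_pow]
  field_simp

/-- a polynomial which vanishes at all points where another nonzero polynomial does not vanish -/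
lemma eq_zero_of_eval (a q : ℚ[X]) (hq : q ≠ 0) (h : ∀ s, q.eval s ≠ 0 → a.eval s = 0) : a = 0 := by
  have h1 : a * q = 0 := by
    apply Polynomial.funext
    intro s
    rw [eval_mul, eval_zero]
    by_cases h0 : q.eval s = 0
    · rw [h0, mul_zero]
    · rw [h s h0, zero_mul]
  exact (mul_eq_zero.mp h1).resolve_right hq

lemma hom_ne_zero (N : ℕ) (e p q : ℚ[X]) (hN : e.natDegree ≤ N) (he : e ≠ 0) (hq : q ≠ 0)
    (hpq : ∀ c : ℚ, p ≠ C c * q) : hom N e p q ≠ 0 := by
  intro h0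
  have h1 : ∀ s, q.eval s ≠ 0 → (∏ ρ ∈ e.roots.toFinset, (p - C ρ * q)).eval s = 0 := by
    intro s hs
    have h2 := hom_eval N e p q s hN hs
    rw [h0, eval_zero] at h2
    have h3 : e.eval (p.eval s / q.eval s) = 0 :=
      (mul_eq_zero.mp h2.symm).resolve_left (pow_ne_zero _ hs)
    have hmem : (p.eval s / q.eval s) ∈ e.roots.toFinset := by
      rw [Multiset.mem_toFinset, mem_roots he]; exact h3
    rw [eval_prod]
    apply Finset.prod_eq_zero hmem
    simp only [eval_sub, eval_mul, eval_C]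
    field_simp
    ring
  have h4 := eq_zero_of_eval _ q hq h1
  rw [Finset.prod_eq_zero_iff] at h4
  obtain ⟨ρ, _, hρ⟩ := h4
  exact hpq ρ (sub_eq_zero.mp hρ)

lemma evalEval_eq_sum (s t : ℚ) (E : ℚ[X][Y]) (N : ℕ) (hN : E.natDegree < N) :
    E.evalEval s t = ∑ j ∈ Finset.range N, (E.coeff j).eval s * t ^ j := by
  unfold evalEval
  rw [Polynomial.eval_eq_sum_range' hN, eval_finset_sum]
  apply Finset.sum_congr rfl
  intro j _
  rw [eval_mul, eval_pow, eval_C]

lemma pull_inner (E : ℚ[X][Y]) (hE : E ≠ 0) (p q : ℚ[X]) (hq : q ≠ 0)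
    (hpq : ∀ c : ℚ, p ≠ C c * q) :
    ∃ E' : ℚ[X][Y], E' ≠ 0 ∧ ∀ s t : ℚ, q.eval s ≠ 0 → E'.evalEval s t ≠ 0 →
      E.evalEval (p.eval s / q.eval s) t ≠ 0 := by
  classical
  set N := (Finset.range (E.natDegree + 1)).sup (fun j => (E.coeff j).natDegree) with hNdef
  have hN : ∀ j ∈ Finset.range (E.natDegree + 1), (E.coeff j).natDegree ≤ N := by
    intro j hj
    exact Finset.le_sup (f := fun j => (E.coeff j).natDegree) hj
  set E' : ℚ[X][Y] := ∑ j ∈ Finset.range (E.natDegree + 1),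
    C (hom N (E.coeff j) p q) * X ^ j with hE'
  have hcoeff : ∀ j ∈ Finset.range (E.natDegree + 1), E'.coeff j = hom N (E.coeff j) p q := by
    intro j hj
    rw [hE', finset_sum_coeff]
    simp only [coeff_C_mul, coeff_X_pow, mul_ite, mul_one, mul_zero]
    rw [Finset.sum_ite_eq]
    simp [hj]
  refine ⟨E', ?_, ?_⟩
  · intro h0
    have hlead : E.coeff E.natDegree ≠ 0 := by
      rw [coeff_natDegree]; exact leadingCoeff_ne_zero.mpr hE
    have hmem : E.natDegree ∈ Finset.range (E.natDegree + 1) := Finset.self_mem_range_succ _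
    have h1 := hcoeff _ hmem
    rw [h0, coeff_zero] at h1
    exact hom_ne_zero N _ p q (hN _ hmem) hlead hq hpq h1.symm
  · intro s t hs h1 h2
    apply h1
    have h3 : E'.evalEval s t = q.eval s ^ N * E.evalEval (p.eval s / q.eval s) t := by
      rw [evalEval_eq_sum _ t E (E.natDegree + 1) (Nat.lt_succ_self _), Finset.mul_sum, hE',
        evalEval_finsetSum]
      apply Finset.sum_congr rfl
      intro j hj
      rw [evalEval_mul, evalEval_C, evalEval_pow, evalEval_X, hom_eval N _ p q s (hN j hj) hs]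
      ring
    rw [h3, h2, mul_zero]

lemma evalEval_swap (s t : ℚ) (E : ℚ[X][Y]) : (Bivariate.swap E).evalEval s t = E.evalEval t s := by
  have h := Bivariate.aevalAeval_swap (R := ℚ) (A := ℚ) s t E
  rwa [coe_aevalAeval_eq_evalEval, coe_aevalAeval_eq_evalEval] at h

lemma pull_outer (E : ℚ[X][Y]) (hE : E ≠ 0) (p q : ℚ[X]) (hq : q ≠ 0)
    (hpq : ∀ c : ℚ, p ≠ C c * q) :
    ∃ E' : ℚ[X][Y], E' ≠ 0 ∧ ∀ s t : ℚ, q.eval t ≠ 0 → E'.evalEval s t ≠ 0 →
      E.evalEval s (p.eval t / q.eval t) ≠ 0 := by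
  obtain ⟨E', h1, h2⟩ := pull_inner (Bivariate.swap E) (by simpa using hE) p q hq hpq
  refine ⟨Bivariate.swap E', by simpa using h1, ?_⟩
  intro s t ht h3
  rw [evalEval_swap] at h3
  have := h2 t s ht h3
  rwa [evalEval_swap] at this

end Pool.Agent.Q245.Vg
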