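import Pool.Agent.Q245.Vg.General
import Pool.Agent.Q245.Vg.Poly

set_option autoImplicit false
set_option maxHeartbeats 1000000

namespace Pool.Agent.Q245.Vg

open Polynomial
open scoped Polynomial.Bivariate
open Pool.Agent.Q245.Vj

/-- the linear form with the zero `a` -/
def lin (a : ℚ) (x y : ℤ) : ℤ := a.den * x - a.num * y

/-- the form with the zeros `∞` and the elements of `S` -/
def FS (S : Finset ℚ) (x y : ℤ) : ℤ := y * ∏ a ∈ S, lin a x y

/-- `D` is a common multiple of all common divisors of `f` and `g` -/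
def Q2 (f g D : ℤ) : Prop := ∀ h : ℤ, h ∣ f → h ∣ g → h ∣ D

lemma Q2_symm {f g D : ℤ} (h : Q2 f g D) : Q2 g f D := fun k h1 h2 => h k h2 h1

lemma Q2_mul {k f g D E : ℤ} (h1 : Q2 k f D) (h2 : Q2 k g E) : Q2 k (f * g) (D * E) := by
  intro h hk hfg
  by_cases hf : f = 0
  · exact Dvd.dvd.mul_right (h1 h hk (hf ▸ dvd_zero _)) _
  · obtain ⟨γ, x, y, hγ, hx, hy, hcop⟩ := exists_reduce h f (fun h => hf h.2)
    have hγ0 : γ ≠ 0 := hγ.ne'
    have hγD : γ ∣ D := by
      apply h1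
      · exact dvd_trans (hx ▸ Dvd.intro _ rfl) hk
      · exact hy ▸ Dvd.intro _ rfl
    have hxg : x ∣ g := by
      have h3 : γ * x ∣ γ * (y * g) := by
        rw [← hx, ← mul_assoc, ← hy]; exact hfg
      have h4 : x ∣ y * g := (mul_dvd_mul_iff_left hγ0).mp h3
      exact hcop.dvd_of_dvd_mul_left h4
    have hxE : x ∣ E := by
      apply h2 x _ hxg
      exact dvd_trans (hx ▸ Dvd.intro_left _ rfl) hk
    rw [hx]
    exact mul_dvd_mul hγD hxE

lemma Q2_pow {k f D : ℤ} (h : Q2 k f D) (n : ℕ) : Q2 k (f ^ n) (D ^ n) := by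
  induction n with
  | zero => intro h _ h2; simpa using h2
  | succ n ih => rw [pow_succ, pow_succ]; exact Q2_mul ih h

lemma Q2_prod {k : ℤ} (S : Finset ℚ) (f D : ℚ → ℤ) (h : ∀ a ∈ S, Q2 k (f a) (D a)) :
    Q2 k (∏ a ∈ S, f a) (∏ a ∈ S, D a) := by
  classical
  induction S using Finset.induction_on with
  | empty => intro h _ h2; simpa using h2
  | insert a S ha ih =>
    rw [Finset.prod_insert ha, Finset.prod_insert ha]
    exact Q2_mul (h a (Finset.mem_insert_self _ _))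
      (ih fun b hb => h b (Finset.mem_insert_of_mem hb))

lemma Q2_self (k c : ℤ) : Q2 k c c := fun _ _ h => h

/-- the determinant of two linear forms -/
def Δ (a b : ℚ) : ℤ := a.den * b.num - b.den * a.num

lemma Δ_ne {a b : ℚ} (h : a ≠ b) : Δ a b ≠ 0 := by
  intro h0
  apply h
  unfold Δ at h0
  have h1 : (a.num : ℤ) * b.den = b.num * a.den := by linarith
  exact (Rat.eq_iff_mul_eq_mul).mpr h1

lemma Q2_lin (a b : ℚ) (x y : ℤ) (hxy : IsCoprime x y) : Q2 (lin a x y) (lin b x y) (Δ a b) := by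
  intro h h1 h2
  have e1 : Δ a b * x = b.num * lin a x y - a.num * lin b x y := by unfold Δ lin; ring
  have e2 : Δ a b * y = b.den * lin a x y - a.den * lin b x y := by unfold Δ lin; ring
  have h3 : h ∣ Δ a b * x := by
    rw [e1]; exact dvd_sub (Dvd.dvd.mul_left h1 _) (Dvd.dvd.mul_left h2 _)
  have h4 : h ∣ Δ a b * y := by
    rw [e2]; exact dvd_sub (Dvd.dvd.mul_left h1 _) (Dvd.dvd.mul_left h2 _)
  obtain ⟨α, β, hαβ⟩ := hxy
  have e : Δ a b = α * (Δ a b * x) + β * (Δ a b * y) := by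
    linear_combination (-(Δ a b)) * hαβ
  rw [e]
  exact dvd_add (Dvd.dvd.mul_left h3 _) (Dvd.dvd.mul_left h4 _)

lemma lin_eq (a : ℚ) (x y : ℤ) (hy : y ≠ 0) :
    (lin a x y : ℚ) = a.den * y * ((x : ℚ) / y - a) := by
  have hyQ : (y : ℚ) ≠ 0 := by exact_mod_cast hy
  have h1 : a * a.den = a.num := Rat.mul_den_eq_num _
  unfold lin
  push_cast
  rw [← h1]
  field_simp

/-- the constant of the size estimates -/
def Λ (S : Finset ℚ) : ℝ := 1 + ∑ a ∈ S, (|(a.num : ℝ)| + a.den)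

lemma Λ_pos (S : Finset ℚ) : 0 < Λ S := by
  unfold Λ
  have : (0 : ℝ) ≤ ∑ a ∈ S, (|(a.num : ℝ)| + a.den) := Finset.sum_nonneg fun a _ => by positivity
  linarith

lemma le_Λ {S : Finset ℚ} {a : ℚ} (ha : a ∈ S) : |(a.num : ℝ)| + a.den ≤ Λ S := by
  unfold Λ
  have := Finset.single_le_sum (f := fun a : ℚ => |(a.num : ℝ)| + (a.den : ℝ))
    (fun a _ => by positivity) ha
  linarith

lemma two_lin {S : Finset ℚ} {a b : ℚ} (ha : a ∈ S) (hb : b ∈ S) (hab : a ≠ b) (x y : ℤ) :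
    H x y ≤ 2 * Λ S * max |(lin a x y : ℝ)| |(lin b x y : ℝ)| := by
  set μ : ℝ := max |(lin a x y : ℝ)| |(lin b x y : ℝ)| with hμ
  have hΔ : (1 : ℝ) ≤ |(Δ a b : ℝ)| := by exact_mod_cast Int.one_le_abs (Δ_ne hab)
  have hla : |(lin a x y : ℝ)| ≤ μ := le_max_left _ _
  have hlb : |(lin b x y : ℝ)| ≤ μ := le_max_right _ _
  have hμ0 : 0 ≤ μ := (abs_nonneg _).trans hla
  have e1 : (Δ a b : ℝ) * x = b.num * lin a x y - a.num * lin b x y := by
    unfold Δ lin; push_cast; ring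
  have e2 : (Δ a b : ℝ) * y = b.den * lin a x y - a.den * lin b x y := by
    unfold Δ lin; push_cast; ring
  have hA := le_Λ ha
  have hB := le_Λ hb
  have hda : (0 : ℝ) ≤ a.den := by positivity
  have hdb : (0 : ℝ) ≤ b.den := by positivity
  have hna : (0 : ℝ) ≤ |(a.num : ℝ)| := abs_nonneg _
  have hnb : (0 : ℝ) ≤ |(b.num : ℝ)| := abs_nonneg _
  apply max_le
  · have h1 : |(x : ℝ)| ≤ |(Δ a b : ℝ) * x| := by
      rw [abs_mul]; exact le_mul_of_one_le_left (abs_nonneg _) hΔ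
    refine h1.trans ?_
    rw [e1]
    refine (abs_sub _ _).trans ?_
    rw [abs_mul, abs_mul]
    calc |(b.num : ℝ)| * |(lin a x y : ℝ)| + |(a.num : ℝ)| * |(lin b x y : ℝ)|
        ≤ |(b.num : ℝ)| * μ + |(a.num : ℝ)| * μ := by gcongr
      _ ≤ Λ S * μ + Λ S * μ := by
          gcongr
          · linarith
          · linarith
      _ = _ := by ring
  · have h1 : |(y : ℝ)| ≤ |(Δ a b : ℝ) * y| := by
      rw [abs_mul]; exact le_mul_of_one_le_left (abs_nonneg _) hΔ
    refine h1.trans ?_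
    rw [e2]
    refine (abs_sub _ _).trans ?_
    rw [abs_mul, abs_mul, abs_of_nonneg hda, abs_of_nonneg hdb]
    calc (b.den : ℝ) * |(lin a x y : ℝ)| + (a.den : ℝ) * |(lin b x y : ℝ)|
        ≤ (b.den : ℝ) * μ + (a.den : ℝ) * μ := by gcongr
      _ ≤ Λ S * μ + Λ S * μ := by
          gcongr
          · linarith
          · linarith
      _ = _ := by ring

/-- the product of the powers of the linear forms is large unless a form is small -/
lemma prod_large (S : Finset ℚ) (m : ℚ → ℕ) (x y : ℤ) (hH : 0 ≤ H x y)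
    (h : ∀ a ∈ S, m a ≠ 0 → H x y ≤ 2 * Λ S * |(lin a x y : ℝ)|) :
    (H x y / (2 * Λ S)) ^ (∑ a ∈ S, m a) ≤ |((∏ a ∈ S, lin a x y ^ m a : ℤ) : ℝ)| := by
  have hΛ := Λ_pos S
  push_cast
  rw [Finset.abs_prod, ← Finset.prod_pow_eq_pow_sum]
  apply Finset.prod_le_prod
  · intro a _; positivity
  · intro a ha
    rcases eq_or_ne (m a) 0 with h0 | h0
    · rw [h0]; simp
    · rw [abs_pow]
      apply pow_le_pow_left₀ (by positivity)
      rw [div_le_iff₀ (by positivity)]
      linarith [h a ha h0]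

lemma eval_prod_lin (S : Finset ℚ) (m : ℚ → ℕ) (x y : ℤ) (hy : y ≠ 0) :
    ((∏ a ∈ S, lin a x y ^ m a : ℤ) : ℚ) = ((∏ a ∈ S, (a.den : ℤ) ^ m a : ℤ) : ℚ) *
      ((y : ℚ) ^ (∑ a ∈ S, m a) * (∏ a ∈ S, (X - C a) ^ m a : ℚ[X]).eval ((x : ℚ) / y)) := by
  rw [eval_prod, ← Finset.prod_pow_eq_pow_sum]
  push_cast
  rw [← Finset.prod_mul_distrib, ← Finset.prod_mul_distrib]
  apply Finset.prod_congr rfl
  intro a _
  rw [lin_eq a x y hy, eval_pow, eval_sub, eval_X, eval_C, mul_pow, mul_pow]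
  ring

/-- the binary form `∑ g_i x^i y^(r - i)` -/
noncomputable def form (r : ℕ) (g : ℤ[X]) (x y : ℤ) : ℤ :=
  ∑ i ∈ Finset.range (r + 1), g.coeff i * x ^ i * y ^ (r - i)

lemma form_le (r : ℕ) (g : ℤ[X]) : ∃ K : ℝ, 0 < K ∧ ∀ x y : ℤ,
    |(form r g x y : ℝ)| ≤ K * H x y ^ r := by
  refine ⟨1 + ∑ i ∈ Finset.range (r + 1), |(g.coeff i : ℝ)|, by positivity, ?_⟩
  intro x y
  have hH0 : 0 ≤ H x y := (abs_nonneg _).trans (le_H_left x y)
  have h1 : |(form r g x y : ℝ)| ≤ ∑ i ∈ Finset.range (r + 1), |(g.coeff i : ℝ)| * H x y ^ r := by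
    unfold form
    push_cast
    refine (Finset.abs_sum_le_sum_abs _ _).trans (Finset.sum_le_sum ?_)
    intro i hi
    rw [abs_mul, abs_mul, abs_pow, abs_pow, mul_assoc]
    apply mul_le_mul_of_nonneg_left _ (abs_nonneg _)
    have hi' : i ≤ r := by
      have := Finset.mem_range.mp hi; omega
    calc |(x : ℝ)| ^ i * |(y : ℝ)| ^ (r - i) ≤ H x y ^ i * H x y ^ (r - i) := by
          gcongr
          · exact le_H_left x y
          · exact le_H_right x y
      _ = H x y ^ r := by rw [← pow_add]; congr 1; omega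
  refine h1.trans ?_
  rw [← Finset.sum_mul]
  apply mul_le_mul_of_nonneg_right _ (by positivity)
  linarith

lemma form_eq (r : ℕ) (g : ℤ[X]) (hr : g.natDegree ≤ r) (x y : ℤ) (hy : y ≠ 0) :
    (form r g x y : ℚ) = (y : ℚ) ^ r * (g.map (Int.castRingHom ℚ)).eval ((x : ℚ) / y) := by
  have hyQ : (y : ℚ) ≠ 0 := by exact_mod_cast hy
  have hdeg : (g.map (Int.castRingHom ℚ)).natDegree < r + 1 := by
    have := natDegree_map_le (f := Int.castRingHom ℚ) (p := g)
    omega
  rw [Polynomial.eval_eq_sum_range' hdeg, Finset.mul_sum]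
  unfold form
  push_cast
  apply Finset.sum_congr rfl
  intro i hi
  have hi' : i ≤ r := by
    have := Finset.mem_range.mp hi; omega
  rw [coeff_map]
  simp only [eq_intCast]
  have e : (y : ℚ) ^ r = y ^ i * y ^ (r - i) := by
    rw [← pow_add]; congr 1; omega
  rw [e, div_pow]
  field_simp

/-- clearing denominators -/
lemma clear (D : ℚ[X]) : ∃ (e : ℤ) (g : ℤ[X]), e ≠ 0 ∧
    g.map (Int.castRingHom ℚ) = C (e : ℚ) * D := by
  obtain ⟨b, hb⟩ := IsLocalization.integerNormalization_map_to_map (nonZeroDivisors ℤ) D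
  refine ⟨b, IsLocalization.integerNormalization (nonZeroDivisors ℤ) D,
    nonZeroDivisors.coe_ne_zero b, ?_⟩
  rw [← smul_eq_C_mul]
  have : (algebraMap ℤ ℚ) = Int.castRingHom ℚ := rfl
  rw [← this, hb]
  ext i
  simp [coeff_smul]

/-- from `0 + 1 + ∞` to `∞` and the points of `S` -/
theorem tr_rat (S : Finset ℚ) (hS : 2 ≤ S.card) : TrQ S.card (FS S) := by
  classical
  obtain ⟨m, m', M, hM1, hmm, hMs, hMs', hAB, hdeg⟩ := poly_part S hS
  set A : ℚ[X] := ∏ a ∈ S, (X - C a) ^ m a with hA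
  set B : ℚ[X] := ∏ a ∈ S, (X - C a) ^ m' a with hB
  set D : ℚ[X] := A - B with hD
  set d : ℕ := D.natDegree with hd
  have hD0 : D ≠ 0 := by
    intro h0
    apply hAB 1
    rw [C_1, one_mul]
    exact sub_eq_zero.mp h0
  have hB0 : B ≠ 0 := by
    rw [hB, Finset.prod_ne_zero_iff]
    intro a _
    exact pow_ne_zero _ (X_sub_C_ne_zero a)
  obtain ⟨e, g, he, hg⟩ := clear D
  have heQ : (e : ℚ) ≠ 0 := by exact_mod_cast he
  have hgd : g.natDegree ≤ d := by
    have h1 : (g.map (Int.castRingHom ℚ)).natDegree = g.natDegree :=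
      natDegree_map_eq_of_injective (Int.castRingHom ℚ).injective_int g
    rw [← h1, hg, natDegree_C_mul heQ]
  obtain ⟨K, hK, hKb⟩ := form_le d g
  set cA : ℤ := ∏ a ∈ S, (a.den : ℤ) ^ m a with hcA
  set cB : ℤ := ∏ a ∈ S, (a.den : ℤ) ^ m' a with hcB
  have hcA0 : cA ≠ 0 := by
    rw [hcA, Finset.prod_ne_zero_iff]
    intro a _
    exact pow_ne_zero _ (by exact_mod_cast a.den_ne_zero)
  have hcB0 : cB ≠ 0 := by
    rw [hcB, Finset.prod_ne_zero_iff]
    intro a _
    exact pow_ne_zero _ (by exact_mod_cast a.den_ne_zero)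
  have hΛ := Λ_pos S
  set D₀ : ℤ := cB * ∏ a ∈ S, (cA * ∏ b ∈ S, Δ a b ^ m' b) ^ m a with hD₀
  have hD₀0 : D₀ ≠ 0 := by
    refine mul_ne_zero hcB0 ?_
    rw [Finset.prod_ne_zero_iff]
    intro a ha
    rcases hmm a ha with h0 | h0
    · rw [h0]; simp
    · apply pow_ne_zero
      refine mul_ne_zero hcA0 ?_
      rw [Finset.prod_ne_zero_iff]
      intro b _
      rcases eq_or_ne b a with hba | hba
      · rw [hba, h0]; simp
      · exact pow_ne_zero _ (Δ_ne hba.symm)
  have heR : (0 : ℝ) < |((e * cA * cB : ℤ) : ℝ)| := by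
    apply abs_pos.mpr
    exact_mod_cast mul_ne_zero (mul_ne_zero he hcA0) hcB0
  refine ⟨M, A, B, D, D₀, (1 / (2 * Λ S)) ^ M, |((e * cA * cB : ℤ) : ℝ)| * K, hM1, hAB, hB0, hD0,
    hD₀0, by positivity, by positivity, ?_⟩
  intro x y hxy hy hF hdx
  have hyQ : (y : ℚ) ≠ 0 := by exact_mod_cast hy
  have hH1 : 1 ≤ H x y := H_pos hxy
  have hH0 : 0 ≤ H x y := by linarith
  have hlin : ∀ a ∈ S, lin a x y ≠ 0 := by
    unfold FS at hF
    exact Finset.prod_ne_zero_iff.mp (right_ne_zero_of_mul hF)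
  set T : ℤ := cB * ∏ a ∈ S, lin a x y ^ m a with hT
  set W : ℤ := cA * ∏ a ∈ S, lin a x y ^ m' a with hW
  have hT0 : T ≠ 0 := mul_ne_zero hcB0 (Finset.prod_ne_zero_iff.mpr fun a ha =>
    pow_ne_zero _ (hlin a ha))
  have hW0 : W ≠ 0 := mul_ne_zero hcA0 (Finset.prod_ne_zero_iff.mpr fun a ha =>
    pow_ne_zero _ (hlin a ha))
  have hTQ : (T : ℚ) = (cA * cB * (y : ℚ) ^ M) * A.eval ((x : ℚ) / y) := by
    rw [hT, Int.cast_mul, eval_prod_lin S m x y hy, ← hA, ← hcA, hMs]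
    ring
  have hWQ : (W : ℚ) = (cA * cB * (y : ℚ) ^ M) * B.eval ((x : ℚ) / y) := by
    rw [hW, Int.cast_mul, eval_prod_lin S m' x y hy, ← hB, ← hcB, hMs']
    ring
  have hBx : B.eval ((x : ℚ) / y) ≠ 0 := by
    intro h0
    apply hW0
    have : (W : ℚ) = 0 := by rw [hWQ, h0, mul_zero]
    exact_mod_cast this
  have hcy : (cA : ℚ) * cB * (y : ℚ) ^ M ≠ 0 := by
    have h1 : (cA : ℚ) ≠ 0 := by exact_mod_cast hcA0
    have h2 : (cB : ℚ) ≠ 0 := by exact_mod_cast hcB0
    positivity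
  have hdM : d ≤ M := by omega
  have hform := form_eq d g hgd x y hy
  rw [hg, eval_mul, eval_C] at hform
  have hTW : e * (T - W) = cA * cB * y ^ (M - d) * form d g x y := by
    have h1 : ((e * (T - W) : ℤ) : ℚ) = ((cA * cB * y ^ (M - d) * form d g x y : ℤ) : ℚ) := by
      push_cast
      rw [hTQ, hWQ, hform]
      have h2 : (y : ℚ) ^ M = y ^ (M - d) * y ^ d := by rw [← pow_add]; congr 1; omega
      rw [h2, hD, eval_sub]
      ring
    exact_mod_cast h1
  have hform0 : form d g x y ≠ 0 := by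
    intro h0
    rw [h0] at hform
    have : (y : ℚ) ^ d * (e * D.eval ((x : ℚ) / y)) ≠ 0 :=
      mul_ne_zero (pow_ne_zero _ hyQ) (mul_ne_zero heQ hdx)
    exact this (by rw [← hform]; simp)
  have hTW0 : T - W ≠ 0 := by
    intro h0
    rw [h0, mul_zero] at hTW
    exact (mul_ne_zero (mul_ne_zero (mul_ne_zero hcA0 hcB0) (pow_ne_zero _ hy)) hform0) hTW.symm
  refine ⟨hBx, T, W, e * cA * cB * form d g x y, hW0, ?_, ?_, ?_, ?_, ?_, ?_, ?_⟩
  · rw [hTQ, hWQ, mul_div_mul_left _ _ hcy]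
  · intro h h1 h2
    have key : Q2 W T D₀ := by
      rw [hT, hD₀]
      apply Q2_mul (Q2_self _ _)
      apply Q2_prod
      intro a _
      apply Q2_pow
      apply Q2_symm
      rw [hW]
      apply Q2_mul (Q2_self _ _)
      apply Q2_prod
      intro b _
      apply Q2_pow
      exact Q2_lin a b x y hxy
    exact key h h2 h1
  · unfold F₀
    exact mul_ne_zero (mul_ne_zero hT0 hW0) hTW0
  · -- size
    have e0 : (1 / (2 * Λ S)) ^ M * H x y ^ M = (H x y / (2 * Λ S)) ^ M := by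
      rw [← mul_pow]; congr 1; ring
    rw [e0]
    have hcA1 : (1 : ℝ) ≤ |(cA : ℝ)| := by exact_mod_cast Int.one_le_abs hcA0
    have hcB1 : (1 : ℝ) ≤ |(cB : ℝ)| := by exact_mod_cast Int.one_le_abs hcB0
    have goT : (∀ a ∈ S, m a ≠ 0 → H x y ≤ 2 * Λ S * |(lin a x y : ℝ)|) →
        (H x y / (2 * Λ S)) ^ M ≤ H T W := by
      intro h
      refine le_trans ?_ (le_H_left T W)
      have h1 := prod_large S m x y hH0 h
      rw [hMs] at h1
      rw [hT, Int.cast_mul, abs_mul]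
      exact h1.trans (le_mul_of_one_le_left (abs_nonneg _) hcB1)
    have goW : (∀ a ∈ S, m' a ≠ 0 → H x y ≤ 2 * Λ S * |(lin a x y : ℝ)|) →
        (H x y / (2 * Λ S)) ^ M ≤ H T W := by
      intro h
      refine le_trans ?_ (le_H_right T W)
      have h1 := prod_large S m' x y hH0 h
      rw [hMs'] at h1
      rw [hW, Int.cast_mul, abs_mul]
      exact h1.trans (le_mul_of_one_le_left (abs_nonneg _) hcA1)
    by_cases hex : ∃ a ∈ S, 2 * Λ S * |(lin a x y : ℝ)| < H x y
    · obtain ⟨a, ha, hlt⟩ := hex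
      have hoth : ∀ b ∈ S, b ≠ a → H x y ≤ 2 * Λ S * |(lin b x y : ℝ)| := by
        intro b hb hba
        have h1 := two_lin ha hb hba.symm x y
        rcases max_choice |(lin a x y : ℝ)| |(lin b x y : ℝ)| with h | h
        · rw [h] at h1; linarith
        · rwa [h] at h1
      rcases hmm a ha with h0 | h0
      · apply goT
        intro b hb hmb
        exact hoth b hb (fun h => hmb (h ▸ h0))
      · apply goW
        intro b hb hmb
        exact hoth b hb (fun h => hmb (h ▸ h0))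
    · push Not at hex
      exact goT fun a ha _ => hex a ha
  · exact mul_ne_zero (mul_ne_zero (mul_ne_zero he hcA0) hcB0) hform0
  · rw [Int.cast_mul, abs_mul]
    have h1 := hKb x y
    calc |((e * cA * cB : ℤ) : ℝ)| * |(form d g x y : ℝ)| * H x y ^ (S.card - 1)
        ≤ |((e * cA * cB : ℤ) : ℝ)| * (K * H x y ^ d) * H x y ^ (S.card - 1) := by gcongr
      _ = |((e * cA * cB : ℤ) : ℝ)| * K * H x y ^ (d + (S.card - 1)) := by
          rw [pow_add]; ring
      _ ≤ |((e * cA * cB : ℤ) : ℝ)| * K * H x y ^ M := by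
          apply mul_le_mul_of_nonneg_left _ (by positivity)
          exact pow_le_pow_right₀ hH1 (by omega)
  · intro ℓ hℓ hdv
    have hp := Nat.prime_iff_prime_int.mp hℓ
    have hprod : ∀ (k : ℚ → ℕ), (ℓ : ℤ) ∣ ∏ a ∈ S, lin a x y ^ k a → (ℓ : ℤ) ∣ FS S x y := by
      intro k hk
      obtain ⟨a, ha, h1⟩ := (hp.dvd_finset_prod_iff _).mp hk
      have h2 := hp.dvd_of_dvd_pow h1
      unfold FS
      exact Dvd.dvd.mul_left (h2.trans (Finset.dvd_prod_of_mem (fun a => lin a x y) ha)) _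
    unfold F₀ at hdv
    rcases hp.dvd_or_dvd hdv with h | h
    · rcases hp.dvd_or_dvd h with h1 | h1
      · rcases hp.dvd_or_dvd h1 with h2 | h2
        · have e1 : e * cA * cB * form d g x y * FS S x y
              = cB * (e * cA * form d g x y * FS S x y) := by ring
          rw [e1]; exact Dvd.dvd.mul_right h2 _
        · exact Dvd.dvd.mul_left (hprod _ h2) _
      · rcases hp.dvd_or_dvd h1 with h2 | h2
        · have e1 : e * cA * cB * form d g x y * FS S x y
              = cA * (e * cB * form d g x y * FS S x y) := by ring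
          rw [e1]; exact Dvd.dvd.mul_right h2 _
        · exact Dvd.dvd.mul_left (hprod _ h2) _
    · have h1 : (ℓ : ℤ) ∣ e * (T - W) := Dvd.dvd.mul_left h _
      rw [hTW] at h1
      rcases hp.dvd_or_dvd h1 with h2 | h2
      · rcases hp.dvd_or_dvd h2 with h3 | h3
        · have e1 : e * cA * cB * form d g x y * FS S x y
              = (cA * cB) * (e * form d g x y * FS S x y) := by ring
          rw [e1]; exact Dvd.dvd.mul_right h3 _
        · have h4 := hp.dvd_of_dvd_pow h3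
          unfold FS
          exact Dvd.dvd.mul_left (Dvd.dvd.mul_right h4 _) _
      · have e1 : e * cA * cB * form d g x y * FS S x y
              = form d g x y * (e * cA * cB * FS S x y) := by ring
        rw [e1]; exact Dvd.dvd.mul_right h2 _

end Pool.Agent.Q245.Vg
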