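import Pool.Agent.Q245.Vg.Base
import Pool.Agent.Q245.Vj.Cases

set_option autoImplicit false
set_option maxHeartbeats 1000000

namespace Pool.Agent.Q245.Vg

open Polynomial
open scoped Polynomial.Bivariate
open Pool.Agent.Q245.Vj

/-- the divisor `0 + 1 + ∞` -/
def F₀ (x y : ℤ) : ℤ := x * y * (x - y)

/-- the divisor `∞ + α + α'` -/
def Cj (a b c : ℤ) (x y : ℤ) : ℤ := y * (a * x ^ 2 + b * x * y + c * y ^ 2)

lemma F₀_hom (g t w : ℤ) : F₀ (g * t) (g * w) = g ^ 3 * F₀ t w := by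
  unfold F₀; ring

lemma Cj_hom (a b c g t w : ℤ) : Cj a b c (g * t) (g * w) = g ^ 3 * Cj a b c t w := by
  unfold Cj; ring

lemma H_pos {x y : ℤ} (h : IsCoprime x y) : 1 ≤ H x y := one_le_H h

lemma le_H_left (x y : ℤ) : |(x : ℝ)| ≤ H x y := le_max_left _ _

lemma le_H_right (x y : ℤ) : |(y : ℝ)| ≤ H x y := le_max_right _ _

/-- from the rational divisor to the conjugate pair -/
theorem tr_conj (a b c : ℤ) (ha : a ≠ 0) (hδ : b ^ 2 - 4 * a * c ≠ 0) :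
    Tr F₀ (Cj a b c) := by
  set δ : ℤ := b ^ 2 - 4 * a * c with hδdef
  have hδQ : (δ : ℚ) ≠ 0 := by exact_mod_cast hδ
  have hδ1 : (1 : ℝ) ≤ |(δ : ℝ)| := by exact_mod_cast Int.one_le_abs hδ
  have haQ : (a : ℚ) ≠ 0 := by exact_mod_cast ha
  have hlin : (C (2 * a : ℚ) * X + C (b : ℚ) : ℚ[X]) ≠ 0 := by
    intro h0
    have h1 := congrArg (fun p : ℚ[X] => p.coeff 1) h0
    simp only [coeff_add, coeff_C_mul, coeff_X_one, mul_one, coeff_zero] at h1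
    rw [coeff_C_succ] at h1
    have : (2 * a : ℚ) ≠ 0 := by positivity
    exact this (by linarith)
  refine ⟨2, (C (2 * a : ℚ) * X + C (b : ℚ)) ^ 2, C (δ : ℚ), C (2 * a : ℚ) * X + C (b : ℚ),
    δ * (2 * a) ^ 3, 1 / (1 + |(b : ℝ)|) ^ 2, |4 * (a : ℝ) * δ| * (2 * |(a : ℝ)| + |(b : ℝ)|),
    by norm_num, ?_, ?_, hlin, by positivity, by positivity, ?_, ?_⟩
  · intro k hk
    have h1 := congrArg (fun p : ℚ[X] => p.eval (-(b : ℚ) / (2 * a))) hk
    have h2 := congrArg (fun p : ℚ[X] => p.eval ((1 - (b : ℚ)) / (2 * a))) hk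
    simp only [eval_add, eval_mul, eval_pow, eval_C, eval_X] at h1 h2
    have e1 : (2 * (a : ℚ)) * (-(b : ℚ) / (2 * a)) + b = 0 := by field_simp; ring
    have e2 : (2 * (a : ℚ)) * ((1 - (b : ℚ)) / (2 * a)) + b = 1 := by field_simp; ring
    rw [e1] at h1
    rw [e2] at h2
    rw [← h2] at h1
    norm_num at h1
  · simpa using hδQ
  · have h1 : (0 : ℝ) < |4 * (a : ℝ) * δ| := by
      apply abs_pos.mpr
      have : (a : ℝ) ≠ 0 := by exact_mod_cast ha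
      have : (δ : ℝ) ≠ 0 := by exact_mod_cast hδ
      positivity
    have h2 : (0 : ℝ) < |(a : ℝ)| := abs_pos.mpr (by exact_mod_cast ha)
    positivity
  intro x y hxy hy hF hd
  have hyQ : (y : ℚ) ≠ 0 := by exact_mod_cast hy
  set L : ℤ := 2 * a * x + b * y with hL
  have hLd : (C (2 * a : ℚ) * X + C (b : ℚ) : ℚ[X]).eval ((x : ℚ) / y) * y = (L : ℚ) := by
    rw [eval_add, eval_mul, eval_C, eval_X, eval_C, hL]
    push_cast
    field_simp
  have hL0 : L ≠ 0 := by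
    intro h0
    rw [h0] at hLd
    apply hd
    have := mul_eq_zero.mp (hLd.trans (by norm_num))
    exact this.resolve_right hyQ
  have hG : a * x ^ 2 + b * x * y + c * y ^ 2 ≠ 0 := by
    unfold Cj at hF; exact right_ne_zero_of_mul hF
  have hkey : L ^ 2 - δ * y ^ 2 = 4 * a * (a * x ^ 2 + b * x * y + c * y ^ 2) := by
    rw [hL, hδdef]; ring
  refine ⟨by rw [eval_C]; exact hδQ, L ^ 2, δ * y ^ 2, 4 * a * δ * L, by positivity, ?_, ?_, ?_,
    ?_, by positivity, ?_, ?_⟩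
  · rw [eval_pow, eval_C, Int.cast_pow, ← hLd]
    push_cast
    field_simp
  · intro g h1 h2
    obtain ⟨α, β, hαβ⟩ := hxy
    have e1 : (2 * a : ℤ) = α * L + (2 * a * β - α * b) * y := by
      rw [hL]
      linear_combination (-2 * a) * hαβ
    set γ : ℤ := 2 * a * β - α * b with hγ
    have e : δ * (2 * a) ^ 3 = L ^ 2 * (δ * (α ^ 3 * L + 3 * α ^ 2 * γ * y))
        + (δ * y ^ 2) * (3 * α * γ ^ 2 * L + γ ^ 3 * y) := by
      rw [e1]; ring
    rw [e]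
    exact dvd_add (Dvd.dvd.mul_right h1 _) (Dvd.dvd.mul_right h2 _)
  · unfold F₀
    rw [hkey]
    positivity
  · -- size
    set N : ℝ := max |(L : ℝ)| |(y : ℝ)| with hN
    have hN0 : 0 ≤ N := (abs_nonneg _).trans (le_max_left _ _)
    have h1 : |(x : ℝ)| ≤ (1 + |(b : ℝ)|) * N := by
      have e : (2 * (a : ℝ) * x) = L - b * y := by rw [hL]; push_cast; ring
      have h2 : |(x : ℝ)| ≤ |2 * (a : ℝ) * x| := by
        rw [abs_mul]
        apply le_mul_of_one_le_left (abs_nonneg _)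
        have : (1 : ℤ) ≤ |2 * a| := Int.one_le_abs (by positivity)
        exact_mod_cast this
      rw [e] at h2
      have h3 : |(L : ℝ) - b * y| ≤ |(L : ℝ)| + |(b : ℝ)| * |(y : ℝ)| := by
        rw [← abs_mul]; exact abs_sub _ _
      have h4 : |(L : ℝ)| ≤ N := le_max_left _ _
      have h5 : |(b : ℝ)| * |(y : ℝ)| ≤ |(b : ℝ)| * N :=
        mul_le_mul_of_nonneg_left (le_max_right _ _) (abs_nonneg _)
      linarith
    have h2 : |(y : ℝ)| ≤ (1 + |(b : ℝ)|) * N := by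
      have h3 : |(y : ℝ)| ≤ N := le_max_right _ _
      have h4 : 0 ≤ |(b : ℝ)| * N := by positivity
      linarith
    have h3 : H x y ≤ (1 + |(b : ℝ)|) * N := max_le h1 h2
    have h4 : N ^ 2 ≤ H (L ^ 2) (δ * y ^ 2) := by
      unfold H
      push_cast
      rcases max_choice |(L : ℝ)| |(y : ℝ)| with h | h
      · rw [hN, h]
        apply le_max_of_le_left
        rw [abs_pow]
      · rw [hN, h]
        apply le_max_of_le_right
        rw [abs_mul, abs_pow]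
        exact le_mul_of_one_le_left (by positivity) hδ1
    have hH0 : 0 ≤ H x y := (abs_nonneg _).trans (le_H_left x y)
    have h5 : H x y ^ 2 ≤ (1 + |(b : ℝ)|) ^ 2 * N ^ 2 := by
      rw [← mul_pow]; exact pow_le_pow_left₀ hH0 h3 2
    rw [div_mul_eq_mul_div, one_mul, div_le_iff₀ (by positivity)]
    calc H x y ^ 2 ≤ (1 + |(b : ℝ)|) ^ 2 * N ^ 2 := h5
      _ ≤ (1 + |(b : ℝ)|) ^ 2 * H (L ^ 2) (δ * y ^ 2) := by gcongr
      _ = _ := mul_comm _ _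
  · push_cast
    rw [pow_one, abs_mul, mul_assoc |4 * (a : ℝ) * δ|]
    apply mul_le_mul_of_nonneg_left _ (abs_nonneg _)
    rw [hL]; push_cast
    have h1 := le_H_left x y
    have h2 := le_H_right x y
    calc |2 * (a : ℝ) * x + b * y| ≤ |2 * (a : ℝ) * x| + |(b : ℝ) * y| := abs_add_le _ _
      _ = 2 * |(a : ℝ)| * |(x : ℝ)| + |(b : ℝ)| * |(y : ℝ)| := by
          rw [abs_mul, abs_mul, abs_mul, abs_of_pos (by norm_num : (0 : ℝ) < 2)]
      _ ≤ 2 * |(a : ℝ)| * H x y + |(b : ℝ)| * H x y := by gcongr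
      _ = _ := by ring
  · intro ℓ hℓ hdv
    unfold F₀ at hdv
    rw [hkey] at hdv
    unfold Cj
    have hp := Nat.prime_iff_prime_int.mp hℓ
    have : (4 * a * δ * L * (y * (a * x ^ 2 + b * x * y + c * y ^ 2))) ^ 2
        = L ^ 2 * (δ * y ^ 2) * (4 * a * (a * x ^ 2 + b * x * y + c * y ^ 2))
          * (4 * a * δ * (a * x ^ 2 + b * x * y + c * y ^ 2)) := by ring
    apply hp.dvd_of_dvd_pow (n := 2)
    rw [this]
    exact Dvd.dvd.mul_right hdv _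

lemma abs_B_le (x y : ℤ) : |((y ^ 2 - x ^ 2 : ℤ) : ℝ)| ≤ H x y ^ 2 := by
  push_cast
  have h1 : (x : ℝ) ^ 2 ≤ H x y ^ 2 := by
    rw [← sq_abs]; exact pow_le_pow_left₀ (abs_nonneg _) (le_H_left x y) 2
  have h2 : (y : ℝ) ^ 2 ≤ H x y ^ 2 := by
    rw [← sq_abs (y : ℝ)]; exact pow_le_pow_left₀ (abs_nonneg _) (le_H_right x y) 2
  rw [abs_le]
  constructor <;> nlinarith [sq_nonneg (x : ℝ), sq_nonneg (y : ℝ)]

lemma primes_part (δ K m n x y U V u v : ℤ) (Q : ℕ) (L : ℝ) (hL : 0 < L)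
    (hid : K * (U ^ 2 - δ * V ^ 2) = -δ * ((u - v) ^ 2 * S u v Q)) (hm : m ≠ 0) (hn : n ≠ 0)
    (hδ : δ ≠ 0) (hK : K ≠ 0) (hB : y ^ 2 - x ^ 2 ≠ 0) (hne : U ^ 2 - δ * V ^ 2 ≠ 0)
    (hu : |(u : ℝ)| ≤ L * H x y ^ 2) (hv : |(v : ℝ)| ≤ L * H x y ^ 2)
    (hUV : ∀ ℓ : ℕ, ℓ.Prime → (ℓ : ℤ) ∣ U * V → (ℓ : ℤ) ∣ m * n * (x * y * (y ^ 2 - x ^ 2))) :
    ∃ R : ℤ, R ≠ 0 ∧
      |(R : ℝ)| ≤ (|((m * n * δ : ℤ) : ℝ)| * 2 * (2 * L) * (Kc Q * L ^ Q))
        * H x y ^ (2 * (Q + 2) - 1) ∧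
      ∀ ℓ : ℕ, ℓ.Prime → (ℓ : ℤ) ∣ U * V * (U ^ 2 - δ * V ^ 2) →
        (ℓ : ℤ) ∣ R * F₀ x y := by
  have hxy : x + y ≠ 0 := by
    intro h0
    apply hB
    have : y ^ 2 - x ^ 2 = (x + y) * (y - x) := by ring
    rw [this, h0, zero_mul]
  have hKne : K * (U ^ 2 - δ * V ^ 2) ≠ 0 := mul_ne_zero hK hne
  rw [hid] at hKne
  have hS : S u v Q ≠ 0 := right_ne_zero_of_mul (right_ne_zero_of_mul hKne)
  have huv : u - v ≠ 0 := by
    intro h0
    apply hKne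
    rw [h0]; ring
  refine ⟨m * n * δ * (x + y) * (u - v) * S u v Q, ?_, ?_, ?_⟩
  · exact mul_ne_zero (mul_ne_zero (mul_ne_zero (mul_ne_zero (mul_ne_zero hm hn) hδ) hxy) huv) hS
  · have h0 : 0 ≤ H x y := (abs_nonneg _).trans (le_H_left x y)
    have e1 : |((x : ℝ) + y)| ≤ 2 * H x y := by
      refine (abs_add_le _ _).trans ?_
      linarith [le_H_left x y, le_H_right x y]
    have e2 : |((u : ℝ) - v)| ≤ 2 * L * H x y ^ 2 := by
      refine (abs_sub _ _).trans ?_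
      linarith
    have e3 := S_le_real u v _ hu hv Q
    have e4 : ((m * n * δ * (x + y) * (u - v) * S u v Q : ℤ) : ℝ)
        = ((m * n * δ : ℤ) : ℝ) * ((x : ℝ) + y) * ((u : ℝ) - v) * (S u v Q : ℝ) := by
      push_cast; ring
    rw [e4, abs_mul, abs_mul, abs_mul]
    calc |((m * n * δ : ℤ) : ℝ)| * |(x : ℝ) + y| * |(u : ℝ) - v| * |(S u v Q : ℝ)|
        ≤ |((m * n * δ : ℤ) : ℝ)| * (2 * H x y) * (2 * L * H x y ^ 2) *
          (Kc Q * (L * H x y ^ 2) ^ Q) := by gcongr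
      _ = (|((m * n * δ : ℤ) : ℝ)| * 2 * (2 * L) * (Kc Q * L ^ Q))
          * (H x y * H x y ^ 2 * (H x y ^ 2) ^ Q) := by ring
      _ = _ := by
          congr 1
          rw [← pow_mul, mul_assoc, ← pow_add, ← pow_succ']
          congr 1
          omega
  · intro ℓ hℓ hdv
    have hp := Nat.prime_iff_prime_int.mp hℓ
    unfold F₀
    rcases hp.dvd_or_dvd hdv with h | h
    · have h1 := hUV ℓ hℓ h
      have e : m * n * δ * (x + y) * (u - v) * S u v Q * (x * y * (x - y))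
          = m * n * (x * y * (y ^ 2 - x ^ 2)) * (-(δ * (u - v) * S u v Q)) := by ring
      rw [e]; exact Dvd.dvd.mul_right h1 _
    · have h1 : (ℓ : ℤ) ∣ K * (U ^ 2 - δ * V ^ 2) := Dvd.dvd.mul_left h _
      rw [hid] at h1
      have h2 : (ℓ : ℤ) ∣ (δ * (u - v) * S u v Q) ^ 2 := by
        have e : (δ * (u - v) * S u v Q) ^ 2
            = -δ * ((u - v) ^ 2 * S u v Q) * (-(δ * S u v Q)) := by ring
        rw [e]; exact Dvd.dvd.mul_right h1 _
      have h3 := hp.dvd_of_dvd_pow h2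
      have e : m * n * δ * (x + y) * (u - v) * S u v Q * (x * y * (x - y))
          = (δ * (u - v) * S u v Q) * (m * n * (x + y) * (x * y * (x - y))) := by ring
      rw [e]; exact Dvd.dvd.mul_right h3 _

/-- the second doubling -/
theorem tr_of_first (a b c : ℤ) (ha : a ≠ 0) (δ : ℤ) (hδdef : δ = b ^ 2 - 4 * a * c) (hδ : δ ≠ 0)
    (N : ℕ) (hN : 1 ≤ N) (u v : ℚ[X]) (m n : ℤ) (hm : m ≠ 0) (hn : n ≠ 0) (c₁ C₁ : ℝ)
    (hc₁ : 0 < c₁) (hC₁ : 0 < C₁) (hu0 : u.eval 0 = 0) (hv0 : v.eval 0 ≠ 0)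
    (hd : u * v * (u ^ 2 - C (δ : ℚ) * v ^ 2) ≠ 0)
    (h : ∀ x y : ℤ, IsCoprime x y → y ≠ 0 → ∃ s t : ℤ, IsCoprime s t ∧
      ((m * s : ℤ) : ℚ) = (y : ℚ) ^ N * u.eval ((x : ℚ) / y) ∧
      ((n * t : ℤ) : ℚ) = (y : ℚ) ^ N * v.eval ((x : ℚ) / y) ∧
      c₁ * H x y ^ N ≤ H (m * s) (n * t) ∧
      (s ≠ 0 → t ≠ 0 → (m * s) ^ 2 - δ * (n * t) ^ 2 ≠ 0 → ∃ R : ℤ, R ≠ 0 ∧
        |(R : ℝ)| ≤ C₁ * H x y ^ (2 * N - 1) ∧
        ∀ ℓ : ℕ, ℓ.Prime → (ℓ : ℤ) ∣ (m * s) * (n * t) * ((m * s) ^ 2 - δ * (n * t) ^ 2) →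
          (ℓ : ℤ) ∣ R * F₀ x y)) : Tr (Cj a b c) F₀ := by
  have hδQ : (δ : ℚ) ≠ 0 := by exact_mod_cast hδ
  have haQ : (a : ℚ) ≠ 0 := by exact_mod_cast ha
  have haR : (0 : ℝ) < |(a : ℝ)| := abs_pos.mpr (by exact_mod_cast ha)
  have hδ1 : (1 : ℝ) ≤ |(δ : ℝ)| := by exact_mod_cast Int.one_le_abs hδ
  have hu : u ≠ 0 := by rintro rfl; simp at hd
  have hv : v ≠ 0 := by rintro rfl; simp at hd
  refine ⟨2 * N, (u ^ 2 + C (δ : ℚ) * v ^ 2) - C (b : ℚ) * (2 * u * v), C (2 * a : ℚ) * (2 * u * v),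
    u * v * (u ^ 2 - C (δ : ℚ) * v ^ 2), 2 * a * ((0 + 2) * (0 + 1) * δ * m ^ 3 * n ^ 3),
    c₁ ^ 2 / ((4 + |(δ : ℝ)|) * (1 + |(b : ℝ)|)), 2 * |(a : ℝ)| * C₁, by omega, ?_, ?_, hd,
    by positivity, by positivity, by positivity, ?_⟩
  · intro k hk
    have h1 := congrArg (fun p : ℚ[X] => p.eval 0) hk
    simp only [eval_add, eval_sub, eval_mul, eval_pow, eval_C, hu0, eval_ofNat] at h1
    have : (δ : ℚ) * v.eval 0 ^ 2 ≠ 0 := mul_ne_zero hδQ (pow_ne_zero 2 hv0)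
    apply this
    linarith
  · refine mul_ne_zero ?_ (mul_ne_zero (mul_ne_zero two_ne_zero hu) hv)
    rw [Ne, C_eq_zero]; positivity
  intro x y hxy hy hF hdx
  have hyQ : (y : ℚ) ≠ 0 := by exact_mod_cast hy
  obtain ⟨s, t, hst, hs, ht, hsz, hpr⟩ := h x y hxy hy
  set U : ℤ := m * s with hU
  set V : ℤ := n * t with hV
  set σ : ℚ := (x : ℚ) / y with hσ
  rw [eval_mul, eval_mul] at hdx
  have hus : u.eval σ ≠ 0 := left_ne_zero_of_mul (left_ne_zero_of_mul hdx)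
  have hvs : v.eval σ ≠ 0 := right_ne_zero_of_mul (left_ne_zero_of_mul hdx)
  have hdd : u.eval σ ^ 2 - δ * v.eval σ ^ 2 ≠ 0 := by
    have := right_ne_zero_of_mul hdx
    simpa using this
  have hU0 : U ≠ 0 := by
    intro h0
    rw [h0] at hs
    have : (y : ℚ) ^ N * u.eval σ = 0 := by rw [← hs]; simp
    exact (mul_ne_zero (pow_ne_zero _ hyQ) hus) this
  have hV0 : V ≠ 0 := by
    intro h0
    rw [h0] at ht
    have : (y : ℚ) ^ N * v.eval σ = 0 := by rw [← ht]; simp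
    exact (mul_ne_zero (pow_ne_zero _ hyQ) hvs) this
  have hD0 : U ^ 2 - δ * V ^ 2 ≠ 0 := by
    intro h0
    have h1 : ((U : ℚ)) ^ 2 - δ * (V : ℚ) ^ 2 = 0 := by exact_mod_cast h0
    rw [hs, ht] at h1
    have h2 : ((y : ℚ) ^ N) ^ 2 * (u.eval σ ^ 2 - δ * v.eval σ ^ 2) = 0 := by
      rw [← h1]; ring
    exact (mul_ne_zero (pow_ne_zero _ (pow_ne_zero _ hyQ)) hdd) h2
  have hs0 : s ≠ 0 := by rintro rfl; exact hU0 (by rw [hU, mul_zero])
  have ht0 : t ≠ 0 := by rintro rfl; exact hV0 (by rw [hV, mul_zero])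
  obtain ⟨R, hR0, hRle, hRp⟩ := hpr hs0 ht0 hD0
  have hid : Cj a b c (U ^ 2 + δ * V ^ 2 - b * (2 * U * V)) (2 * a * (2 * U * V))
      = 4 * a ^ 2 * (U * V) * (U ^ 2 - δ * V ^ 2) ^ 2 := by
    unfold Cj
    rw [hδdef]; ring
  refine ⟨?_, U ^ 2 + δ * V ^ 2 - b * (2 * U * V), 2 * a * (2 * U * V), 2 * a * R, by positivity,
    ?_, ?_, ?_, ?_, by positivity, ?_, ?_⟩
  · simp only [eval_mul, eval_C, eval_ofNat]
    positivity
  · have e1 : (((U ^ 2 + δ * V ^ 2 - b * (2 * U * V) : ℤ)) : ℚ) = ((y : ℚ) ^ N) ^ 2 *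
        ((u ^ 2 + C (δ : ℚ) * v ^ 2) - C (b : ℚ) * (2 * u * v)).eval σ := by
      simp only [eval_add, eval_sub, eval_mul, eval_pow, eval_C, eval_ofNat]
      push_cast
      rw [hs, ht]; ring
    have e2 : (((2 * a * (2 * U * V) : ℤ)) : ℚ) = ((y : ℚ) ^ N) ^ 2 *
        (C (2 * a : ℚ) * (2 * u * v)).eval σ := by
      simp only [eval_mul, eval_C, eval_ofNat]
      push_cast
      rw [hs, ht]; ring
    rw [e1, e2, mul_div_mul_left _ _ (pow_ne_zero _ (pow_ne_zero _ hyQ))]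
  · intro g h1 h2
    have e1 : 2 * a * (U ^ 2 + δ * V ^ 2)
        = 2 * a * (U ^ 2 + δ * V ^ 2 - b * (2 * U * V)) + b * (2 * a * (2 * U * V)) := by ring
    have h3 : g ∣ 2 * a * (U ^ 2 + δ * V ^ 2) := by
      rw [e1]; exact dvd_add (Dvd.dvd.mul_left h1 _) (Dvd.dvd.mul_left h2 _)
    have h4 := Int.dvd_coe_gcd h3 h2
    rw [Int.gcd_mul_left] at h4
    have h5 : ((Int.gcd (U ^ 2 + δ * V ^ 2) (2 * U * V) : ℕ) : ℤ) ∣
        (0 + 2) * (0 + 1) * δ * m ^ 3 * n ^ 3 := by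
      have := gcd_dvd 0 δ m n s t (Int.gcd (U ^ 2 + δ * V ^ 2) (2 * U * V)) hst
        (by
          have := Int.gcd_dvd_left (U ^ 2 + δ * V ^ 2) (2 * U * V)
          simpa using this)
        (by
          have := Int.gcd_dvd_right (U ^ 2 + δ * V ^ 2) (2 * U * V)
          simpa using this)
      simpa using this
    have h6 : (((2 * a).natAbs * Int.gcd (U ^ 2 + δ * V ^ 2) (2 * U * V) : ℕ) : ℤ) ∣
        2 * a * ((0 + 2) * (0 + 1) * δ * m ^ 3 * n ^ 3) := by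
      push_cast
      apply mul_dvd_mul _ h5
      have := (abs_dvd (2 * a) (2 * a)).mpr dvd_rfl
      simpa using this
    exact h4.trans h6
  · rw [hid]; positivity
  · -- size
    have hUR : (U : ℝ) ≠ 0 := by exact_mod_cast hU0
    have hsb := size_bound 0 (δ : ℝ) (U : ℝ) (V : ℝ) hδ1 hUR
    simp only [Nat.cast_zero, zero_add, mul_zero, one_mul, pow_one] at hsb
    set T : ℤ := U ^ 2 + δ * V ^ 2 - b * (2 * U * V) with hT
    set W : ℤ := 2 * a * (2 * U * V) with hW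
    have hHTW : 0 ≤ H T W := (abs_nonneg _).trans (le_H_left T W)
    have hw : |(2 * (U : ℝ) * V)| ≤ H T W := by
      refine le_trans ?_ (le_H_right T W)
      rw [hW]; push_cast
      rw [abs_mul (2 * (a : ℝ))]
      apply le_mul_of_one_le_left (abs_nonneg _)
      have : (1 : ℤ) ≤ |2 * a| := Int.one_le_abs (by positivity)
      exact_mod_cast this
    have htt : |(U : ℝ) ^ 2 + δ * (V : ℝ) ^ 2| ≤ (1 + |(b : ℝ)|) * H T W := by
      have e : (U : ℝ) ^ 2 + δ * (V : ℝ) ^ 2 = (T : ℝ) + b * (2 * U * V) := by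
        rw [hT]; push_cast; ring
      rw [e]
      refine (abs_add_le _ _).trans ?_
      rw [abs_mul (b : ℝ)]
      have h1 := le_H_left T W
      have h2 : |(b : ℝ)| * |2 * (U : ℝ) * V| ≤ |(b : ℝ)| * H T W :=
        mul_le_mul_of_nonneg_left hw (abs_nonneg _)
      linarith
    have hmx : max |(U : ℝ) ^ 2 + δ * (V : ℝ) ^ 2| |2 * (U : ℝ) * V| ≤ (1 + |(b : ℝ)|) * H T W := by
      refine max_le htt (hw.trans ?_)
      have : 0 ≤ |(b : ℝ)| * H T W := by positivity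
      linarith
    have hHUV : H U V ^ 2 ≤ (4 + |(δ : ℝ)|) * ((1 + |(b : ℝ)|) * H T W) := by
      refine hsb.trans ?_
      apply mul_le_mul_of_nonneg_left hmx (by positivity)
    have h3 : (c₁ * H x y ^ N) ^ 2 ≤ H U V ^ 2 := by
      apply pow_le_pow_left₀ _ hsz
      have : 0 ≤ H x y := (abs_nonneg _).trans (le_H_left x y)
      positivity
    rw [div_mul_eq_mul_div, div_le_iff₀ (by positivity)]
    calc c₁ ^ 2 * H x y ^ (2 * N) = (c₁ * H x y ^ N) ^ 2 := by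
          rw [mul_pow, ← pow_mul, mul_comm N 2]
      _ ≤ H U V ^ 2 := h3
      _ ≤ (4 + |(δ : ℝ)|) * ((1 + |(b : ℝ)|) * H T W) := hHUV
      _ = _ := by ring
  · push_cast
    rw [abs_mul, abs_mul, abs_of_pos (by norm_num : (0 : ℝ) < 2), mul_assoc (2 * |(a : ℝ)|)]
    exact mul_le_mul_of_nonneg_left hRle (by positivity)
  · intro ℓ hℓ hdv
    rw [hid] at hdv
    have hp := Nat.prime_iff_prime_int.mp hℓ
    rcases hp.dvd_or_dvd hdv with h1 | h1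
    · rcases hp.dvd_or_dvd h1 with h2 | h2
      · have h3 : (ℓ : ℤ) ∣ (2 * a) ^ 2 := by
          have e : (2 * a) ^ 2 = 4 * a ^ 2 := by ring
          rw [e]; exact h2
        have h4 := hp.dvd_of_dvd_pow h3
        have e : 2 * a * R * F₀ x y = (2 * a) * (R * F₀ x y) := by ring
        rw [e]; exact Dvd.dvd.mul_right h4 _
      · have h4 := hRp ℓ hℓ (Dvd.dvd.mul_right h2 _)
        have e : 2 * a * R * F₀ x y = (2 * a) * (R * F₀ x y) := by ring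
        rw [e]; exact Dvd.dvd.mul_left h4 _
    · have h2 := hp.dvd_of_dvd_pow h1
      have h4 := hRp ℓ hℓ (Dvd.dvd.mul_left h2 _)
      have e : 2 * a * R * F₀ x y = (2 * a) * (R * F₀ x y) := by ring
      rw [e]; exact Dvd.dvd.mul_left h4 _

end Pool.Agent.Q245.Vg
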